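import Pool.Agent.K7.H42.SD.OrdAlg

/-!
# Project SD, job RELAB: the relabelled graph (MP_360560_lc)
-/

set_option autoImplicit false

namespace Pool.Agent.K7.H48.SD

open Pool.Agent.K7.H42.SD

/-- `u` comes before `v` -/
def bf (n : ℕ) (D : List (ℕ × ℕ)) (u v : ℕ) : Prop :=
  key n D u < key n D v ∨ (key n D u = key n D v ∧ u < v)

theorem len_filter (n : ℕ) (p : ℕ → Bool) :
    ((List.range n).filter p).length = ((Finset.range n).filter (fun u => p u = true)).card := by
  have h : (Finset.range n).filter (fun u => p u = true) = ((List.range n).filter p).toFinset := by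
    ext x
    simp
  rw [h, List.toFinset_card_of_nodup]
  exact (List.nodup_range).filter _

theorem pos_eq (n : ℕ) (D : List (ℕ × ℕ)) (v : ℕ) :
    pos n D v = ((Finset.range n).filter (fun u => (decide (key n D u < key n D v) ||
    (decide (key n D u = key n D v) && decide (u < v))) = true)).card := by
  unfold pos
  rw [len_filter]

theorem mem_iff {n : ℕ} {D : List (ℕ × ℕ)} {u v : ℕ} :
    (decide (key n D u < key n D v) ||
    (decide (key n D u = key n D v) && decide (u < v))) = true ↔ bf n D u v := by
  simp [bf]

theorem bf_trans {n : ℕ} {D : List (ℕ × ℕ)} {u v w : ℕ} (h1 : bf n D u v) (h2 : bf n D v w) :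
    bf n D u w := by
  unfold bf at *
  omega

theorem bf_irr {n : ℕ} {D : List (ℕ × ℕ)} {u : ℕ} : ¬ bf n D u u := by
  unfold bf
  omega

theorem bf_tri {n : ℕ} {D : List (ℕ × ℕ)} {u v : ℕ} (h : u ≠ v) : bf n D u v ∨ bf n D v u := by
  unfold bf
  omega

theorem pos_lt_pos {n : ℕ} {D : List (ℕ × ℕ)} {u v : ℕ} (hu : u < n) (h : bf n D u v) :
    pos n D u < pos n D v := by
  rw [pos_eq, pos_eq]
  apply Finset.card_lt_card
  rw [Finset.ssubset_iff_of_subset]
  · refine ⟨u, ?_, ?_⟩
    · rw [Finset.mem_filter, mem_iff]
      exact ⟨Finset.mem_range.2 hu, h⟩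
    · rw [Finset.mem_filter, mem_iff]
      exact fun h' => bf_irr h'.2
  · intro w hw
    rw [Finset.mem_filter, mem_iff] at hw ⊢
    exact ⟨hw.1, bf_trans hw.2 h⟩

theorem pos_lt {n : ℕ} {D : List (ℕ × ℕ)} {v : ℕ} (hv : v < n) : pos n D v < n := by
  rw [pos_eq]
  have h : ((Finset.range n).filter (fun u => (decide (key n D u < key n D v) ||
    (decide (key n D u = key n D v) && decide (u < v))) = true)).card < (Finset.range n).card := by
    apply Finset.card_lt_card
    rw [Finset.ssubset_iff_of_subset (Finset.filter_subset _ _)]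
    refine ⟨v, Finset.mem_range.2 hv, ?_⟩
    rw [Finset.mem_filter, mem_iff]
    exact fun h' => bf_irr h'.2
  rwa [Finset.card_range] at h

theorem pos_inj {n : ℕ} {D : List (ℕ × ℕ)} {u v : ℕ} (hu : u < n) (hv : v < n)
    (h : pos n D u = pos n D v) : u = v := by
  by_contra hne
  rcases bf_tri (n := n) (D := D) hne with h' | h'
  · exact absurd (pos_lt_pos hu h') (by omega)
  · exact absurd (pos_lt_pos hv h') (by omega)

theorem pos_lt_iff {n : ℕ} {D : List (ℕ × ℕ)} {u v : ℕ} (hu : u < n) (hv : v < n) :
    pos n D u < pos n D v ↔ bf n D u v := by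
  constructor
  · intro h
    by_contra h'
    have hne : u ≠ v := by rintro rfl; omega
    rcases bf_tri (n := n) (D := D) hne with h1 | h1
    · exact h' h1
    · exact absurd (pos_lt_pos hv h1) (by omega)
  · exact pos_lt_pos hu

theorem pos_surj {n : ℕ} (D : List (ℕ × ℕ)) {i : ℕ} (hi : i < n) : ∃ v < n, pos n D v = i := by
  let g : Fin n → Fin n := fun v => ⟨pos n D v.1, pos_lt v.2⟩
  have hg : Function.Injective g := by
    intro u v h
    have := congrArg Fin.val h
    exact Fin.ext (pos_inj u.2 v.2 this)
  obtain ⟨v, hv⟩ := (Finite.injective_iff_surjective.1 hg) ⟨i, hi⟩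
  exact ⟨v.1, v.2, congrArg Fin.val hv⟩

theorem atp_spec {n : ℕ} (D : List (ℕ × ℕ)) {i : ℕ} (hi : i < n) :
    atp n D i < n ∧ pos n D (atp n D i) = i := by
  obtain ⟨v, hv, hvi⟩ := pos_surj D hi
  have hmem : v ∈ (List.range n).filter (fun v => decide (pos n D v = i)) := by
    rw [List.mem_filter]
    exact ⟨List.mem_range.2 hv, by simp [hvi]⟩
  have key : ∀ l : List ℕ, l ≠ [] → l.headD 0 ∈ l := by
    intro l hl
    cases l with
    | nil => exact absurd rfl hl
    | cons a l => simp
  have h2 : atp n D i ∈ (List.range n).filter (fun v => decide (pos n D v = i)) :=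
    key _ (List.ne_nil_of_mem hmem)
  rw [List.mem_filter] at h2
  exact ⟨List.mem_range.1 h2.1, by simpa using h2.2⟩

theorem atp_pos {n : ℕ} (D : List (ℕ × ℕ)) {v : ℕ} (hv : v < n) : atp n D (pos n D v) = v := by
  have h := atp_spec D (pos_lt (D := D) hv)
  exact pos_inj h.1 hv h.2

theorem adjb_symm (L : List (List ℕ)) (i j : ℕ) : adjb L i j = adjb L j i := by
  unfold adjb
  have e1 : decide (i = j) = decide (j = i) := by
    by_cases h : i = j
    · subst h; rfl
    · have h' : j ≠ i := fun e => h e.symm
      simp [h, h']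
  rw [Bool.and_comm (decide (i < L.length)), e1, Bool.or_comm (decide (j ∈ L.getD i []))]

theorem adjb_irr (L : List (List ℕ)) (i : ℕ) : adjb L i i = false := by
  simp [adjb]

theorem adjb_lt (L : List (List ℕ)) {i j : ℕ} (h : adjb L i j = true) :
    i < L.length ∧ j < L.length := by
  unfold adjb at h
  simp only [Bool.and_eq_true, decide_eq_true_eq] at h
  exact h.1

theorem relab_length (L : List (List ℕ)) (D : List (ℕ × ℕ)) : (relab L D).length = L.length := by
  simp [relab]

theorem relab_adj (L : List (List ℕ)) (D : List (ℕ × ℕ)) {i j : ℕ} (hi : i < L.length)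
    (hj : j < L.length) :
    adjb (relab L D) i j = adjb L (atp L.length D i) (atp L.length D j) := by
  have hget : ∀ i < L.length, (relab L D).getD i [] = (List.range L.length).filter
    (fun j => adjb L (atp L.length D i) (atp L.length D j)) := by
    intro i hi
    unfold relab
    rw [List.getD_eq_getElem?_getD, List.getElem?_map, List.getElem?_range hi]
    rfl
  by_cases hij : i = j
  · subst hij
    rw [adjb_irr, adjb_irr]
  · have hm : ∀ i j, i < L.length → j < L.length → decide (j ∈ (relab L D).getD i []) =
        adjb L (atp L.length D i) (atp L.length D j) := by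
      intro i j hi hj
      rw [hget i hi]
      by_cases h : adjb L (atp L.length D i) (atp L.length D j) = true
      · rw [h, decide_eq_true_eq, List.mem_filter]
        exact ⟨List.mem_range.2 hj, h⟩
      · have h' : adjb L (atp L.length D i) (atp L.length D j) = false := by simpa using h
        rw [h', decide_eq_false_iff_not, List.mem_filter]
        exact fun h2 => h h2.2
    have e : adjb (relab L D) i j = ((decide (i < L.length) && decide (j < L.length)) &&
        (!(decide (i = j)) && (decide (j ∈ (relab L D).getD i []) ||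
          decide (i ∈ (relab L D).getD j [])))) := by
      unfold adjb
      rw [relab_length]
    rw [e, hm i j hi hj, hm j i hj hi, adjb_symm L (atp L.length D j)]
    simp [hi, hj, hij]

theorem key_lt {L : List (List ℕ)} {D : List (ℕ × ℕ)} (hD : Fin1 L D) {u v : ℕ}
    (h : (u, v) ∈ D) : key L.length D u < key L.length D v := by
  unfold key
  rw [len_filter, len_filter]
  apply Finset.card_lt_card
  rw [Finset.ssubset_iff_of_subset]
  · refine ⟨u, ?_, ?_⟩
    · rw [Finset.mem_filter, decide_eq_true_eq]
      exact ⟨Finset.mem_range.2 (hD.lt _ h).1, h⟩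
    · rw [Finset.mem_filter, decide_eq_true_eq]
      exact fun h' => hD.irr _ h'.2
  · intro w hw
    rw [Finset.mem_filter, decide_eq_true_eq] at hw ⊢
    exact ⟨hw.1, hD.trans _ _ _ hw.2 h⟩

theorem strong_relab {L : List (List ℕ)} {D : List (ℕ × ℕ)} (hD : Fin1 L D) :
    Strong L.length (fun i j => adjb (relab L D) i j = true) where
  lt := by
    intro i j h
    have := (adjb_lt _ h).1
    rwa [relab_length] at this
  symm := by
    intro i j h
    rw [adjb_symm]
    exact h
  irr := by
    intro i h
    rw [adjb_irr] at h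
    exact Bool.false_ne_true h
  free := by
    intro i j k l hij hkl h1 h2
    have hi := (adjb_lt _ h1).1
    have hk := (adjb_lt _ h1).2
    have hj := (adjb_lt _ h2).1
    have hl := (adjb_lt _ h2).2
    rw [relab_length] at hi hk hj hl
    by_contra hcon
    push Not at hcon
    obtain ⟨h3, h4⟩ := hcon
    rw [relab_adj L D hi hk] at h1
    rw [relab_adj L D hj hl] at h2
    rw [relab_adj L D hi hl] at h3
    rw [relab_adj L D hj hk] at h4
    have si := atp_spec D hi
    have sj := atp_spec D hj
    have sk := atp_spec D hk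
    have sl := atp_spec D hl
    have himp : impb L (atp L.length D i, atp L.length D j) (atp L.length D l, atp L.length D k) =
        true := by
      unfold impb
      simp only [h1, h2, Bool.true_and, Bool.and_eq_true]
      refine ⟨?_, ?_⟩
      · simpa using h3
      · simpa using h4
    have hlt : ∀ {u v : ℕ}, (u, v) ∈ D → pos L.length D u < pos L.length D v := fun {u v} h =>
      pos_lt_pos (hD.lt _ h).1 (Or.inl (key_lt hD h))
    rcases hD.dec _ _ _ _ himp with h | h
    · have h' := hlt (hD.closed _ _ _ _ h himp)
      rw [sl.2, sk.2] at h'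
      omega
    · have h' := hlt h
      rw [si.2, sj.2] at h'
      omega

/-- **JOB RELAB** -/
theorem stRelab : StRelab := by
  intro L D
  refine ⟨relab_length L D, ⟨atp L.length D, pos L.length D, ?_, ?_, ?_⟩, strong_relab⟩
  · exact fun i hi => atp_spec D hi
  · exact fun i hi => ⟨pos_lt hi, atp_pos D hi⟩
  · exact fun i j hi hj => relab_adj L D hi hj

end Pool.Agent.K7.H48.SD
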