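import Pool.Agent.Helper669.Forcing

/-!
# The strong countable fan tightness game in the ground model and in the extension

Sentences of the forcing language are the sets of the conditions which force them, see
`Pool.Agent.Helper669.Forcing`. A name for a subset of a ground model set `X` is a map `A` from
`X` to the sets of conditions; `meets (A a)` is the sentence saying that `a` is in the set named
by `A`.
-/

set_option autoImplicit false

namespace Pool.Agent.K7.H48.Fan

open Set Pool.Agent.Helper669.Forcing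

universe u v w

/-! ### The game in the ground model -/

/-- II has a winning strategy in the game `G₁(Ω_x, Ω_x)`, where `Ω_x` is the family of all the sets
whose closure contains `x`. The value `σ n A` is the answer of II in round `n`, when I has played
`A 0, …, A n`; it has to be an element of `A n`, and II wins if the closure of the set of the
answers contains `x`. -/
def IIWins {X : Type v} [TopologicalSpace X] (x : X) : Prop :=
  ∃ σ : (n : ℕ) → (Fin (n + 1) → Set X) → X,
    (∀ (n : ℕ) (A : Fin (n + 1) → Set X), (∀ i, x ∈ closure (A i)) → σ n A ∈ A (Fin.last n)) ∧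
    ∀ A : ℕ → Set X, (∀ n, x ∈ closure (A n)) → x ∈ closure {a | ∃ n, a = σ n (fun i => A i)}

/-! ### The game in the extension -/

section

variable {P : Type u} [Preorder P] {X : Type v}

/-- The subsets of `X` named by `A` and `B` are equal. -/
def fSame (A B : X → Set P) : Set P :=
  fall fun a => fand (fimp (meets (A a)) (meets (B a))) (fimp (meets (B a)) (meets (A a)))

/-- The set named by `A` has exactly the element `a`. -/
def fIsSingleton (A : X → Set P) (a : X) : Set P :=
  fand (meets (A a)) (fall fun b => fimp (meets (A b)) (fground (b = a)))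

/-- The closure of the set named by `A` contains `x`, in the topology on `X` which is generated by
the ground model topology as a base: all ground model open sets containing `x` have an element
in common with the set named by `A`. -/
def fClosure [TopologicalSpace X] (x : X) (A : X → Set P) : Set P :=
  fall fun W : Set X => fall fun _ : IsOpen W => fall fun _ : x ∈ W =>
    fex fun a : X => fand (fground (a ∈ W)) (meets (A a))

/-- `S` names a winning strategy of II in `G₁(Ω_x, Ω_x)`. Here `S n A` is a name for the set whose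
only element is the answer of II in round `n`, when I has played the sets named by
`A 0, …, A n`. The first clause says that it depends only on the sets and not on their names, the
second one that the answer of II is an element of the set named by `A n`, and the third one that
the closure of the set of the answers contains `x`. -/
def fWinning [TopologicalSpace X] (x : X) (S : (n : ℕ) → (Fin (n + 1) → X → Set P) → X → Set P) :
    Set P :=
  fand
    (fall fun n => fall fun A : Fin (n + 1) → X → Set P => fall fun B : Fin (n + 1) → X → Set P =>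
      fimp (fall fun i => fSame (A i) (B i)) (fSame (S n A) (S n B)))
    (fand
      (fall fun n => fall fun A : Fin (n + 1) → X → Set P =>
        fimp (fall fun i => fClosure x (A i))
          (fex fun a => fand (fIsSingleton (S n A) a) (meets (A (Fin.last n) a))))
      (fall fun A : ℕ → X → Set P =>
        fimp (fall fun n => fClosure x (A n)) (fClosure x fun a => ⋃ n, S n (fun i => A i) a)))

/-- In the extension by `P`, II has a winning strategy in `G₁(Ω_x, Ω_x)` on `X` with the topology
generated by the ground model topology as a base. -/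
def fIIWins (P : Type u) [Preorder P] {X : Type v} [TopologicalSpace X] (x : X) : Set P :=
  fex fun S : (n : ℕ) → (Fin (n + 1) → X → Set P) → X → Set P => fWinning x S

end

/-! ### The dual game -/

/-- The state of a machine with the initial state `s₀` and the transition function `nx` after
having read the first `n` elements of `a`. -/
def state {X : Type v} {St : Type w} (s₀ : St) (nx : St → X → St) (a : ℕ → X) : ℕ → St
  | 0 => s₀
  | n + 1 => nx (state s₀ nx a n) (a n)

theorem state_congr {X : Type v} {St : Type w} (s₀ : St) (nx : St → X → St) {a b : ℕ → X} {n : ℕ}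
    (h : ∀ i < n, a i = b i) : state s₀ nx a n = state s₀ nx b n := by
  induction n with
  | zero => rfl
  | succ n ih =>
    simp only [state]
    rw [ih fun i hi => h i (hi.trans (Nat.lt_succ_self n)), h n (Nat.lt_succ_self n)]

/-- The opponent of the dual game chooses open neighbourhoods of `x`, with a winning strategy. -/
theorem exists_machine {X : Type v} [TopologicalSpace X] {x : X} (h : IIWins x) :
    ∃ (St : Type v) (s₀ : St) (nx : St → X → St) (U : St → Set X),
      (∀ s, IsOpen (U s) ∧ x ∈ U s) ∧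
      ∀ a : ℕ → X, (∀ n, a n ∈ U (state s₀ nx a n)) → x ∈ closure (range a) := by
  classical
  obtain ⟨σ, hσ, hwin⟩ := h
  -- the main claim
  have h1 : ∀ s : Σ n, {A : Fin n → Set X // ∀ i, x ∈ closure (A i)}, ∃ U : Set X,
      (IsOpen U ∧ x ∈ U) ∧ ∀ a ∈ U, ∃ B : Set X, x ∈ closure B ∧ σ s.1 (Fin.snoc s.2.1 B) = a := by
    rintro ⟨n, A, hA⟩
    by_contra hcon
    push Not at hcon
    let B : Set X := {a | ∀ C : Set X, x ∈ closure C → σ n (Fin.snoc A C) ≠ a}
    have hB : x ∈ closure B := by
      rw [mem_closure_iff]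
      intro U hU hxU
      obtain ⟨a, ha, ha'⟩ := hcon U ⟨hU, hxU⟩
      exact ⟨a, ha, ha'⟩
    have h2 : σ n (Fin.snoc A B) ∈ B := by
      have := hσ n (Fin.snoc A B) (fun i => by
        refine Fin.lastCases ?_ (fun j => ?_) i
        · rw [Fin.snoc_last]; exact hB
        · rw [Fin.snoc_castSucc]; exact hA j)
      rwa [Fin.snoc_last] at this
    exact h2 B hB rfl
  choose U hU hN using h1
  choose! N hN using hN
  refine ⟨Σ n, {A : Fin n → Set X // ∀ i, x ∈ closure (A i)}, ⟨0, Fin.elim0, fun i => i.elim0⟩,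
    fun s a => if ha : a ∈ U s then ⟨s.1 + 1, Fin.snoc s.2.1 (N s a), fun i => by
        refine Fin.lastCases ?_ (fun j => ?_) i
        · rw [Fin.snoc_last]; exact (hN s a ha).1
        · rw [Fin.snoc_castSucc]; exact s.2.2 j⟩ else s, U, hU, fun a ha => ?_⟩
  set s₀ : Σ n, {A : Fin n → Set X // ∀ i, x ∈ closure (A i)} :=
    ⟨0, Fin.elim0, fun i => i.elim0⟩ with hs₀
  set nx : (Σ n, {A : Fin n → Set X // ∀ i, x ∈ closure (A i)}) → X →
    Σ n, {A : Fin n → Set X // ∀ i, x ∈ closure (A i)} :=
    fun s a => if ha : a ∈ U s then ⟨s.1 + 1, Fin.snoc s.2.1 (N s a), fun i => by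
        refine Fin.lastCases ?_ (fun j => ?_) i
        · rw [Fin.snoc_last]; exact (hN s a ha).1
        · rw [Fin.snoc_castSucc]; exact s.2.2 j⟩ else s with hnx
  let A : ℕ → Set X := fun n => N (state s₀ nx a n) (a n)
  have hstate : ∀ n, state s₀ nx a n =
      ⟨n, fun i => A i, fun i => (hN _ _ (ha i)).1⟩ := by
    intro n
    induction n with
    | zero =>
      simp only [state, hs₀]
      congr 1
      apply Subtype.ext
      funext i
      exact i.elim0
    | succ n ih =>
      have key : ∀ (s : Σ n, {A : Fin n → Set X // ∀ i, x ∈ closure (A i)}) (F : Fin n → Set X)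
          (hF : ∀ i, x ∈ closure (F i)), s = ⟨n, F, hF⟩ → ∀ (c : X), c ∈ U s →
          ∀ (B : ℕ → Set X), (∀ i : Fin n, F i = B i) → B n = N s c →
          ∀ h : ∀ i : Fin (n + 1), x ∈ closure (B i), nx s c = ⟨n + 1, fun i => B i, h⟩ := by
        rintro s F hF rfl c hc B hFB hBn h
        simp only [hnx]
        rw [dif_pos hc]
        have h6 : (Fin.snoc F (N ⟨n, F, hF⟩ c) : Fin (n + 1) → Set X) = fun i : Fin (n + 1) => B i := by
          funext i
          refine Fin.lastCases ?_ (fun j => ?_) i
          · rw [Fin.snoc_last]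
            exact hBn.symm
          · rw [Fin.snoc_castSucc]
            exact hFB j
        exact Sigma.ext rfl (heq_of_eq (Subtype.ext h6))
      exact key _ _ _ ih (a n) (ha n) A (fun i => rfl) rfl _
  have hans : ∀ n, σ n (fun i => A i) = a n := by
    intro n
    have h3 := (hN (state s₀ nx a n) (a n) (ha n)).2
    have h4 : A n = N (state s₀ nx a n) (a n) := rfl
    rw [← h4, hstate n] at h3
    rw [← h3]
    congr 1
    funext i
    refine Fin.lastCases ?_ (fun j => ?_) i
    · rw [Fin.snoc_last]
      rfl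
    · rw [Fin.snoc_castSucc]
      rfl
  have := hwin A fun n => (hN _ _ (ha n)).1
  refine closure_mono ?_ this
  rintro _ ⟨n, rfl⟩
  exact ⟨n, (hans n).symm⟩

/-! ### Preservation -/

section

variable {P : Type u} [Preorder P] {X : Type v}

theorem meets_reg {N : Set P} {p : P} (h : ∀ q ≤ p, ∃ r ≤ q, r ∈ meets N) : p ∈ meets N := by
  intro q hq
  obtain ⟨r, hr, hr'⟩ := h q hq
  obtain ⟨t, ht, s, hs, hts⟩ := hr' r le_rfl
  exact ⟨t, ht.trans hr, s, hs, hts⟩

/-- `a` is the least element in `U` of the set named by `B`. -/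
def Step (r : X → X → Prop) (B : X → Set P) (U : Set X) (a : X) : Set P :=
  fand (meets (B a)) (fand (fground (a ∈ U))
    (fall fun b => fall fun _ : r b a => fall fun _ : b ∈ U => fnot (meets (B b))))

theorem down_Step (r : X → X → Prop) (B : X → Set P) (U : Set X) (a : X) :
    Down (Step r B U a) :=
  down_fand (down_meets _) (down_fand (down_fground _)
    (down_fall fun _ => down_fall fun _ => down_fall fun _ => down_fnot _))

theorem Step.unique {r : X → X → Prop} [IsWellOrder X r] {B : X → Set P} {U : Set X} {a b : X}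
    {p : P} (ha : p ∈ Step r B U a) (hb : p ∈ Step r B U b) : a = b := by
  rcases trichotomous_of r a b with h | h | h
  · exact absurd ha.1 (hb.2.2 a h ha.2.1 p le_rfl)
  · exact h
  · exact absurd hb.1 (ha.2.2 b h hb.2.1 p le_rfl)

theorem Step.exists_of_closure {r : X → X → Prop} [IsWellOrder X r] [TopologicalSpace X] {x : X}
    {B : X → Set P} {U : Set X} (hU : IsOpen U) (hx : x ∈ U) {p : P} (hB : p ∈ fClosure x B) :
    ∃ q ≤ p, ∃ a, q ∈ Step r B U a := by
  obtain ⟨q, hq, a, haU, ha⟩ := mem_fex.1 (hB U hU hx) p le_rfl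
  have hne : {a | a ∈ U ∧ ∃ q ≤ p, q ∈ meets (B a)}.Nonempty := ⟨a, haU, q, hq, ha⟩
  let m := (IsWellFounded.wf (r := r)).min _ hne
  have hm : m ∈ U ∧ ∃ q ≤ p, q ∈ meets (B m) := (IsWellFounded.wf (r := r)).min_mem _ hne
  obtain ⟨hmU, q', hq', hmq⟩ := hm
  refine ⟨q', hq', m, hmq, hmU, fun b hb hbU s hs hsB => ?_⟩
  exact (IsWellFounded.wf (r := r)).not_lt_min _
    (show b ∈ {a | a ∈ U ∧ ∃ q ≤ p, q ∈ meets (B a)} from ⟨hbU, s, hs.trans hq', hsB⟩) hb

theorem Step.congr {r : X → X → Prop} {B C : X → Set P} {U : Set X} {a : X} {p : P}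
    (hs : p ∈ fSame B C) (ha : p ∈ Step r B U a) : p ∈ Step r C U a := by
  refine ⟨meets_reg fun q hq => mem_fimp.1 (hs a).1 q hq (down_meets _ _ ha.1 _ hq), ha.2.1,
    fun b hb hbU q hq hqC => ?_⟩
  obtain ⟨s, hs', hsB⟩ := mem_fimp.1 (hs b).2 q hq hqC
  exact ha.2.2 b hb hbU s (hs'.trans hq) hsB

theorem down_fSame (A B : X → Set P) : Down (fSame A B) :=
  down_fall fun _ => down_fand (down_fimp _ _) (down_fimp _ _)

theorem down_fClosure [TopologicalSpace X] (x : X) (A : X → Set P) : Down (fClosure x A) :=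
  down_fall fun _ => down_fall fun _ => down_fall fun _ => down_fex _

/-- The name for the strategy of II. -/
def strat {St : Type w} (r : X → X → Prop) (s₀ : St) (nx : St → X → St) (U : St → Set X)
    (n : ℕ) (A : Fin (n + 1) → X → Set P) (b : X) : Set P :=
  {p | ∃ a : ℕ → X, a n = b ∧ ∀ i : Fin (n + 1), p ∈ Step r (A i) (U (state s₀ nx a i)) (a i)}

variable {St : Type w} {r : X → X → Prop} {s₀ : St} {nx : St → X → St} {U : St → Set X}

theorem unique_play [IsWellOrder X r] {n : ℕ} {A : Fin (n + 1) → X → Set P} {a b : ℕ → X} {p : P}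
    (ha : ∀ i : Fin (n + 1), p ∈ Step r (A i) (U (state s₀ nx a i)) (a i))
    (hb : ∀ i : Fin (n + 1), p ∈ Step r (A i) (U (state s₀ nx b i)) (b i)) :
    ∀ i, i < n + 1 → a i = b i := by
  intro i
  induction i using Nat.strong_induction_on with
  | _ i ih =>
    intro hi
    have h1 : state s₀ nx a i = state s₀ nx b i :=
      state_congr s₀ nx fun j hj => ih j hj (hj.trans hi)
    have h2 := ha ⟨i, hi⟩
    have h3 := hb ⟨i, hi⟩
    simp only at h2 h3
    rw [← h1] at h3
    exact Step.unique h2 h3

theorem strat_congr {n : ℕ} {A B : Fin (n + 1) → X → Set P} {p : P}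
    (h : ∀ i, p ∈ fSame (A i) (B i)) {b : X} {q : P} (hq : q ≤ p)
    (hm : q ∈ meets (strat r s₀ nx U n A b)) : q ∈ meets (strat r s₀ nx U n B b) := by
  refine meets_reg fun q' hq' => ?_
  obtain ⟨t, ht, s, ⟨a, hab, ha⟩, hts⟩ := hm q' hq'
  refine ⟨t, ht, meets_of_mem ⟨a, hab, fun i => Step.congr (down_fSame _ _ _ (h i) _
    (ht.trans (hq'.trans hq))) (down_Step _ _ _ _ _ (ha i) _ hts)⟩⟩

theorem extend_play [IsWellOrder X r] [TopologicalSpace X] {x : X}
    (hU : ∀ s, IsOpen (U s) ∧ x ∈ U s) (n : ℕ) (A : ℕ → X → Set P) (a : ℕ → X) {p : P}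
    (hA : p ∈ fClosure x (A n))
    (ha : ∀ i < n, p ∈ Step r (A i) (U (state s₀ nx a i)) (a i)) :
    ∃ q ≤ p, ∃ b : ℕ → X, (∀ i < n, b i = a i) ∧
      ∀ i < n + 1, q ∈ Step r (A i) (U (state s₀ nx b i)) (b i) := by
  classical
  obtain ⟨q, hq, c, hc⟩ := Step.exists_of_closure (r := r) (hU (state s₀ nx a n)).1
    (hU (state s₀ nx a n)).2 hA
  have hst : ∀ i ≤ n, state s₀ nx (fun j => if j = n then c else a j) i = state s₀ nx a i := by
    intro i hi
    refine state_congr s₀ nx fun j hj => ?_
    exact if_neg (by omega)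
  refine ⟨q, hq, fun j => if j = n then c else a j, fun i hi => if_neg hi.ne, fun i hi => ?_⟩
  rw [hst i (by omega)]
  rcases Nat.lt_succ_iff_lt_or_eq.1 hi with h | h
  · have h7 : (if i = n then c else a i) = a i := if_neg h.ne
    show q ∈ Step r (A i) (U (state s₀ nx a i)) (if i = n then c else a i)
    rw [h7]
    exact down_Step _ _ _ _ _ (ha i h) _ hq
  · subst h
    simp only [if_true]
    exact hc

theorem exists_play [IsWellOrder X r] [TopologicalSpace X] {x : X}
    (hU : ∀ s, IsOpen (U s) ∧ x ∈ U s) (n : ℕ) (A : ℕ → X → Set P) {p : P}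
    (hA : ∀ i < n, p ∈ fClosure x (A i)) :
    ∃ q ≤ p, ∃ a : ℕ → X, ∀ i < n, q ∈ Step r (A i) (U (state s₀ nx a i)) (a i) := by
  induction n with
  | zero => exact ⟨p, le_rfl, fun _ => x, fun i hi => absurd hi (Nat.not_lt_zero i)⟩
  | succ n ih =>
    obtain ⟨q, hq, a, ha⟩ := ih fun i hi => hA i (hi.trans (Nat.lt_succ_self n))
    obtain ⟨q', hq', b, -, hb⟩ := extend_play hU n A a
      (down_fClosure _ _ _ (hA n (Nat.lt_succ_self n)) _ hq) ha
    exact ⟨q', hq'.trans hq, b, hb⟩

/-- The existence of a winning strategy of II is preserved. -/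
theorem preserved [TopologicalSpace X] {x : X} (h : IIWins x) (p : P) : p ∈ fIIWins P x := by
  classical
  obtain ⟨St, s₀, nx, U, hU, hwin⟩ := exists_machine h
  let r : X → X → Prop := WellOrderingRel
  refine mem_fex_of_mem (strat r s₀ nx U) (down_fand ?_ (down_fand ?_ ?_)) ⟨?_, ?_, ?_⟩
  · exact down_fall fun _ => down_fall fun _ => down_fall fun _ => down_fimp _ _
  · exact down_fall fun _ => down_fall fun _ => down_fimp _ _
  · exact down_fall fun _ => down_fimp _ _
  · -- the answers do not depend on the names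
    intro n A B
    refine mem_fimp.2 fun q _ hq => ⟨q, le_rfl, fun b => ⟨?_, ?_⟩⟩
    · exact mem_fimp.2 fun q' hq' hm => ⟨q', le_rfl, strat_congr hq hq' hm⟩
    · exact mem_fimp.2 fun q' hq' hm => ⟨q', le_rfl,
        strat_congr (fun i b => ⟨(hq i b).2, (hq i b).1⟩) hq' hm⟩
  · -- the answers are legal
    intro n A
    refine mem_fimp.2 fun q _ hq => ⟨q, le_rfl, mem_fex.2 fun q' hq' => ?_⟩
    obtain ⟨t, ht, a, ha⟩ := exists_play (r := r) (s₀ := s₀) (nx := nx) hU (n + 1)
      (fun i => if hi : i < n + 1 then A ⟨i, hi⟩ else fun _ => ∅) (p := q') (fun i hi => by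
        rw [dif_pos hi]
        exact down_fClosure _ _ _ (hq ⟨i, hi⟩) _ hq')
    have ha' : ∀ i : Fin (n + 1), t ∈ Step r (A i) (U (state s₀ nx a i)) (a i) := by
      intro i
      have := ha i i.2
      rwa [dif_pos i.2] at this
    refine ⟨t, ht, a n, ⟨meets_of_mem ⟨a, rfl, ha'⟩, fun b => ?_⟩, (ha' (Fin.last n)).1⟩
    refine mem_fimp.2 fun s hs hm => ⟨s, le_rfl, ?_⟩
    obtain ⟨s', hs', u, ⟨a', hab, ha''⟩, hsu⟩ := hm s le_rfl
    have := unique_play (fun i => down_Step _ _ _ _ _ (ha'' i) _ hsu)
      (fun i => down_Step _ _ _ _ _ (ha' i) _ (hs'.trans hs)) n (Nat.lt_succ_self n)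
    show b = a n
    rw [← hab, this]
  · -- II wins
    intro A
    refine mem_fimp.2 fun q _ hq => ⟨q, le_rfl, fun W hW hxW => mem_fex.2 fun q' hq' => ?_⟩
    by_contra hcon
    push Not at hcon
    -- build an infinite play avoiding `W`
    let Z := {z : ℕ × P × (ℕ → X) // z.2.1 ≤ q' ∧
      ∀ i < z.1, z.2.1 ∈ Step r (A i) (U (state s₀ nx z.2.2 i)) (z.2.2 i)}
    have hstep : ∀ z : Z, ∃ z' : Z, z'.1.1 = z.1.1 + 1 ∧ z'.1.2.1 ≤ z.1.2.1 ∧
        ∀ i < z.1.1, z'.1.2.2 i = z.1.2.2 i := by
      rintro ⟨⟨n, t, a⟩, ht, ha⟩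
      obtain ⟨t', ht', b, hb, hb'⟩ := extend_play hU n A a
        (down_fClosure _ _ _ (hq n) _ (ht.trans hq')) ha
      exact ⟨⟨⟨n + 1, t', b⟩, ht'.trans ht, hb'⟩, rfl, ht', hb⟩
    choose f hf1 hf2 hf3 using hstep
    let z : ℕ → Z := fun n => Nat.rec ⟨⟨0, q', fun _ => x⟩, le_rfl,
      fun i hi => absurd hi (Nat.not_lt_zero i)⟩ (fun _ z => f z) n
    have hz : ∀ n, z (n + 1) = f (z n) := fun n => rfl
    have hz1 : ∀ n, (z n).1.1 = n := by
      intro n
      induction n with
      | zero => rfl
      | succ n ih => rw [hz, hf1, ih]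
    have hz3 : ∀ m n, n ≤ m → ∀ i < n, (z m).1.2.2 i = (z n).1.2.2 i := by
      intro m n hmn
      induction m, hmn using Nat.le_induction with
      | base => intro i _; rfl
      | succ m hm ih =>
        intro i hi
        rw [hz, hf3 (z m) i (by rw [hz1]; omega), ih i hi]
    let a : ℕ → X := fun n => (z (n + 1)).1.2.2 n
    have ha : ∀ n, ∀ i < n, (z n).1.2.2 i = a i := by
      intro n i hi
      exact hz3 n (i + 1) hi i (Nat.lt_succ_self i)
    have hplay : ∀ n, ∀ i < n, (z n).1.2.1 ∈ Step r (A i) (U (state s₀ nx a i)) (a i) := by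
      intro n i hi
      have h1 := (z n).2.2 i (by rw [hz1]; exact hi)
      rw [ha n i hi, state_congr s₀ nx (fun j hj => ha n j (hj.trans hi))] at h1
      exact h1
    have hcl := hwin a fun n => (hplay (n + 1) n (Nat.lt_succ_self n)).2.1
    obtain ⟨_, haW, n, rfl⟩ := mem_closure_iff.1 hcl W hW hxW
    refine hcon (z (n + 1)).1.2.1 (z (n + 1)).2.1 (a n) ⟨haW, meets_of_mem ?_⟩
    exact mem_iUnion.2 ⟨n, a, rfl, fun i => hplay (n + 1) i i.2⟩

end

end Pool.Agent.K7.H48.Fan
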