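import Pool.Agent.Helper669.Forcing

/-!
# Fresh subsets of ordinals, and tree Prikry forcing

Sentences of the forcing language are the sets of the conditions which force them, see
`Pool.Agent.Helper669.Forcing`. A name for a subset of a ground model set `L` is a map `A` from
`L` to the sets of conditions; `meets (A x)` is the sentence saying that `x` is in the set named
by `A`.
-/

set_option autoImplicit false

namespace Pool.Agent.K7.H48.Fresh

open Cardinal Pool.Agent.Helper669.Forcing

universe u v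

section

variable {P : Type u} [Preorder P]

/-- The subset of `L` named by `A` is the ground model set `B`. -/
def EqGround {L : Type v} (A : L → Set P) (B : Set L) : Set P :=
  fall fun x => fand (fimp (meets (A x)) (fground (x ∈ B))) (fimp (fground (x ∈ B)) (meets (A x)))

/-- The subset of `L` named by `A` and the ground model set `B` have the same elements below
`a`. -/
def EqBelow {L : Type v} [LinearOrder L] (A : L → Set P) (a : L) (B : Set L) : Set P :=
  fall fun x => fall fun _ : x < a =>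
    fand (fimp (meets (A x)) (fground (x ∈ B))) (fimp (fground (x ∈ B)) (meets (A x)))

/-- The subset of `L` named by `A` is fresh: it is not in the ground model, but for all `a` in `L`
the set of its elements below `a` is in the ground model. -/
def IsFresh {L : Type v} [LinearOrder L] (A : L → Set P) : Set P :=
  fand (fnot (fex fun B : Set L => EqGround A B)) (fall fun a => fex fun B : Set L => EqBelow A a B)

/-- No subset of the ordinal `o` is fresh. -/
def NoFresh (P : Type u) [Preorder P] (o : Ordinal.{v}) : Set P :=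
  fall fun A : o.ToType → Set P => fnot (IsFresh A)

end

/-! ### Tree Prikry forcing -/

/-- A finite sequence is increasing. -/
def Incr {K : Type u} [LinearOrder K] (s : List K) : Prop := s.Pairwise (· < ·)

/-- The conditions of the tree Prikry forcing for the ultrafilter `U`: a stem `s` and a tree `T` of
finite increasing sequences with the stem `s`, such that for all `t` in `T` which extend `s` the set
of all `a` such that `t` followed by `a` is in `T` belongs to `U`. -/
structure TreePrikry {K : Type u} [LinearOrder K] (U : Ultrafilter K) where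
  stem : List K
  tree : Set (List K)
  incr : ∀ t ∈ tree, Incr t
  closed : ∀ t ∈ tree, ∀ r, r <+: t → r ∈ tree
  stem_mem : stem ∈ tree
  comparable : ∀ t ∈ tree, t <+: stem ∨ stem <+: t
  large : ∀ t ∈ tree, stem <+: t → {a | t ++ [a] ∈ tree} ∈ U

variable {K : Type u} [LinearOrder K] {U : Ultrafilter K}

/-- `(t, S) ≤ (s, T)` iff `t` is an element of `T` extending `s`, and `S ⊆ T`. -/
instance : Preorder (TreePrikry U) where
  le q p := q.stem ∈ p.tree ∧ p.stem <+: q.stem ∧ q.tree ⊆ p.tree
  le_refl p := ⟨p.stem_mem, List.prefix_rfl, subset_rfl⟩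
  le_trans r q p hrq hqp :=
    ⟨hqp.2.2 hrq.1, hqp.2.1.trans hrq.2.1, hrq.2.2.trans hqp.2.2⟩

theorem le_def {q p : TreePrikry U} :
    q ≤ p ↔ q.stem ∈ p.tree ∧ p.stem <+: q.stem ∧ q.tree ⊆ p.tree := Iff.rfl

/-- Two conditions with the same stem are compatible. -/
theorem compat_of_stem {p q : TreePrikry U} (h : p.stem = q.stem) : ∃ r, r ≤ p ∧ r ≤ q := by
  refine ⟨⟨p.stem, p.tree ∩ q.tree, fun t ht => p.incr t ht.1, fun t ht r hr =>
    ⟨p.closed t ht.1 r hr, q.closed t ht.2 r hr⟩, ⟨p.stem_mem, h ▸ q.stem_mem⟩,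
    fun t ht => p.comparable t ht.1, fun t ht hst => ?_⟩, ?_, ?_⟩
  · exact Filter.inter_mem (p.large t ht.1 hst) (q.large t ht.2 (h ▸ hst))
  · exact ⟨p.stem_mem, List.prefix_rfl, Set.inter_subset_left⟩
  · refine ⟨?_, ?_, Set.inter_subset_right⟩
    · show p.stem ∈ q.tree
      rw [h]; exact q.stem_mem
    · show q.stem <+: p.stem
      rw [h]

/-! ### The general fact -/

theorem eqBelow_mem {P : Type u} [Preorder P] {L : Type v} [LinearOrder L] {A : L → Set P} {a : L}
    {B : Set L} {p : P} (h : p ∈ EqBelow A a B) {x : L} (hx : x < a) {q : P} (hq : q ≤ p) :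
    (q ∈ meets (A x) → x ∈ B) ∧ (x ∈ B → ∃ r ≤ q, r ∈ meets (A x)) := by
  have h' := h x hx
  refine ⟨fun hm => ?_, fun hB => ?_⟩
  · obtain ⟨r, _, hr'⟩ := mem_fimp.1 h'.1 q hq hm
    exact hr'
  · obtain ⟨r, hr, hr'⟩ := mem_fimp.1 h'.2 q hq hB
    exact ⟨r, hr, hr'⟩

/-- A forcing notion whose conditions are the union of fewer than `cof L` many sets of pairwise
compatible conditions adds no fresh subsets of `L`. -/
theorem noFresh_aux {P : Type u} [Preorder P] {L : Type u} [LinearOrder L] [WellFoundedLT L]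
    {C : Type u} (c : P → C) (hc : ∀ p q, c p = c q → ∃ r, r ≤ p ∧ r ≤ q)
    (hC : #C < Order.cof L) (A : L → Set P) (p : P) : p ∉ IsFresh A := by
  classical
  rintro ⟨hnot, hbelow⟩
  -- bounding families indexed by `C`
  have bdd : ∀ f : C → L, ∃ a, ∀ i, f i < a := by
    intro f
    by_contra hcon
    push Not at hcon
    have : IsCofinal (Set.range f) := by
      intro a
      obtain ⟨i, hi⟩ := hcon a
      exact ⟨f i, ⟨i, rfl⟩, hi⟩
    exact absurd (Order.cof_le this) (not_le.2 (Cardinal.mk_range_le.trans_lt hC))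
  -- decide the initial segments
  have h1 : ∀ a : L, ∃ q ≤ p, ∃ B : Set L, q ∈ EqBelow A a B := fun a =>
    mem_fex.1 (hbelow a) p le_rfl
  choose q hqp B hq using h1
  -- a class used unboundedly often
  have h2 : ∃ i : C, ∀ a : L, ∃ b, a < b ∧ c (q b) = i := by
    by_contra hcon
    push Not at hcon
    choose f hf using hcon
    obtain ⟨b, hb⟩ := bdd f
    exact hf (c (q b)) b (hb _) rfl
  obtain ⟨i, hi⟩ := h2
  -- coherence
  have hcoh : ∀ a b x, c (q a) = i → c (q b) = i → x < a → x < b → (x ∈ B a ↔ x ∈ B b) := by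
    have key : ∀ a b x, c (q a) = i → c (q b) = i → x < a → x < b → x ∈ B a → x ∈ B b := by
      intro a b x ha hb hxa hxb hx
      obtain ⟨r, hra, hrb⟩ := hc (q a) (q b) (ha.trans hb.symm)
      obtain ⟨s, hs, hsm⟩ := (eqBelow_mem (hq a) hxa hra).2 hx
      exact (eqBelow_mem (hq b) hxb (hs.trans hrb)).1 hsm
    exact fun a b x ha hb hxa hxb => ⟨key a b x ha hb hxa hxb, key b a x hb ha hxb hxa⟩
  let D : Set L := {x | ∃ b, x < b ∧ c (q b) = i ∧ x ∈ B b}
  have hD : ∀ a x, c (q a) = i → x < a → (x ∈ B a ↔ x ∈ D) := by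
    intro a x ha hxa
    constructor
    · intro hx
      exact ⟨a, hxa, ha, hx⟩
    · rintro ⟨b, hxb, hb, hx⟩
      exact (hcoh a b x ha hb hxa hxb).2 hx
  -- every condition below `p` has an extension deciding some `x` differently from `D`
  have h3 : ∀ r ≤ p, ∃ s ≤ r, ∃ x, (s ∈ meets (A x) ∧ x ∉ D) ∨ (s ∈ fnot (meets (A x)) ∧ x ∈ D) := by
    intro r hr
    by_contra hcon
    push Not at hcon
    refine hnot r hr (mem_fex.2 fun r' hr' => ⟨r', le_rfl, D, fun x => ⟨?_, ?_⟩⟩)
    · refine mem_fimp.2 fun s hs hsm => ⟨s, le_rfl, ?_⟩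
      by_contra hx
      exact hx ((hcon s (hs.trans hr') x).1 hsm)
    · refine mem_fimp.2 fun s hs hx => ?_
      by_contra hno
      push Not at hno
      exact (hcon s (hs.trans hr') x).2 hno hx
  -- choose representatives for the classes
  let W : C → Prop := fun j => ∃ s ≤ p, c s = j ∧ ∃ x,
    (s ∈ meets (A x) ∧ x ∉ D) ∨ (s ∈ fnot (meets (A x)) ∧ x ∈ D)
  have hL : Nonempty L := by
    by_contra hne
    rw [not_nonempty_iff] at hne
    have : Order.cof L = 0 := Order.cof_eq_zero
    rw [this] at hC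
    exact absurd hC (not_lt.2 (zero_le))
  have h4 : ∀ j : C, ∃ x : L, W j → ∃ s ≤ p, c s = j ∧
      ((s ∈ meets (A x) ∧ x ∉ D) ∨ (s ∈ fnot (meets (A x)) ∧ x ∈ D)) := by
    intro j
    by_cases hj : W j
    · obtain ⟨s, hs, hcs, x, hx⟩ := hj
      exact ⟨x, fun _ => ⟨s, hs, hcs, hx⟩⟩
    · exact ⟨hL.some, fun h => absurd h hj⟩
  choose ξ hξ using h4
  obtain ⟨a, ha⟩ := bdd ξ
  obtain ⟨b, hab, hb⟩ := hi a
  obtain ⟨s, hs, x, hx⟩ := h3 (q b) (hqp b)
  obtain ⟨s', _, hcs', hx'⟩ := hξ (c s) ⟨s, hs.trans (hqp b), rfl, x, hx⟩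
  obtain ⟨r, hrs, hrs'⟩ := hc s s' hcs'.symm
  have hlt : ξ (c s) < b := (ha _).trans hab
  have hrb : r ≤ q b := hrs.trans hs
  rcases hx' with ⟨hm, hnD⟩ | ⟨hm, hDx⟩
  · exact hnD ((hD b _ hb hlt).1 ((eqBelow_mem (hq b) hlt hrb).1 (down_meets _ _ hm _ hrs')))
  · obtain ⟨t, ht, htm⟩ := (eqBelow_mem (hq b) hlt hrb).2 ((hD b _ hb hlt).2 hDx)
    exact hm t (ht.trans hrs') htm

end Pool.Agent.K7.H48.Fresh
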