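import Pool.Agent.K7.H72.IP.Stm2

set_option autoImplicit false

namespace Pool.Agent.K7.H48.IP

open Pool.Agent.K7.H72.IP

lemma pow_le_ch (a d : ℕ) :
    (d:ℝ)^a ≤ 2^a * ((a.factorial:ℝ) * (d.choose a : ℝ) + (a:ℝ)^a) := by
  set x : ℝ := ((d + 1 - a : ℕ) : ℝ) with hx
  have hx0 : 0 ≤ x := Nat.cast_nonneg _
  have h1 : x^a ≤ (a.factorial:ℝ) * (d.choose a : ℝ) := by
    have h := Nat.pow_le_choose (α := ℝ) a d
    have hf : (0:ℝ) < (a.factorial:ℝ) := by exact_mod_cast Nat.factorial_pos a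
    rw [div_le_iff₀ hf] at h
    have h' : x^a ≤ (d.choose a : ℝ) * (a.factorial:ℝ) := by
      rw [hx]; exact_mod_cast h
    linarith
  have h2 : (d:ℝ) ≤ x + a := by
    rw [hx]
    have : d ≤ (d + 1 - a) + a := by omega
    exact_mod_cast this
  have ha0 : (0:ℝ) ≤ a := Nat.cast_nonneg _
  have h3 : (d:ℝ)^a ≤ (x + a)^a := pow_le_pow_left₀ (Nat.cast_nonneg _) h2 a
  have h4 : (x + a)^a ≤ 2^a * (x^a + (a:ℝ)^a) := by
    rcases le_total x (a:ℝ) with h | h
    · calc (x + a)^a ≤ (2 * (a:ℝ))^a := pow_le_pow_left₀ (by positivity) (by linarith) a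
        _ = 2^a * (a:ℝ)^a := by rw [mul_pow]
        _ ≤ 2^a * (x^a + (a:ℝ)^a) := by
            apply mul_le_mul_of_nonneg_left _ (by positivity)
            have := pow_nonneg hx0 a
            linarith
    · calc (x + a)^a ≤ (2 * x)^a := pow_le_pow_left₀ (by positivity) (by linarith) a
        _ = 2^a * x^a := by rw [mul_pow]
        _ ≤ 2^a * (x^a + (a:ℝ)^a) := by
            apply mul_le_mul_of_nonneg_left _ (by positivity)
            have := pow_nonneg ha0 a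
            linarith
  calc (d:ℝ)^a ≤ (x + a)^a := h3
    _ ≤ 2^a * (x^a + (a:ℝ)^a) := h4
    _ ≤ _ := by
      apply mul_le_mul_of_nonneg_left _ (by positivity)
      linarith

theorem ka3 : StKA3 := by
  intro a K ha
  set C' : ℝ := 2^a * ((a.factorial:ℝ) * K + (a:ℝ)^a) with hC'
  have hC0 : 0 ≤ C' := by positivity
  refine ⟨C' ^ (1 / (a:ℝ)), ?_⟩
  intro n d h
  have haR : (1:ℝ) ≤ a := by exact_mod_cast ha
  rcases Nat.eq_zero_or_pos n with hn | hn
  · subst hn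
    simp only [Finset.univ_eq_empty, Finset.sum_empty]
    positivity
  have hnR : (1:ℝ) ≤ n := by exact_mod_cast hn
  have hsum : ∑ v, (d v:ℝ)^a ≤ C' * (n:ℝ)^a := by
    calc ∑ v, (d v:ℝ)^a ≤ ∑ v, 2^a * ((a.factorial:ℝ) * ((d v).choose a : ℝ) + (a:ℝ)^a) :=
          Finset.sum_le_sum (fun v _ => pow_le_ch a (d v))
      _ = 2^a * ((a.factorial:ℝ) * (∑ v, ((d v).choose a : ℝ)) + n * (a:ℝ)^a) := by
          rw [← Finset.mul_sum, Finset.sum_add_distrib, ← Finset.mul_sum]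
          simp
      _ ≤ 2^a * ((a.factorial:ℝ) * (K * (n:ℝ)^a) + (n:ℝ)^a * (a:ℝ)^a) := by
          apply mul_le_mul_of_nonneg_left _ (by positivity)
          have h1 : (∑ v, ((d v).choose a : ℝ)) ≤ K * (n:ℝ)^a := by exact_mod_cast h
          have h2 : (n:ℝ) ≤ (n:ℝ)^a := by
            calc (n:ℝ) = (n:ℝ)^1 := (pow_one _).symm
              _ ≤ (n:ℝ)^a := pow_le_pow_right₀ hnR ha
          have h3 : (0:ℝ) ≤ (a:ℝ)^a := by positivity
          have h4 : (0:ℝ) ≤ (a.factorial:ℝ) := by positivity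
          nlinarith [mul_le_mul_of_nonneg_left h1 h4, mul_le_mul_of_nonneg_right h2 h3]
      _ = C' * (n:ℝ)^a := by rw [hC']; ring
  set S : ℝ := ∑ v, (d v : ℝ) with hS
  have hS0 : 0 ≤ S := Finset.sum_nonneg (fun v _ => Nat.cast_nonneg _)
  have hpow : S^a ≤ C' * (n:ℝ)^(2*a-1) := by
    obtain ⟨b, rfl⟩ := Nat.exists_eq_succ_of_ne_zero (by omega : a ≠ 0)
    have hm := pow_sum_div_card_le_sum_pow (s := (Finset.univ : Finset (Fin n)))
      (f := fun v => (d v:ℝ)) (fun v _ => Nat.cast_nonneg _) b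
    rw [Finset.card_univ, Fintype.card_fin, div_le_iff₀ (by positivity)] at hm
    have e : 2 * (b+1) - 1 = (b+1) + b := by omega
    calc S^(b+1) ≤ (∑ v, (d v:ℝ)^(b+1)) * (n:ℝ)^b := hm
      _ ≤ (C' * (n:ℝ)^(b+1)) * (n:ℝ)^b := mul_le_mul_of_nonneg_right hsum (by positivity)
      _ = C' * (n:ℝ)^(2*(b+1)-1) := by rw [e, pow_add]; ring
  have ha0 : a ≠ 0 := by omega
  calc S = (S^a)^((a:ℝ)⁻¹) := (Real.pow_rpow_inv_natCast hS0 ha0).symm
    _ ≤ (C' * (n:ℝ)^(2*a-1))^((a:ℝ)⁻¹) :=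
        Real.rpow_le_rpow (by positivity) hpow (by positivity)
    _ = C'^((a:ℝ)⁻¹) * ((n:ℝ)^(2*a-1))^((a:ℝ)⁻¹) := Real.mul_rpow hC0 (by positivity)
    _ = C' ^ (1 / (a:ℝ)) * (n : ℝ) ^ (2 - 1 / (a : ℝ)) := by
        rw [one_div]
        congr 1
        rw [← Real.rpow_natCast, ← Real.rpow_mul (by positivity)]
        congr 1
        have e : ((2*a-1 : ℕ):ℝ) = 2 * (a:ℝ) - 1 := by
          rw [Nat.cast_sub (by omega)]
          push_cast; ring
        rw [e]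
        field_simp

end Pool.Agent.K7.H48.IP
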