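import Mathlib

/-!
# Countably generated ideals with closed generators

`J 𝕂` is the ideal generated by the closed hereditary families of sets which are given by the
members of `𝕂`, which are families of finite sets. If `𝕂` is countable then `J 𝕂` is an `F_σ` ideal.
-/

set_option autoImplicit false

namespace Pool.Agent.K7.H48.IC

open Set

/-- Unions of members of the families in the list, one for each family. -/
def Sum : List (Set (Finset ℕ)) → Set (Finset ℕ)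
  | [] => {F | F = ∅}
  | K :: l => {F | ∃ F₁ ∈ K, ∃ F₂ ∈ Sum l, F = F₁ ∪ F₂}

/-- The ideal generated by `𝕂`. -/
def J (𝕂 : Set (Set (Finset ℕ))) : Set (Set ℕ) :=
  {B | ∃ l : List (Set (Finset ℕ)), (∀ K ∈ l, K ∈ 𝕂) ∧ ∀ F : Finset ℕ, (F : Set ℕ) ⊆ B → F ∈ Sum l}

/-- A family closed under subsets. -/
def Hered (K : Set (Finset ℕ)) : Prop := ∀ F ∈ K, ∀ F', F' ⊆ F → F' ∈ K

theorem hered_sum {l : List (Set (Finset ℕ))} (h : ∀ K ∈ l, Hered K) : Hered (Sum l) := by
  induction l with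
  | nil =>
    intro F hF F' hF'
    have : F = ∅ := hF
    subst this
    exact Finset.subset_empty.1 hF'
  | cons K l ih =>
    rintro F ⟨F₁, h1, F₂, h2, rfl⟩ F' hF'
    refine ⟨F' ∩ F₁, h K (List.mem_cons_self) _ h1 _ Finset.inter_subset_right, F' ∩ F₂,
      ih (fun K' hK' => h K' (List.mem_cons_of_mem _ hK')) _ h2 _ Finset.inter_subset_right, ?_⟩
    rw [← Finset.inter_union_distrib_left]
    exact (Finset.inter_eq_left.2 hF').symm

theorem sum_append {l l' : List (Set (Finset ℕ))} {F F' : Finset ℕ} (h : F ∈ Sum l)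
    (h' : F' ∈ Sum l') : F ∪ F' ∈ Sum (l ++ l') := by
  induction l generalizing F with
  | nil =>
    have : F = ∅ := h
    subst this
    simpa using h'
  | cons K l ih =>
    obtain ⟨F₁, h1, F₂, h2, rfl⟩ := h
    exact ⟨F₁, h1, F₂ ∪ F', ih h2, by rw [Finset.union_assoc]⟩

/-- The sets of at most the element `k`. -/
def pt (k : ℕ) : Set (Finset ℕ) := {F | F ⊆ {k}}

/-- The finite sets which are disjoint from `E`. -/
def cf (E : Set ℕ) : Set (Finset ℕ) := {F | ∀ k ∈ F, k ∉ E}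

/-- The families generating the finite sets. -/
def base : Set (Set (Finset ℕ)) := range pt

/-- The conditions on `𝕂`. -/
structure Good (𝕂 : Set (Set (Finset ℕ))) : Prop where
  count : 𝕂.Countable
  hered : ∀ K ∈ 𝕂, Hered K
  base : base ⊆ 𝕂

theorem hered_pt (k : ℕ) : Hered (pt k) := fun _ hF _ hF' => hF'.trans hF

theorem hered_cf (E : Set ℕ) : Hered (cf E) := fun _ hF _ hF' k hk => hF k (hF' hk)

theorem good_base : Good base := by
  refine ⟨countable_range _, ?_, subset_rfl⟩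
  rintro _ ⟨k, rfl⟩
  exact hered_pt k

theorem J_mono {𝕂 : Set (Set (Finset ℕ))} {B B' : Set ℕ} (h : B' ∈ J 𝕂) (hB : B ⊆ B') :
    B ∈ J 𝕂 := by
  obtain ⟨l, hl, hF⟩ := h
  exact ⟨l, hl, fun F hFB => hF F (hFB.trans hB)⟩

theorem J_subset {𝕂 𝕂' : Set (Set (Finset ℕ))} (h : 𝕂 ⊆ 𝕂') : J 𝕂 ⊆ J 𝕂' := by
  rintro B ⟨l, hl, hF⟩
  exact ⟨l, fun K hK => h (hl K hK), hF⟩

theorem J_union {𝕂 : Set (Set (Finset ℕ))} {B B' : Set ℕ} (h : B ∈ J 𝕂)
    (h' : B' ∈ J 𝕂) : B ∪ B' ∈ J 𝕂 := by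
  classical
  obtain ⟨l, hl, hF⟩ := h
  obtain ⟨l', hl', hF'⟩ := h'
  refine ⟨l ++ l', fun K hK => ?_, fun F hFB => ?_⟩
  · rcases List.mem_append.1 hK with h | h
    · exact hl K h
    · exact hl' K h
  · have h1 : F = F.filter (fun k => k ∈ B) ∪ F.filter (fun k => k ∉ B) := by
      rw [Finset.filter_union_filter_not_eq]
    rw [h1]
    refine sum_append (hF _ fun k hk => ?_) (hF' _ fun k hk => ?_)
    · exact (Finset.mem_filter.1 (Finset.mem_coe.1 hk)).2
    · have h2 := Finset.mem_filter.1 (Finset.mem_coe.1 hk)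
      exact (hFB h2.1).resolve_left h2.2

theorem J_of_diff {𝕂 : Set (Set (Finset ℕ))} {B B' : Set ℕ} (h : B \ B' ∈ J 𝕂)
    (h' : B' ∈ J 𝕂) : B ∈ J 𝕂 :=
  J_mono (J_union h h') (by rw [sdiff_union_self]; exact subset_union_left)

theorem J_empty {𝕂 : Set (Set (Finset ℕ))} : (∅ : Set ℕ) ∈ J 𝕂 :=
  ⟨[], by simp, fun F hF => by
    have : (F : Set ℕ) = ∅ := subset_empty_iff.1 hF
    exact Finset.coe_eq_empty.1 this⟩

theorem J_single {𝕂 : Set (Set (Finset ℕ))} (h : base ⊆ 𝕂) (k : ℕ) : ({k} : Set ℕ) ∈ J 𝕂 := by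
  refine ⟨[pt k], fun K hK => ?_, fun F hF => ⟨F, ?_, ∅, rfl, by simp⟩⟩
  · rw [List.mem_singleton.1 hK]
    exact h ⟨k, rfl⟩
  · intro x hx
    have := hF (Finset.mem_coe.2 hx)
    exact Finset.mem_singleton.2 this

theorem J_finite {𝕂 : Set (Set (Finset ℕ))} (h : base ⊆ 𝕂) {B : Set ℕ} (hB : B.Finite) :
    B ∈ J 𝕂 := by
  induction B, hB using Set.Finite.induction_on with
  | empty => exact J_empty
  | insert _ _ ih => exact J_union (J_single h _) ih

theorem J_compl {𝕂 : Set (Set (Finset ℕ))} {E : Set ℕ} (h : cf E ∈ 𝕂) : Eᶜ ∈ J 𝕂 := by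
  refine ⟨[cf E], fun K hK => ?_, fun F hF => ⟨F, ?_, ∅, rfl, by simp⟩⟩
  · rw [List.mem_singleton.1 hK]
    exact h
  · intro x hx
    exact hF (Finset.mem_coe.2 hx)

theorem univ_not_base : (univ : Set ℕ) ∉ J base := by
  classical
  rintro ⟨l, hl, hF⟩
  have h1 : ∀ l : List (Set (Finset ℕ)), (∀ K ∈ l, K ∈ base) → ∀ F ∈ Sum l, F.card ≤ l.length := by
    intro l
    induction l with
    | nil =>
      intro _ F hF
      have : F = ∅ := hF
      simp [this]
    | cons K l ih =>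
      rintro hl F ⟨F₁, h1, F₂, h2, rfl⟩
      obtain ⟨k, rfl⟩ := hl K List.mem_cons_self
      have h3 := ih (fun K' hK' => hl K' (List.mem_cons_of_mem _ hK')) F₂ h2
      have h4 : F₁.card ≤ 1 := by
        have := Finset.card_le_card (show F₁ ⊆ {k} from h1)
        simpa using this
      have h5 := Finset.card_union_le F₁ F₂
      rw [List.length_cons]
      omega
  have h2 := h1 l hl (Finset.range (l.length + 1)) (hF _ (subset_univ _))
  simp at h2

/-- An enumeration of the lists of members of `𝕂`. -/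
theorem exists_lists {𝕂 : Set (Set (Finset ℕ))} (h : 𝕂.Countable) :
    ∃ L : ℕ → List (Set (Finset ℕ)), (∀ i, ∀ K ∈ L i, K ∈ 𝕂) ∧
      ∀ l : List (Set (Finset ℕ)), (∀ K ∈ l, K ∈ 𝕂) → ∃ i, L i = l := by
  have h1 : Countable 𝕂 := h.to_subtype
  obtain ⟨f, hf⟩ := exists_surjective_nat (List 𝕂)
  refine ⟨fun i => (f i).map Subtype.val, fun i K hK => ?_, fun l hl => ?_⟩
  · obtain ⟨K', _, rfl⟩ := List.mem_map.1 hK
    exact K'.2
  · lift l to List 𝕂 using hl with l'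
    obtain ⟨i, hi⟩ := hf l'
    exact ⟨i, by rw [← hi]⟩

theorem not_J_iff {𝕂 : Set (Set (Finset ℕ))} {L : ℕ → List (Set (Finset ℕ))}
    (hL' : ∀ l : List (Set (Finset ℕ)), (∀ K ∈ l, K ∈ 𝕂) → ∃ i, L i = l) {B : Set ℕ}
    (h : ∀ i, ∃ F : Finset ℕ, (F : Set ℕ) ⊆ B ∧ F ∉ Sum (L i)) : B ∉ J 𝕂 := by
  rintro ⟨l, hl, hF⟩
  obtain ⟨i, rfl⟩ := hL' l hl
  obtain ⟨F, hF1, hF2⟩ := h i
  exact hF2 (hF F hF1)

theorem exists_not_sum {𝕂 : Set (Set (Finset ℕ))} {l : List (Set (Finset ℕ))}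
    (hl : ∀ K ∈ l, K ∈ 𝕂) {B : Set ℕ} (hB : B ∉ J 𝕂) :
    ∃ F : Finset ℕ, (F : Set ℕ) ⊆ B ∧ F ∉ Sum l := by
  by_contra hcon
  push Not at hcon
  exact hB ⟨l, hl, hcon⟩

/-- Disjoint blocks. -/
theorem exists_blocks {𝕂 : Set (Set (Finset ℕ))} (hg : Good 𝕂) (C : ℕ → Set ℕ)
    (hC : ∀ k, C k ∉ J 𝕂) (L : ℕ → List (Set (Finset ℕ))) (hL : ∀ i, ∀ K ∈ L i, K ∈ 𝕂) :
    ∃ F : ℕ → Finset ℕ, (∀ k, (F k : Set ℕ) ⊆ C k ∧ F k ∉ Sum (L k)) ∧
      ∀ i j, i ≠ j → Disjoint (F i) (F j) := by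
  classical
  have h1 : ∀ (U : Finset ℕ) (k : ℕ), ∃ F : Finset ℕ, (F : Set ℕ) ⊆ C k \ U ∧ F ∉ Sum (L k) := by
    intro U k
    refine exists_not_sum (hL k) fun h => hC k (J_of_diff h ?_)
    exact J_finite hg.base U.finite_toSet
  choose nx hnx1 hnx2 using h1
  let acc : ℕ → Finset ℕ := fun k => Nat.rec ∅ (fun k U => U ∪ nx U k) k
  have hacc : ∀ k, acc (k + 1) = acc k ∪ nx (acc k) k := fun k => rfl
  have hmono : ∀ i j, i ≤ j → acc i ⊆ acc j := by
    intro i j h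
    induction j, h using Nat.le_induction with
    | base => exact subset_rfl
    | succ j _ ih =>
      rw [hacc]
      exact ih.trans Finset.subset_union_left
  refine ⟨fun k => nx (acc k) k, fun k => ⟨(hnx1 _ _).trans sdiff_subset, hnx2 _ _⟩, ?_⟩
  have h2 : ∀ i j, i < j → Disjoint (nx (acc i) i) (nx (acc j) j) := by
    intro i j h
    have h3 : nx (acc i) i ⊆ acc j := by
      refine subset_trans ?_ (hmono (i + 1) j h)
      rw [hacc]
      exact Finset.subset_union_right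
    rw [Finset.disjoint_left]
    intro x hx hx'
    exact (hnx1 (acc j) j (Finset.mem_coe.2 hx')).2 (Finset.mem_coe.2 (h3 hx))
  intro i j hij
  rcases lt_or_gt_of_ne hij with h | h
  · exact h2 i j h
  · exact (h2 j i h).symm

/-- Pseudo-intersections. -/
theorem exists_pseudo {𝕂 : Set (Set (Finset ℕ))} (hg : Good 𝕂) (C : ℕ → Set ℕ)
    (hanti : ∀ i, C (i + 1) ⊆ C i) (hC : ∀ k, C k ∉ J 𝕂) :
    ∃ B ∉ J 𝕂, ∀ i, (B \ C i).Finite := by
  obtain ⟨L, hL, hL'⟩ := exists_lists hg.count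
  obtain ⟨F, hF, -⟩ := exists_blocks hg C hC L hL
  have hmono : ∀ i j, i ≤ j → C j ⊆ C i := by
    intro i j h
    induction j, h using Nat.le_induction with
    | base => exact subset_rfl
    | succ j _ ih => exact (hanti j).trans ih
  refine ⟨⋃ k, (F k : Set ℕ), not_J_iff hL' fun i =>
    ⟨F i, subset_iUnion (fun k => (F k : Set ℕ)) i, (hF i).2⟩, fun i => ?_⟩
  refine (Set.Finite.biUnion (Set.finite_lt_nat i) fun k _ => (F k).finite_toSet).subset ?_
  rintro x ⟨hx, hx'⟩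
  obtain ⟨k, hk⟩ := mem_iUnion.1 hx
  refine mem_iUnion₂.2 ⟨k, ?_, hk⟩
  by_contra hki
  exact hx' (hmono i k (not_lt.1 hki) ((hF k).1 hk))

/-- Every positive set has a positive subset which is thin for countably many positive sets. -/
theorem exists_thin {𝕂 : Set (Set (Finset ℕ))} (hg : Good 𝕂) {A : Set ℕ} (hA : A ∉ J 𝕂)
    {𝒜 : Set (Set ℕ)} (h𝒜 : 𝒜.Countable) (h : ∀ C ∈ 𝒜, C ∉ J 𝕂) :
    ∃ A' ⊆ A, A' ∉ J 𝕂 ∧ ∀ C ∈ 𝒜, C \ A' ∉ J 𝕂 := by
  classical
  obtain ⟨L, hL, hL'⟩ := exists_lists hg.count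
  obtain ⟨f, hf⟩ : ∃ f : ℕ → Set ℕ, (∀ i, f i ∉ J 𝕂) ∧ ∀ C ∈ 𝒜, ∃ i, f i = C := by
    have h1 : (insert A 𝒜).Countable := h𝒜.insert A
    obtain ⟨f, hf⟩ := h1.exists_eq_range ⟨A, mem_insert _ _⟩
    refine ⟨f, fun i => ?_, fun C hC => ?_⟩
    · have : f i ∈ insert A 𝒜 := hf ▸ mem_range_self i
      rcases this with h2 | h2
      · rw [h2]; exact hA
      · exact h _ h2
    · have : C ∈ range f := hf ▸ mem_insert_of_mem _ hC
      exact this
  -- even blocks for `A`, odd blocks for the members of `𝒜`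
  obtain ⟨F, hF, hdis⟩ := exists_blocks hg
    (fun k => if Even k then A else f (Nat.unpair (k / 2)).1)
    (fun k => by
      split_ifs
      · exact hA
      · exact hf.1 _)
    (fun k => if Even k then L (k / 2) else L (Nat.unpair (k / 2)).2)
    (fun k => by
      split_ifs
      · exact hL _
      · exact hL _)
  have hev : ∀ m, (F (2 * m) : Set ℕ) ⊆ A ∧ F (2 * m) ∉ Sum (L m) := by
    intro m
    have := hF (2 * m)
    rw [if_pos (even_two_mul m), if_pos (even_two_mul m), Nat.mul_div_cancel_left m two_pos] at this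
    exact this
  have hod : ∀ m, (F (2 * m + 1) : Set ℕ) ⊆ f (Nat.unpair m).1 ∧
      F (2 * m + 1) ∉ Sum (L (Nat.unpair m).2) := by
    intro m
    have := hF (2 * m + 1)
    rw [if_neg (by simp), if_neg (by simp), show (2 * m + 1) / 2 = m by omega] at this
    exact this
  refine ⟨⋃ m, (F (2 * m) : Set ℕ), iUnion_subset fun m => (hev m).1, not_J_iff hL' fun i =>
    ⟨F (2 * i), subset_iUnion (fun m => (F (2 * m) : Set ℕ)) i, (hev i).2⟩, fun C hC => ?_⟩
  obtain ⟨j, rfl⟩ := hf.2 C hC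
  refine not_J_iff hL' fun i => ⟨F (2 * Nat.pair j i + 1), fun x hx => ⟨?_, ?_⟩, ?_⟩
  · have := (hod (Nat.pair j i)).1 hx
    rwa [Nat.unpair_pair] at this
  · intro hx'
    obtain ⟨m, hm⟩ := mem_iUnion.1 hx'
    exact (Finset.disjoint_left.1 (hdis (2 * m) (2 * Nat.pair j i + 1) (by omega)))
      (Finset.mem_coe.1 hm) (Finset.mem_coe.1 hx)
  · have := (hod (Nat.pair j i)).2
    rwa [Nat.unpair_pair] at this

/-- The first `n` values of `x`. -/
def ini (x : ℕ → Bool) : ℕ → List Bool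
  | 0 => []
  | n + 1 => x n :: ini x n

theorem ini_length (x : ℕ → Bool) (n : ℕ) : (ini x n).length = n := by
  induction n with
  | zero => rfl
  | succ n ih => rw [ini, List.length_cons, ih]

theorem ini_inj {x y : ℕ → Bool} {n : ℕ} (h : ini x n = ini y n) : ∀ i < n, x i = y i := by
  induction n with
  | zero => exact fun i hi => absurd hi (Nat.not_lt_zero i)
  | succ n ih =>
    rw [ini, ini, List.cons.injEq] at h
    intro i hi
    rcases Nat.lt_succ_iff_lt_or_eq.1 hi with h' | rfl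
    · exact ih h.2 i h'
    · exact h.1

/-- Almost disjoint families of positive sets. -/
theorem exists_ad {𝕂 : Set (Set (Finset ℕ))} (hg : Good 𝕂) {𝒜 : Set (Set ℕ)}
    (h𝒜 : 𝒜.Countable) (h : ∀ C ∈ 𝒜, C ∉ J 𝕂) (hne : 𝒜.Nonempty) :
    ∃ A : (ℕ → Bool) → Set ℕ, (∀ x y, x ≠ y → (A x ∩ A y).Finite) ∧
      (∀ x, ∀ C ∈ 𝒜, C ∩ A x ∉ J 𝕂) ∧ ∀ x, ∀ E, cf E ∈ 𝕂 → (A x \ E).Finite := by
  classical
  obtain ⟨L, hL, hL'⟩ := exists_lists hg.count
  obtain ⟨f, hf⟩ := h𝒜.exists_eq_range hne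
  have hfJ : ∀ i, f i ∉ J 𝕂 := fun i => h _ (hf ▸ mem_range_self i)
  -- an enumeration of the sets `E`
  obtain ⟨e, he1, he2⟩ : ∃ e : ℕ → Set ℕ, (∀ i, (e i)ᶜ ∈ J 𝕂) ∧ ∀ E, cf E ∈ 𝕂 → ∃ i, e i = E := by
    have h1 : {E | cf E ∈ 𝕂}.Countable := by
      have hinj : Function.Injective cf := by
        intro E E' hEE'
        ext k
        have h2 : ({k} : Finset ℕ) ∈ cf E ↔ ({k} : Finset ℕ) ∈ cf E' := by rw [hEE']
        simp only [cf, mem_ofPred_eq, Finset.mem_singleton, forall_eq] at h2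
        exact not_iff_not.1 h2
      exact hg.count.preimage_of_injOn (f := cf) hinj.injOn
    obtain ⟨e, he⟩ := (h1.insert univ).exists_eq_range ⟨univ, mem_insert _ _⟩
    refine ⟨e, fun i => ?_, fun E hE => ?_⟩
    · have : e i ∈ insert univ {E | cf E ∈ 𝕂} := he ▸ mem_range_self i
      rcases this with h2 | h2
      · rw [h2, compl_univ]; exact J_empty
      · exact J_compl h2
    · have : E ∈ range e := he ▸ mem_insert_of_mem _ hE
      exact this
  have hE : ∀ n, (⋂ i ∈ {i | i ≤ n}, e i)ᶜ ∈ J 𝕂 := by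
    intro n
    induction n with
    | zero =>
      refine J_mono (he1 0) fun x hx => ?_
      intro hx'
      refine hx (mem_iInter₂.2 fun i hi => ?_)
      have : i = 0 := Nat.le_zero.1 hi
      rw [this]; exact hx'
    | succ n ih =>
      refine J_mono (J_union ih (he1 (n + 1))) fun x hx => ?_
      by_contra hcon
      rw [mem_union, not_or, mem_compl_iff, not_not, mem_compl_iff, not_not] at hcon
      refine hx (mem_iInter₂.2 fun i hi => ?_)
      rcases Nat.le_succ_iff.1 hi with h2 | h2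
      · exact mem_iInter₂.1 hcon.1 i h2
      · rw [h2]; exact hcon.2
  -- the blocks
  obtain ⟨en⟩ : Nonempty (ℕ ≃ List Bool) := nonempty_equiv_of_countable
  let Cs : ℕ → Set ℕ := fun k => f (Nat.unpair (en k).length).1 ∩ ⋂ i ∈ {i | i ≤ (en k).length}, e i
  have hCs : ∀ k, Cs k ∉ J 𝕂 := by
    intro k hk
    refine hfJ (Nat.unpair (en k).length).1 (J_of_diff (B' := Cs k) ?_ hk)
    refine J_mono (hE (en k).length) fun x hx hx' => hx.2 ⟨hx.1, hx'⟩
  obtain ⟨F, hF, hdis⟩ := exists_blocks hg Cs hCs (fun k => L (Nat.unpair (en k).length).2)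
    (fun k => hL _)
  let A : (ℕ → Bool) → Set ℕ := fun x => ⋃ n, (F (en.symm (ini x n)) : Set ℕ)
  refine ⟨A, fun x y hxy => ?_, fun x C hC => ?_, fun x E hEE => ?_⟩
  · obtain ⟨n, hn⟩ : ∃ n, x n ≠ y n := by
      by_contra hcon
      push Not at hcon
      exact hxy (funext hcon)
    refine (Set.Finite.biUnion (Set.finite_le_nat n) fun k _ =>
      (F (en.symm (ini x k))).finite_toSet).subset ?_
    rintro z ⟨hz, hz'⟩
    obtain ⟨k, hk⟩ := mem_iUnion.1 hz
    obtain ⟨k', hk'⟩ := mem_iUnion.1 hz'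
    refine mem_iUnion₂.2 ⟨k, ?_, hk⟩
    by_contra hkn
    have h1 : en.symm (ini x k) = en.symm (ini y k') := by
      by_contra h2
      exact Finset.disjoint_left.1 (hdis _ _ h2) (Finset.mem_coe.1 hk) (Finset.mem_coe.1 hk')
    have h2 : ini x k = ini y k' := en.symm.injective h1
    have h3 : k = k' := by
      have := congrArg List.length h2
      rwa [ini_length, ini_length] at this
    subst h3
    exact hn (ini_inj h2 n (not_le.1 hkn))
  · have hC' : C ∈ range f := hf ▸ hC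
    obtain ⟨j, rfl⟩ := hC'
    refine not_J_iff hL' fun i => ?_
    have h1 := hF (en.symm (ini x (Nat.pair j i)))
    have h2 : (en (en.symm (ini x (Nat.pair j i)))).length = Nat.pair j i := by
      rw [Equiv.apply_symm_apply, ini_length]
    refine ⟨F (en.symm (ini x (Nat.pair j i))), fun z hz => ⟨?_, ?_⟩, ?_⟩
    · have h3 := (h1.1 hz).1
      rw [h2, Nat.unpair_pair] at h3
      exact h3
    · exact mem_iUnion.2 ⟨Nat.pair j i, hz⟩
    · have h3 := h1.2
      rw [h2, Nat.unpair_pair] at h3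
      exact h3
  · obtain ⟨j, rfl⟩ := he2 E hEE
    refine (Set.Finite.biUnion (Set.finite_lt_nat j) fun k _ =>
      (F (en.symm (ini x k))).finite_toSet).subset ?_
    rintro z ⟨hz, hz'⟩
    obtain ⟨k, hk⟩ := mem_iUnion.1 hz
    refine mem_iUnion₂.2 ⟨k, ?_, hk⟩
    by_contra hkj
    have h3 := ((hF (en.symm (ini x k))).1 hk).2
    rw [Equiv.apply_symm_apply, ini_length] at h3
    have h4 : j ≤ k := not_lt.1 hkj
    exact hz' (mem_iInter₂.1 h3 j h4)

end Pool.Agent.K7.H48.IC
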