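import Pool.Agent.K7.H48.IdealNice

/-!
# The generic ultrafilter of a nice ideal is not Tukey above its Fubini square
-/

set_option autoImplicit false

namespace Pool.Agent.K7.H48.IC

open Set Filter
open Pool.Agent.R906.TT
open Pool.Agent.Helper292.ForceCH (fnot fand fall fimp fiff fex fground meets mem_fex mem_fimp Down
  down_fnot down_fand down_fall down_fex down_fimp down_meets meets_of_dense fimp_of
  fiff_of_decided)

section Names

variable {P : Type} [Preorder P]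

/-- The Fubini product of the named ultrafilters `U` and `V` on `ℕ`: the set of all
`C ⊆ ℕ × ℕ` for which there is a set `B` in `U` such that for all `n` in `B` the section
`{m | (n, m) ∈ C}` is in `V`. -/
def fub (U V : Set ℕ → Set P) (C : Set (ℕ × ℕ)) : Set P :=
  fex fun B : Set ℕ => fand (meets (U B)) (fall fun n => fall fun _ : n ∈ B =>
    meets (V {m | (n, m) ∈ C}))

end Names

/-! ### The forcing `P(ω)/I` -/

variable {I : Set (Set ℕ)} [hI : Fact (IsIdeal I)]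

/-- The order. -/
instance instPos : Preorder (Pos I) := posPreorder hI.out

omit hI in
/-- The condition given by a positive set. -/
def mkP (B : Set ℕ) (hB : B ∉ I) : Pos I := ⟨B, hB⟩

theorem pos_le_iff {p q : Pos I} : p ≤ q ↔ p.1 \ q.1 ∈ I := Iff.rfl

omit hI in
theorem subI (hI : IsIdeal I) {A B : Set ℕ} (h : A ⊆ B) (hB : B ∈ I) : A ∈ I := hI.mono A B h hB

theorem le_of_sub {p q : Pos I} (h : p.1 ⊆ q.1) : p ≤ q := by
  rw [pos_le_iff, Set.sdiff_eq_empty.2 h]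
  exact hI.out.fin _ finite_empty

theorem le_of_fin {p q : Pos I} (h : (p.1 \ q.1).Finite) : p ≤ q := hI.out.fin _ h

theorem inter_not {A B : Set ℕ} (hA : A ∉ I) (h : A \ B ∈ I) : A ∩ B ∉ I := by
  intro h'
  refine hA (hI.out.mono _ _ ?_ (hI.out.union _ _ h' h))
  intro x hx
  by_cases hxB : x ∈ B
  · exact Or.inl ⟨hx, hxB⟩
  · exact Or.inr ⟨hx, hxB⟩

theorem le_diff {p q : Pos I} {B : Set ℕ} (h : p ≤ q) (hq : q.1 \ B ∈ I) : p.1 \ B ∈ I := by
  refine hI.out.mono _ _ ?_ (hI.out.union _ _ h hq)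
  intro x hx
  by_cases hb : x ∈ q.1
  · exact Or.inr ⟨hb, hx.2⟩
  · exact Or.inl ⟨hx.1, hb⟩

theorem mem_meets_self {N : Set (Pos I)} {p : Pos I} (h : p ∈ N) : p ∈ meets N :=
  fun q hq => ⟨q, le_rfl, p, h, hq⟩

theorem forces_gen {p : Pos I} {B : Set ℕ} : p ∈ meets (gen I B) ↔ p.1 \ B ∈ I := by
  constructor
  · intro h
    by_contra hcon
    obtain ⟨r, hr, s, hs, hrs⟩ := h (mkP (p.1 \ B) hcon) (le_of_sub sdiff_subset)
    have hs' : s.1 = B := hs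
    refine r.2 (hI.out.mono _ _ ?_ (hI.out.union _ _ hr hrs))
    intro x hx
    by_cases hb : x ∈ s.1
    · left
      exact ⟨hx, fun h => h.2 (hs' ▸ hb)⟩
    · exact Or.inr ⟨hx, hb⟩
  · intro h
    have hB : B ∉ I := by
      intro hB
      refine p.2 (hI.out.mono _ _ ?_ (hI.out.union _ _ h hB))
      intro x hx
      by_cases hb : x ∈ B
      · exact Or.inr hb
      · exact Or.inl ⟨hx, hb⟩
    intro q hq
    exact ⟨q, le_rfl, mkP B hB, rfl, le_diff hq h⟩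

theorem gen_ultra (p : Pos I) : p ∈ IsUltra (gen I) := by
  refine ⟨fun B B' => fimp_of fun q _ h => ?_, fun B B' => fimp_of fun q _ h => ?_, fun B => ⟨?_, ?_⟩⟩
  · have hBB : B ⊆ B' := h.2
    have h1 := forces_gen.1 h.1
    rw [forces_gen]
    refine hI.out.mono _ _ ?_ h1
    intro x hx
    exact ⟨hx.1, fun hb => hx.2 (hBB hb)⟩
  · have h1 := forces_gen.1 h.1
    have h2 := forces_gen.1 h.2
    rw [forces_gen]
    refine hI.out.mono _ _ ?_ (hI.out.union _ _ h1 h2)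
    intro x hx
    by_cases hb : x ∈ B
    · exact Or.inr ⟨hx.1, fun hb' => hx.2 ⟨hb, hb'⟩⟩
    · exact Or.inl ⟨hx.1, hb⟩
  · refine fimp_of fun q _ h r hr h' => ?_
    have h1 := le_diff hr (forces_gen.1 h)
    have h2 := forces_gen.1 h'
    refine r.2 (hI.out.mono _ _ ?_ (hI.out.union _ _ h1 h2))
    intro x hx
    by_cases hb : x ∈ B
    · exact Or.inl ⟨hx, fun h => h hb⟩
    · exact Or.inr ⟨hx, hb⟩
  · refine fimp_of fun q _ h => ?_
    rw [forces_gen]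
    by_contra hcon
    have h' : ∀ r ≤ q, r ∉ meets (gen I B) := h
    refine h' (mkP (q.1 \ Bᶜ) hcon) (le_of_sub sdiff_subset) (forces_gen.2 ?_)
    refine hI.out.mono _ _ ?_ (hI.out.fin ∅ finite_empty)
    rintro x ⟨⟨_, h1⟩, h2⟩
    exact h1 h2

/-! ### Fusion -/

omit hI in
theorem fuse (h : Nice I) (S : ℕ → Set (Set ℕ)) (hS : ∀ i, ∀ A, A ∉ I → ∃ B ⊆ A, B ∉ I ∧ B ∈ S i)
    {p : Set ℕ} (hp : p ∉ I) : ∃ (E : ℕ → Set ℕ) (A : Set ℕ), A ∉ I ∧ (∀ i, E i ⊆ p) ∧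
      (∀ i, E i ∉ I ∧ E i ∈ S i) ∧ ∀ i, (A \ E i).Finite := by
  obtain ⟨D, le, e, he, h1, h2, h3⟩ := h.strat
  choose f hf1 hf2 hf3 using hS
  obtain ⟨d₀, hd₀⟩ := h1 p hp
  choose nx hnx1 hnx2 using h2
  let Z := {z : D × Set ℕ // z.2 ∉ I ∧ z.2 ⊆ e z.1}
  let z₀ : Z := ⟨(d₀, f 0 (e d₀) (he d₀)), hf2 _ _ _, hf1 _ _ _⟩
  let nz : ℕ → Z → Z := fun i z => ⟨(nx z.1.1 z.1.2 z.2.1 z.2.2,
    f (i + 1) (e (nx z.1.1 z.1.2 z.2.1 z.2.2)) (he _)), hf2 _ _ _, hf1 _ _ _⟩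
  let z : ℕ → Z := fun n => Nat.rec z₀ (fun i z => nz i z) n
  have hz : ∀ n, z (n + 1) = nz n (z n) := fun n => rfl
  have hle : ∀ n, le (z (n + 1)).1.1 (z n).1.1 := by
    intro n
    rw [hz]
    exact hnx1 _ _ _ _
  have hsub : ∀ n, e (z (n + 1)).1.1 ⊆ (z n).1.2 := by
    intro n
    rw [hz]
    exact hnx2 _ _ _ _
  obtain ⟨A, hA, hA'⟩ := h3 (fun n => (z n).1.1) hle
  refine ⟨fun n => (z n).1.2, A, hA, fun n => ?_, fun n => ⟨(z n).2.1, ?_⟩, fun n => ?_⟩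
  · have h4 : ∀ n, (z n).1.2 ⊆ e (z 0).1.1 := by
      intro n
      induction n with
      | zero => exact (z 0).2.2
      | succ n ih => exact (z (n + 1)).2.2.trans ((hsub n).trans ih)
    exact (h4 n).trans hd₀
  · cases n with
    | zero => exact hf3 _ _ _
    | succ n => exact hf3 _ _ _
  · exact (hA' (n + 1)).subset fun x hx => ⟨hx.1, fun hx' => hx.2 (hsub n hx')⟩

theorem noNew (h : Nice I) (p : Pos I) : p ∈ NoNewSubsets (Pos I) ℕ := by
  intro x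
  refine mem_fex.2 fun q _ => ?_
  obtain ⟨E, A, hA, hEq, hE, hAE⟩ := fuse h (fun i => {B | ∀ hB : B ∉ I,
    mkP B hB ∈ meets (x i) ∨ mkP B hB ∈ fnot (meets (x i))}) (by
      intro i A hA
      by_cases h1 : ∃ r ≤ mkP A hA, r ∈ meets (x i)
      · obtain ⟨r, hr, hr'⟩ := h1
        have h2 : r.1 ∩ A ∉ I := inter_not r.2 (pos_le_iff.1 hr)
        refine ⟨r.1 ∩ A, inter_subset_right, h2, fun hB => Or.inl ?_⟩
        exact down_meets _ _ hr' _ (le_of_sub (p := mkP (r.1 ∩ A) hB) (q := r) inter_subset_left)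
      · exact ⟨A, subset_rfl, hA, fun hB => Or.inr fun r hr hr' => h1 ⟨r, hr, hr'⟩⟩) q.2
  have hle : ∀ i, mkP A hA ≤ mkP (E i) (hE i).1 := fun i => le_of_fin (hAE i)
  have hq : mkP A hA ≤ q := (hle 0).trans (le_of_sub (hEq 0))
  refine ⟨mkP A hA, hq, {y | mkP A hA ∈ meets (x y)}, fun y => ?_⟩
  refine fiff_of_decided (down_meets _) (fun _ h _ _ => h) ?_
  rcases (hE y).2 (hE y).1 with h1 | h1
  · have h2 := down_meets _ _ h1 _ (hle y)
    exact Or.inl ⟨h2, h2⟩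
  · have h2 := down_fnot _ _ h1 _ (hle y)
    exact Or.inr ⟨h2, fun r hr h' => h2 _ le_rfl h'⟩

omit hI in
/-- Sets with gaps. -/
theorem exists_gaps (hI : IsIdeal I) {A : Set ℕ} (hA : A ∉ I) (M : ℕ → ℕ) :
    ∃ B ⊆ A, B ∉ I ∧ ∀ N, ∃ k, N ≤ k ∧ ∀ x ∈ B, x < k ∨ M k ≤ x := by
  let m : ℕ → ℕ := fun l => Nat.rec 0 (fun _ k => max (k + 1) (M k)) l
  have hm : ∀ l, m (l + 1) = max (m l + 1) (M (m l)) := fun l => rfl
  have hlt : ∀ l, m l < m (l + 1) := fun l => by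
    rw [hm]
    exact lt_of_lt_of_le (Nat.lt_succ_self _) (le_max_left _ _)
  have hmono : StrictMono m := strictMono_nat_of_lt_succ hlt
  have hge : ∀ l, l ≤ m l := fun l => hmono.id_le l
  have hM : ∀ l, M (m l) ≤ m (l + 1) := fun l => by
    rw [hm]
    exact le_max_right _ _
  let B : ℕ → Set ℕ := fun ε => {x | x ∈ A ∧ ∀ l, l % 2 = ε → x < m l ∨ m (l + 1) ≤ x}
  have hcov : A ⊆ B 0 ∪ B 1 := by
    intro x hx
    by_contra hcon
    rw [mem_union, not_or] at hcon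
    obtain ⟨h0, h1⟩ := hcon
    simp only [B, mem_ofPred_eq, not_and, not_forall, not_or, not_lt, not_le] at h0 h1
    obtain ⟨l, hl, hl1, hl2⟩ := h0 hx
    obtain ⟨l', hl', hl1', hl2'⟩ := h1 hx
    have h2 : l < l' + 1 := hmono.lt_iff_lt.1 (hl1.trans_lt hl2')
    have h3 : l' < l + 1 := hmono.lt_iff_lt.1 (hl1'.trans_lt hl2)
    omega
  have hfin : ∀ ε < 2, ∀ N, ∃ k, N ≤ k ∧ ∀ x ∈ B ε, x < k ∨ M k ≤ x := by
    intro ε hε N
    refine ⟨m (2 * N + ε), (by omega : N ≤ 2 * N + ε).trans (hge _), fun x hx => ?_⟩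
    rcases hx.2 (2 * N + ε) (by omega) with h | h
    · exact Or.inl h
    · exact Or.inr ((hM _).trans h)
  by_cases h0 : B 0 ∈ I
  · refine ⟨B 1, fun x hx => hx.1, fun h1 => hA (hI.mono _ _ hcov (hI.union _ _ h0 h1)),
      hfin 1 (by omega)⟩
  · exact ⟨B 0, fun x hx => hx.1, h0, hfin 0 (by omega)⟩

/-! ### Names of cofinal maps -/

/-- For all subsets `B'` of `B` in the generic ultrafilter, `F B'` is contained in `C`. -/
def Rs (F : Set ℕ → Set (ℕ × ℕ) → Set (Pos I)) (B : Set ℕ) (C : Set (ℕ × ℕ)) : Set (Pos I) :=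
  {p | ∀ B' ⊆ B, ∀ q ≤ p, q ∈ meets (gen I B') → ∀ C', q ∈ meets (F B' C') → C' ⊆ C}

variable {F : Set ℕ → Set (ℕ × ℕ) → Set (Pos I)}

theorem down_Rs (B : Set ℕ) (C : Set (ℕ × ℕ)) : Down (Rs F B C) :=
  fun _ hp _ hq B' hB' r hr => hp B' hB' r (hr.trans hq)

theorem Rs_mono {B B₁ : Set ℕ} {C C₁ : Set (ℕ × ℕ)} (hB : B₁ ⊆ B) (hC : C ⊆ C₁) {p : Pos I}
    (h : p ∈ Rs F B C) : p ∈ Rs F B₁ C₁ :=
  fun B' hB' q hq hqB C' hC' => (h B' (hB'.trans hB) q hq hqB C' hC').trans hC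

theorem fub_of_cofinite {C : Set (ℕ × ℕ)} (h : ∀ m, {k | (m, k) ∈ C}ᶜ.Finite) (p : Pos I) :
    p ∈ meets (fub (gen I) (gen I) C) := by
  refine mem_meets_self (mem_fex.2 fun q _ => ⟨q, le_rfl, univ, ?_, fun n _ => ?_⟩)
  · refine forces_gen.2 ?_
    rw [sdiff_eq_empty.2 (subset_univ _)]
    exact hI.out.fin _ finite_empty
  · exact forces_gen.2 (hI.out.fin _ ((h n).subset fun x hx => hx.2))

theorem exists_of_fub {C : Set (ℕ × ℕ)} {p : Pos I} (h : p ∈ meets (fub (gen I) (gen I) C))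
    (n : ℕ) : ∃ m ≥ n, ∃ k ≥ m, (m, k) ∈ C := by
  have hinf : ∀ (q : Pos I) (B : Set ℕ), q ∈ meets (gen I B) → ∀ n, ∃ m ≥ n, m ∈ B := by
    intro q B hq n
    by_contra hcon
    push Not at hcon
    refine inter_not q.2 (forces_gen.1 hq) (hI.out.fin _ ((Set.finite_lt_nat n).subset ?_))
    rintro x ⟨-, hx⟩
    by_contra hxn
    exact hcon x (not_lt.1 hxn) hx
  obtain ⟨r, hr, s, hs, hrs⟩ := h p le_rfl
  obtain ⟨t, ht, B, hB, hB'⟩ := mem_fex.1 hs r hrs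
  obtain ⟨m, hm, hmB⟩ := hinf t B hB n
  obtain ⟨k, hk, hkC⟩ := hinf t _ (hB' m hmB) m
  exact ⟨m, hm, k, hk, hkC⟩

theorem down_IsMap {U : Set ℕ → Set (Pos I)} {W : Set (ℕ × ℕ) → Set (Pos I)} :
    Down (IsMap U W F) :=
  down_fand (down_fall fun _ => down_fall fun _ => down_fimp _ _)
    (down_fand (down_fall fun _ => down_fimp _ _)
      (down_fall fun _ => down_fall fun _ => down_fall fun _ => down_fimp _ _))

/-- Every member of the Fubini square contains the values of `F` below some member of the generic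
ultrafilter. -/
theorem exists_Rs {q₀ : Pos I} (hmap : q₀ ∈ IsMap (gen I) (fub (gen I) (gen I)) F)
    (hcof : ∀ K : Set ℕ → Set (Pos I), q₀ ∈ fimp (IsCofinal (gen I) K)
      (ImageCofinal (fub (gen I) (gen I)) F K)) {C : Set (ℕ × ℕ)} {r : Pos I} (hr : r ≤ q₀)
    (hC : r ∈ meets (fub (gen I) (gen I) C)) :
    ∃ r' ≤ r, ∃ B, r' ∈ meets (gen I B) ∧ r' ∈ Rs F B C := by
  by_contra hcon
  push Not at hcon
  let K : Set ℕ → Set (Pos I) := fun B' =>
    {t | t ∈ meets (gen I B') ∧ ∃ C', t ∈ meets (F B' C') ∧ ¬ C' ⊆ C}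
  have h1 : r ∈ IsCofinal (gen I) K := by
    refine ⟨fun B => fimp_of fun t _ ht => meets_of_dense fun u hu => ?_,
      fun B => fimp_of fun t htr ht => mem_fex.2 fun u hu => ?_⟩
    · obtain ⟨v, hv, w, hw, hvw⟩ := ht u hu
      exact ⟨v, hv, down_meets _ _ hw.1 _ hvw⟩
    · have h2 := hcon u (hu.trans htr) B (down_meets _ _ ht _ hu)
      simp only [Rs, mem_ofPred_eq, not_forall] at h2
      obtain ⟨B', hB', q, hq, hqB, C', hqC, hCC⟩ := h2
      exact ⟨q, hq, B', mem_meets_self ⟨hqB, C', hqC, hCC⟩, hB'⟩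
  obtain ⟨r1, hr1, h2⟩ := mem_fimp.1 (hcof K) r hr h1
  obtain ⟨r2, hr2, h3⟩ := mem_fimp.1 (h2 C) r1 le_rfl (down_meets _ _ hC _ hr1)
  obtain ⟨r3, hr3, B', h4⟩ := mem_fex.1 h3 r2 le_rfl
  obtain ⟨r4, hr4, C', h5, h6, h7⟩ := mem_fex.1 h4 r3 le_rfl
  obtain ⟨r5, hr5, w, ⟨-, C'', h8, h9⟩, h10⟩ := h5 r4 le_rfl
  have hle : r5 ≤ q₀ := hr5.trans (hr4.trans (hr3.trans (hr2.trans (hr1.trans hr))))
  obtain ⟨r6, hr6, h11⟩ := mem_fimp.1 (hmap.2.2 B' C' C'') r5 hle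
    ⟨down_meets _ _ h6 _ hr5, down_meets _ _ h8 _ h10⟩
  have h12 : C' = C'' := h11
  exact h9 (h12 ▸ h7)

/-- The set of the pairs which are not in the triangle given by `n` and `j`. -/
def Cnj (n j : ℕ) : Set (ℕ × ℕ) := {x | ¬ (n ≤ x.1 ∧ x.1 ≤ x.2 ∧ x.2 < j)}

theorem not_tukeyLe (h : Nice I) (p : Pos I) :
    p ∈ fnot (TukeyLe (fub (gen I) (gen I)) (gen I)) := by
  classical
  intro q hq hT
  obtain ⟨q₀, hq₀, F, hmap, hcof⟩ := mem_fex.1 hT q le_rfl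
  -- the enumeration of the triples
  obtain ⟨tr, htr⟩ := exists_surjective_nat (Finset ℕ × ℕ × ℕ)
  obtain ⟨E, A₀, hA₀, hEq, hE, hAE⟩ := fuse h (fun i => {B | ∀ hB : B ∉ I,
    mkP B hB ∈ Rs F ((tr i).1 ∪ B) (Cnj (tr i).2.1 (tr i).2.2) ∨
      ∀ A'' ≤ mkP B hB, ∀ B', A'' ∈ meets (gen I B') →
        A'' ∉ Rs F ((tr i).1 ∪ B') (Cnj (tr i).2.1 (tr i).2.2)}) (by
      intro i A hA
      by_cases h1 : ∃ A'' ≤ mkP A hA, ∃ B', A'' ∈ meets (gen I B') ∧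
          A'' ∈ Rs F ((tr i).1 ∪ B') (Cnj (tr i).2.1 (tr i).2.2)
      · obtain ⟨A'', hA'', B', hB', hR⟩ := h1
        have h2 : A''.1 ∩ A ∉ I := inter_not A''.2 (pos_le_iff.1 hA'')
        have h3 : (A''.1 ∩ A) ∩ B' ∉ I := by
          refine inter_not h2 (hI.out.mono _ _ ?_ (forces_gen.1 hB'))
          exact fun x hx => ⟨hx.1.1, hx.2⟩
        refine ⟨_, inter_subset_left.trans inter_subset_right, h3, fun hB => Or.inl ?_⟩
        refine Rs_mono (union_subset_union_right _ inter_subset_right) subset_rfl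
          (down_Rs _ _ _ hR _ (le_of_sub ?_))
        exact inter_subset_left.trans inter_subset_left
      · refine ⟨A, subset_rfl, hA, fun hB => Or.inr fun A'' hA'' B' hB' hR => ?_⟩
        exact h1 ⟨A'', hA'', B', hB', hR⟩) q₀.2
  have hEI : ∀ i, E i ∉ I := fun i => (hE i).1
  have hES := fun i => (hE i).2 (hEI i)
  clear hE
  -- gaps
  choose ix hix using htr
  have hbd : ∀ i, ∃ b, ∀ x ∈ A₀, b ≤ x → x ∈ E i := by
    intro i
    obtain ⟨b, hb⟩ := (hAE i).bddAbove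
    refine ⟨b + 1, fun x hx hbx => ?_⟩
    by_contra hxE
    have := hb ⟨hx, hxE⟩
    omega
  choose bd hbd using hbd
  let M : ℕ → ℕ := fun k => ((Finset.range k).powerset ×ˢ (Finset.range (k + 1)) ×ˢ
    (Finset.range (k + 1))).sup fun t => bd (ix t)
  obtain ⟨A, hAA₀, hA, hgap⟩ := exists_gaps hI.out hA₀ M
  have hAE' : ∀ i, (A \ E i).Finite := fun i => (hAE i).subset fun x hx => ⟨hAA₀ hx.1, hx.2⟩
  have hAq : mkP A hA ≤ q₀ :=
    (le_of_fin (q := mkP (E 0) (hEI 0)) (hAE' 0)).trans (le_of_sub (hEq 0))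
  have hMb : ∀ k s n j, s ⊆ Finset.range k → n ≤ k → j ≤ k → ∀ x ∈ A, M k ≤ x →
      x ∈ E (ix (s, n, j)) := by
    intro k s n j hs hn hj x hx hMx
    refine hbd _ x (hAA₀ hx) (le_trans ?_ hMx)
    exact Finset.le_sup (f := fun t => bd (ix t)) (Finset.mem_product.2
      ⟨Finset.mem_powerset.2 hs, Finset.mem_product.2 ⟨Finset.mem_range.2 (Nat.lt_succ_of_le hn),
        Finset.mem_range.2 (Nat.lt_succ_of_le hj)⟩⟩)
  -- the code
  let FF : ℕ → ℕ → Set (Finset ℕ) := fun n j => {s | ∀ A'' ≤ mkP A hA, ∀ B',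
    A'' ∈ meets (gen I B') → A'' ∉ Rs F (s ∪ B') (Cnj n (j + 1))}
  have hFF : ∀ n j, FF n j ⊆ FF n (j + 1) := by
    intro n j s hs A'' hA'' B' hB' hR
    refine hs A'' hA'' B' hB' (Rs_mono subset_rfl ?_ hR)
    intro x hx hx'
    exact hx ⟨hx'.1, hx'.2.1, hx'.2.2.trans (Nat.lt_succ_self _)⟩
  have hyes : ∀ (B : Set ℕ) (hB : B ∉ I), B ⊆ A → ∀ n j, (∃ s ∈ FF n j, (s : Set ℕ) ⊆ B) ∨
      mkP B hB ∈ Rs F B (Cnj n (j + 1)) := by
    intro B hB hBA n j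
    obtain ⟨k, hk, hk'⟩ := hgap (max n (j + 1))
    let s : Finset ℕ := (Finset.range k).filter fun x => x ∈ B
    have hsB : (s : Set ℕ) ⊆ B := fun x hx => (Finset.mem_filter.1 (Finset.mem_coe.1 hx)).2
    have hsk : s ⊆ Finset.range k := Finset.filter_subset _ _
    by_cases hs : s ∈ FF n j
    · exact Or.inl ⟨s, hs, hsB⟩
    · right
      have h1 := hES (ix (s, n, j + 1))
      rw [hix] at h1
      rcases h1 with h1 | h1
      · have h2 : mkP B hB ≤ mkP (E (ix (s, n, j + 1))) (hEI _) :=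
          le_of_fin ((hAE' _).subset fun x hx => ⟨hBA hx.1, hx.2⟩)
        refine Rs_mono ?_ subset_rfl (down_Rs _ _ _ h1 _ h2)
        intro x hx
        rcases hk' x (hBA hx) with h3 | h3
        · exact Or.inl (Finset.mem_coe.2 (Finset.mem_filter.2 ⟨Finset.mem_range.2 h3, hx⟩))
        · exact Or.inr (hMb k s n (j + 1) hsk ((le_max_left _ _).trans hk)
            ((le_max_right _ _).trans hk) x (hBA hx) h3)
      · exfalso
        refine hs fun A'' hA'' B' hB' hR => h1 A'' (hA''.trans ?_) B' hB' hR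
        exact le_of_fin (hAE' _)
  -- (i)
  have hi : ∀ B, B ∉ I → B ⊆ A → ∀ n, ∃ j, ∃ s ∈ FF n j, (s : Set ℕ) ⊆ B := by
    intro B hB hBA n
    have h1 : mkP B hB ∈ meets (gen I B) := mem_meets_self rfl
    have h2 : mkP B hB ≤ q₀ := (le_of_sub hBA).trans hAq
    obtain ⟨r, hr, h3⟩ := mem_fimp.1 (hmap.2.1 B) _ h2 h1
    obtain ⟨r', hr', C', h4⟩ := mem_fex.1 h3 r le_rfl
    have hr'B : r' ≤ mkP B hB := hr'.trans hr
    obtain ⟨r'', hr'', h5⟩ := mem_fimp.1 (hmap.1 B C') r' (hr'B.trans h2) h4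
    obtain ⟨m, hm, k, hk, hmk⟩ := exists_of_fub h5.2 n
    refine ⟨k, (hyes B hB hBA n k).resolve_right fun hR => ?_⟩
    exact hR B subset_rfl r' hr'B (down_meets _ _ h1 _ hr'B) C' h4 hmk
      ⟨hm, hk, Nat.lt_succ_self _⟩
  -- (ii)
  have hii : ∀ B, B ∉ I → B ⊆ A → ∀ g : ℕ → ℕ, ∃ B' ⊆ B, B' ∉ I ∧ Avoid FF g B' := by
    intro B hB hBA g
    have h2 : mkP B hB ≤ q₀ := (le_of_sub hBA).trans hAq
    obtain ⟨r, hr, B₁, h3, h4⟩ := exists_Rs hmap hcof h2 (C := ⋂ n, Cnj n (g n + 1))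
      (fub_of_cofinite (fun m => by
        refine (Set.Finite.biUnion (Set.finite_le_nat m) fun n _ =>
          Set.finite_lt_nat (g n + 1)).subset ?_
        intro k hk
        have h5 : ¬ ∀ n, (m, k) ∈ Cnj n (g n + 1) := fun h6 => hk (mem_iInter.2 h6)
        simp only [Cnj, mem_ofPred_eq, not_forall, not_not] at h5
        obtain ⟨n, hn, hn', hn''⟩ := h5
        exact mem_iUnion₂.2 ⟨n, hn, hn''⟩) _)
    have h5 : r.1 ∩ B ∉ I := inter_not r.2 (pos_le_iff.1 hr)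
    have h6 : (r.1 ∩ B) ∩ B₁ ∉ I := by
      refine inter_not h5 (hI.out.mono _ _ ?_ (forces_gen.1 h3))
      exact fun x hx => ⟨hx.1.1, hx.2⟩
    refine ⟨_, inter_subset_left.trans inter_subset_right, h6, fun n s hs hsB => ?_⟩
    have h7 : mkP ((r.1 ∩ B) ∩ B₁) h6 ≤ mkP A hA :=
      le_of_sub ((inter_subset_left.trans inter_subset_right).trans hBA)
    refine hs _ h7 ((r.1 ∩ B) ∩ B₁) (mem_meets_self rfl) ?_
    rw [union_eq_self_of_subset_left hsB]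
    refine Rs_mono inter_subset_right (iInter_subset _ n) (down_Rs _ _ _ h4 _ (le_of_sub ?_))
    exact inter_subset_left.trans inter_subset_left
  -- the contradiction
  obtain ⟨D, hDA, hD, hk | hk⟩ := h.kill FF hFF A hA
  · obtain ⟨g, hg⟩ := hk
    obtain ⟨B', hB'D, hB', hav⟩ := hii D hD hDA g
    exact hB' (hg B' hB'D hav)
  · obtain ⟨n, hn⟩ := hk
    obtain ⟨j, s, hs, hsD⟩ := hi D hD hDA n
    exact hn j s hs hsD

end Pool.Agent.K7.H48.IC
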