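import Pool.Agent.K7.H48.IdealCore

/-!
# Killing codes of monotone maps into the Baire space
-/

set_option autoImplicit false

namespace Pool.Agent.K7.H48.IC

open Set Filter

/-- `B` contains no member of `𝓕 n (g n)` for any `n`. -/
def Avoid (𝓕 : ℕ → ℕ → Set (Finset ℕ)) (g : ℕ → ℕ) (B : Set ℕ) : Prop :=
  ∀ n, ∀ s ∈ 𝓕 n (g n), ¬ (s : Set ℕ) ⊆ B

/-- Below `D` the code `𝓕` does not code a cofinal map into the Baire space. -/
def Killed (𝓕 : ℕ → ℕ → Set (Finset ℕ)) (I : Set (Set ℕ)) (D : Set ℕ) : Prop :=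
  (∃ g : ℕ → ℕ, ∀ B ⊆ D, Avoid 𝓕 g B → B ∈ I) ∨ ∃ n, ∀ j, ∀ s ∈ 𝓕 n j, ¬ (s : Set ℕ) ⊆ D

/-- Families of subsets of `A'` are irrelevant for sets disjoint from `A'`. -/
theorem mem_J_of_disjoint {𝕂 : Set (Set (Finset ℕ))} {K₀ : Set (Finset ℕ)} {A' B : Set ℕ}
    (hK₀ : ∀ F ∈ K₀, (F : Set ℕ) ⊆ A') (hB : Disjoint B A') (h : B ∈ J (insert K₀ 𝕂)) :
    B ∈ J 𝕂 := by
  classical
  have key : ∀ l : List (Set (Finset ℕ)), (∀ K ∈ l, K ∈ insert K₀ 𝕂) →
      ∃ l' : List (Set (Finset ℕ)), (∀ K ∈ l', K ∈ 𝕂) ∧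
        ∀ F : Finset ℕ, Disjoint (F : Set ℕ) A' → F ∈ Sum l → F ∈ Sum l' := by
    intro l
    induction l with
    | nil => exact fun _ => ⟨[], by simp, fun F _ hF => hF⟩
    | cons K l ih =>
      intro hl
      obtain ⟨l', h1, h2⟩ := ih fun K' hK' => hl K' (List.mem_cons_of_mem _ hK')
      by_cases hK : K ∈ 𝕂
      · refine ⟨K :: l', fun K' hK' => ?_, ?_⟩
        · rcases List.mem_cons.1 hK' with rfl | hK'
          · exact hK
          · exact h1 K' hK'
        · rintro F hF ⟨F₁, h3, F₂, h4, rfl⟩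
          refine ⟨F₁, h3, F₂, h2 F₂ (hF.mono_left ?_) h4, rfl⟩
          exact_mod_cast Finset.subset_union_right
      · refine ⟨l', h1, ?_⟩
        rintro F hF ⟨F₁, h3, F₂, h4, rfl⟩
        have h5 : K = K₀ := (hl K List.mem_cons_self).resolve_right hK
        subst h5
        have h6 : F₁ = ∅ := by
          rw [← Finset.coe_eq_empty, ← Set.subset_empty_iff]
          intro x hx
          exact Set.disjoint_left.1 hF (by
            rw [Finset.coe_union]; exact Or.inl hx) (hK₀ _ h3 hx)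
        rw [h6, Finset.empty_union]
        refine h2 F₂ (hF.mono_left ?_) h4
        exact_mod_cast Finset.subset_union_right
  obtain ⟨l, hl, hF⟩ := h
  obtain ⟨l', h1, h2⟩ := key l hl
  exact ⟨l', h1, fun F hFB => h2 F (hB.mono_left hFB) (hF F hFB)⟩

/-- `F` can be coloured with the colours `0, …, m` so that the set with the colour `0` is in
`Sum l` and the other ones are in `K₀`. -/
def Dec (l : List (Set (Finset ℕ))) (m : ℕ) (K₀ : Set (Finset ℕ)) (F : Finset ℕ) : Prop :=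
  ∃ c : ℕ → ℕ, (∀ x ∈ F, c x ≤ m) ∧ F.filter (fun x => c x = 0) ∈ Sum l ∧
    ∀ i, 1 ≤ i → i ≤ m → F.filter (fun x => c x = i) ∈ K₀

theorem exists_dec {𝕂 : Set (Set (Finset ℕ))} (hh : ∀ K ∈ 𝕂, Hered K) {K₀ : Set (Finset ℕ)}
    (hK₀ : Hered K₀) (l : List (Set (Finset ℕ))) (hl : ∀ K ∈ l, K ∈ insert K₀ 𝕂) :
    ∃ (l' : List (Set (Finset ℕ))) (m : ℕ), (∀ K ∈ l', K ∈ 𝕂) ∧
      ∀ F ∈ Sum l, Dec l' m K₀ F := by
  classical
  induction l with
  | nil =>
    refine ⟨[], 0, by simp, fun F hF => ?_⟩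
    have : F = ∅ := hF
    subst this
    exact ⟨fun _ => 0, by simp, rfl, fun i h1 h2 => by omega⟩
  | cons K l ih =>
    obtain ⟨l', m, h1, h2⟩ := ih fun K' hK' => hl K' (List.mem_cons_of_mem _ hK')
    by_cases hK : K ∈ 𝕂
    · refine ⟨K :: l', m, fun K' hK' => ?_, ?_⟩
      · rcases List.mem_cons.1 hK' with rfl | hK'
        · exact hK
        · exact h1 K' hK'
      · rintro F ⟨F₁, h3, F₂, h4, rfl⟩
        obtain ⟨c, hc1, hc2, hc3⟩ := h2 F₂ h4
        refine ⟨fun x => if x ∈ F₁ then 0 else c x, fun x hx => ?_, ⟨F₁, h3, _, hc2, ?_⟩,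
          fun i hi hi' => hK₀ _ (hc3 i hi hi') _ fun x hx => ?_⟩
        · simp only
          split_ifs with h5
          · exact Nat.zero_le _
          · exact hc1 x ((Finset.mem_union.1 hx).resolve_left h5)
        · ext x
          simp only [Finset.mem_filter, Finset.mem_union]
          by_cases h5 : x ∈ F₁
          · simp [h5]
          · simp [h5]
        · simp only [Finset.mem_filter, Finset.mem_union] at hx ⊢
          by_cases h5 : x ∈ F₁
          · rw [if_pos h5] at hx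
            omega
          · rw [if_neg h5] at hx
            exact ⟨hx.1.resolve_left h5, hx.2⟩
    · have h5 : K = K₀ := (hl K List.mem_cons_self).resolve_right hK
      subst h5
      refine ⟨l', m + 1, h1, ?_⟩
      rintro F ⟨F₁, h3, F₂, h4, rfl⟩
      obtain ⟨c, hc1, hc2, hc3⟩ := h2 F₂ h4
      refine ⟨fun x => if x ∈ F₁ then m + 1 else c x, fun x hx => ?_, ?_, fun i hi hi' => ?_⟩
      · simp only
        split_ifs with h5
        · exact le_rfl
        · exact (hc1 x ((Finset.mem_union.1 hx).resolve_left h5)).trans (Nat.le_succ m)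
      · refine hered_sum (fun K' hK' => hh K' (h1 K' hK')) _ hc2 _ fun x hx => ?_
        simp only [Finset.mem_filter, Finset.mem_union] at hx ⊢
        by_cases h5 : x ∈ F₁
        · rw [if_pos h5] at hx
          omega
        · rw [if_neg h5] at hx
          exact ⟨hx.1.resolve_left h5, hx.2⟩
      · rcases Nat.lt_or_ge m i with h6 | h6
        · refine hK₀ _ h3 _ fun x hx => ?_
          simp only [Finset.mem_filter, Finset.mem_union] at hx
          by_contra h5
          rw [if_neg h5] at hx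
          have := hc1 x (hx.1.resolve_left h5)
          omega
        · refine hK₀ _ (hc3 i hi h6) _ fun x hx => ?_
          simp only [Finset.mem_filter, Finset.mem_union] at hx ⊢
          by_cases h5 : x ∈ F₁
          · rw [if_pos h5] at hx
            omega
          · rw [if_neg h5] at hx
            exact ⟨hx.1.resolve_left h5, hx.2⟩

/-- The main lemma. -/
theorem exists_kill {𝕂 : Set (Set (Finset ℕ))} (hg : Good 𝕂) {A : Set ℕ} (hA : A ∉ J 𝕂)
    {𝒜 : Set (Set ℕ)} (h𝒜 : 𝒜.Countable) (h : ∀ C ∈ 𝒜, C ∉ J 𝕂)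
    {𝓕 : ℕ → ℕ → Set (Finset ℕ)} (h𝓕 : ∀ n j, 𝓕 n j ⊆ 𝓕 n (j + 1)) :
    ∃ 𝕂', 𝕂 ⊆ 𝕂' ∧ Good 𝕂' ∧ (∀ C ∈ 𝒜, C ∉ J 𝕂') ∧
      ∃ D ⊆ A, D ∉ J 𝕂' ∧ Killed 𝓕 (J 𝕂') D := by
  classical
  obtain ⟨A', hA'A, hA', hthin⟩ := exists_thin hg hA h𝒜 h
  let av : (ℕ → ℕ) → Set (Finset ℕ) := fun g =>
    {F | (F : Set ℕ) ⊆ A' ∧ ∀ n, ∀ s ∈ 𝓕 n (g n), ¬ (s : Set ℕ) ⊆ F}
  have hav : ∀ g, Hered (av g) := fun g F hF F' hF' =>
    ⟨(Finset.coe_subset.2 hF').trans hF.1, fun n s hs hs' =>
      hF.2 n s hs (hs'.trans (Finset.coe_subset.2 hF'))⟩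
  by_cases hcase : ∃ g, A' ∉ J (insert (av g) 𝕂)
  · obtain ⟨g, hgA⟩ := hcase
    refine ⟨insert (av g) 𝕂, subset_insert _ _, ⟨hg.count.insert _, ?_, hg.base.trans
      (subset_insert _ _)⟩, fun C hC hCJ => ?_, A', hA'A, hgA, Or.inl ⟨g, fun B hB hBg => ?_⟩⟩
    · rintro K (rfl | hK)
      · exact hav g
      · exact hg.hered K hK
    · refine hthin C hC (mem_J_of_disjoint (K₀ := av g) (A' := A') (fun F hF => hF.1)
        disjoint_sdiff_left (J_mono hCJ sdiff_subset))
    · refine ⟨[av g], fun K hK => ?_, fun F hF => ⟨F, ⟨hF.trans hB, fun n s hs hs' =>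
        hBg n s hs (hs'.trans hF)⟩, ∅, rfl, by simp⟩⟩
      rw [List.mem_singleton.1 hK]
      exact mem_insert _ _
  · push Not at hcase
    obtain ⟨L, hL, hL'⟩ := exists_lists hg.count
    let good : ℕ → (ℕ → ℕ) → Prop := fun i g => ∀ F : Finset ℕ, (F : Set ℕ) ⊆ A' →
      Dec (L (Nat.unpair i).1) (Nat.unpair i).2 (av g) F
    have h1 : ∀ g, ∃ i, good i g := by
      intro g
      obtain ⟨l, hl, hF⟩ := hcase g
      obtain ⟨l', m, h1, h2⟩ := exists_dec hg.hered (hav g) l hl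
      obtain ⟨i, rfl⟩ := hL' l' h1
      refine ⟨Nat.pair i m, fun F hFA => ?_⟩
      rw [Nat.unpair_pair]
      exact h2 F (hF F hFA)
    have h2 : ∃ i N, ∀ j, ∃ g : ℕ → ℕ, g N = j ∧ good i g := by
      by_contra hcon
      push Not at hcon
      choose jj hjj using hcon
      obtain ⟨i, hi⟩ := h1 fun n => jj n n
      exact hjj i i (fun n => jj n n) rfl hi
    obtain ⟨i, N, h3⟩ := h2
    choose g hgN hgood using h3
    set l := L (Nat.unpair i).1
    set m := (Nat.unpair i).2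
    let Fk : ℕ → Finset ℕ := fun k => (Finset.range k).filter (fun x => x ∈ A')
    have hFk : ∀ k, (Fk k : Set ℕ) ⊆ A' := fun k x hx =>
      (Finset.mem_filter.1 (Finset.mem_coe.1 hx)).2
    have h4 : ∀ k, Dec l m (av (g k)) (Fk k) := fun k => hgood k (Fk k) (hFk k)
    choose c hc1 hc2 hc3 using h4
    let U : Ultrafilter ℕ := hyperfilter ℕ
    have hU : ∀ n, {k | n < k} ∈ U := by
      intro n
      refine hyperfilter_le_cofinite (α := ℕ) ?_
      have : {k | n < k}ᶜ = {k | k ≤ n} := by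
        ext k; simp
      rw [mem_cofinite, this]
      exact Set.finite_le_nat n
    let D : ℕ → Set ℕ := fun i => {x | x ∈ A' ∧ {k | c k x = i} ∈ U}
    have hDfin : ∀ i (F : Finset ℕ), (F : Set ℕ) ⊆ D i → ∀ j, ∃ k, j < k ∧
        F ⊆ (Fk k).filter (fun x => c k x = i) := by
      intro i F hF j
      have h5 : (⋂ x ∈ F, {k | c k x = i ∧ x < k}) ∈ U := by
        refine (Filter.biInter_finset_mem F).2 fun x hx => ?_
        exact Filter.inter_mem (hF hx).2 (hU x)
      obtain ⟨k, hk⟩ := U.nonempty_of_mem (Filter.inter_mem h5 (hU j))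
      refine ⟨k, hk.2, fun x hx => ?_⟩
      have h6 := mem_iInter₂.1 hk.1 x hx
      exact Finset.mem_filter.2 ⟨Finset.mem_filter.2 ⟨Finset.mem_range.2 h6.2, (hF hx).1⟩, h6.1⟩
    have hcover : A' ⊆ ⋃ i ∈ {i | i ≤ m}, D i := by
      intro x hx
      have h5 : {k | c k x ≤ m} ∈ U := by
        refine Filter.mem_of_superset (hU x) fun k hk => ?_
        exact hc1 k x (Finset.mem_filter.2 ⟨Finset.mem_range.2 hk, hx⟩)
      have h6 : {k | c k x ≤ m} = ⋃ i ∈ {i | i ≤ m}, {k | c k x = i} := by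
        ext k
        simp
      rw [h6] at h5
      obtain ⟨i, hi, hi'⟩ := (Ultrafilter.finite_biUnion_mem_iff (Set.finite_le_nat m)).1 h5
      exact mem_iUnion₂.2 ⟨i, hi, hx, hi'⟩
    have hD0 : D 0 ∈ J 𝕂 := by
      refine ⟨l, hL _, fun F hF => ?_⟩
      obtain ⟨k, -, hk⟩ := hDfin 0 F hF 0
      exact hered_sum (fun K hK => hg.hered K (hL _ K hK)) _ (hc2 k) _ hk
    have h5 : ∃ i, 1 ≤ i ∧ i ≤ m ∧ D i ∉ J 𝕂 := by
      by_contra hcon
      push Not at hcon
      refine hA' (J_mono ?_ hcover)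
      have h6 : ∀ M, M ≤ m → (⋃ i ∈ {i | i ≤ M}, D i) ∈ J 𝕂 := by
        intro M
        induction M with
        | zero =>
          intro _
          refine J_mono hD0 ?_
          refine iUnion₂_subset fun i hi => ?_
          have : i = 0 := Nat.le_zero.1 hi
          rw [this]
        | succ M ih =>
          intro hM
          refine J_mono (J_union (ih (by omega)) (hcon (M + 1) (by omega) hM)) ?_
          refine iUnion₂_subset fun i hi => ?_
          rcases Nat.le_succ_iff.1 hi with h7 | h7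
          · intro x hx
            exact Or.inl (mem_iUnion₂.2 ⟨i, h7, hx⟩)
          · rw [h7]
            exact subset_union_right
      exact h6 m le_rfl
    obtain ⟨i, hi1, him, hDi⟩ := h5
    have hmono : ∀ n j j', j ≤ j' → 𝓕 n j ⊆ 𝓕 n j' := by
      intro n j j' hj
      induction j', hj using Nat.le_induction with
      | base => exact subset_rfl
      | succ j' _ ih => exact ih.trans (h𝓕 n j')
    refine ⟨𝕂, subset_rfl, hg, h, D i, fun x hx => hA'A hx.1, hDi, Or.inr ⟨N, fun j s hs hsD => ?_⟩⟩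
    obtain ⟨k, hjk, hk⟩ := hDfin i s hsD j
    have h6 := (hc3 k i hi1 him).2 N s (by
      rw [hgN]
      exact hmono N j k hjk.le hs)
    exact h6 (Finset.coe_subset.2 hk)

end Pool.Agent.K7.H48.IC
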