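import Pool.Agent.K7.H48.IdealRun
import Pool.Agent.R906.TTDefs

/-!
# Two ideals
-/

set_option autoImplicit false

namespace Pool.Agent.K7.H48.IC

open Set Filter
open Pool.Agent.Helper292.ForceCH (Om countable_Iio exists_bound)
open Pool.Agent.R906.TT (IsIdeal IsSigma Atomless)

/-- The properties of the ideal which are used for the generic ultrafilter. The second one implies
that the player Nonempty has a winning strategy in the descending chain game. -/
structure Nice (I : Set (Set ℕ)) : Prop where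
  ideal : IsIdeal I
  atomless : Atomless I
  strat : ∃ (D : Type) (le : D → D → Prop) (e : D → Set ℕ), (∀ d, e d ∉ I) ∧
    (∀ B, B ∉ I → ∃ d, e d ⊆ B) ∧ (∀ d B, B ∉ I → B ⊆ e d → ∃ d', le d' d ∧ e d' ⊆ B) ∧
    ∀ s : ℕ → D, (∀ i, le (s (i + 1)) (s i)) → ∃ A, A ∉ I ∧ ∀ i, (A \ e (s i)).Finite
  kill : ∀ 𝓕 : ℕ → ℕ → Set (Finset ℕ), (∀ n j, 𝓕 n j ⊆ 𝓕 n (j + 1)) → ∀ C, C ∉ I →
    ∃ D ⊆ C, D ∉ I ∧ Killed 𝓕 I D

/-! ### The first ideal -/

/-- The union of the approximations. -/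
def chI (s : Om → Task) : Set (Set ℕ) := {B | ∃ a, B ∈ J (run step s a).1}

theorem not_chI {s : Om → Task} {a : Om} {C : Set ℕ} (hC : C ∈ (run step s a).2) : C ∉ chI s := by
  rintro ⟨b, hb⟩
  have h1 := run_mono isStep_step s (le_max_left a b)
  have h2 := run_mono isStep_step s (le_max_right a b)
  exact (run_valid isStep_step s (max a b)).pos C (h1.2 hC) (J_subset h2.1 hb)

theorem run_done (s : Om → Task) (a : Om) : Done (s a) (run step s a) := by
  rw [run_eq]
  exact (step_spec (prev_valid isStep_step s a) (s a)).2.2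

theorem chI_sigma {s : Om → Task} (hs : Function.Surjective s) (A : ℕ → Set ℕ)
    (hA : ∀ n, A n ∉ chI s) (hanti : ∀ n, A (n + 1) ⊆ A n) :
    ∃ B, B ∉ chI s ∧ ∀ n, (B \ A n).Finite := by
  obtain ⟨a, ha⟩ := hs (fun _ _ => ∅, A)
  have h1 := run_done s a
  rw [ha] at h1
  rcases h1.seq hanti with ⟨i, hi⟩ | ⟨B, hB, hB'⟩
  · exact absurd ⟨a, hi⟩ (hA i)
  · exact ⟨B, not_chI hB, hB'⟩

theorem isIdeal_chI (s : Om → Task) : IsIdeal (chI s) := by
  refine ⟨fun A hA => ?_, fun A B hA hB => ?_, fun A B hAB hB => ?_, ?_⟩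
  · exact ⟨Classical.arbitrary Om, J_finite (run_valid isStep_step s _).good.base hA⟩
  · obtain ⟨a, ha⟩ := hA
    obtain ⟨b, hb⟩ := hB
    exact ⟨max a b, J_union (J_subset (run_mono isStep_step s (le_max_left a b)).1 ha)
      (J_subset (run_mono isStep_step s (le_max_right a b)).1 hb)⟩
  · obtain ⟨a, ha⟩ := hB
    exact ⟨a, J_mono ha hAB⟩
  · exact not_chI (run_valid isStep_step s (Classical.arbitrary Om)).univ_mem

theorem nice_chI {s : Om → Task} (hs : Function.Surjective s) : Nice (chI s) ∧ IsSigma (chI s) := by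
  refine ⟨⟨isIdeal_chI s, fun A hA => ?_, ⟨{B : Set ℕ // B ∉ chI s}, fun B' B => B'.1 ⊆ B.1,
    Subtype.val, fun d => d.2, fun B hB => ⟨⟨B, hB⟩, subset_rfl⟩, fun d B hB hBd =>
      ⟨⟨B, hB⟩, hBd, subset_rfl⟩, fun t ht => ?_⟩, fun 𝓕 h𝓕 C hC => ?_⟩, fun A hA hanti => ?_⟩
  · obtain ⟨a, ha⟩ := hs (fun _ _ => ∅, fun _ => A)
    have h1 := run_done s a
    rw [ha] at h1
    rcases h1.split with h2 | ⟨D, hD, D', hD', h3, h4, h5⟩
    · exact absurd ⟨a, h2⟩ hA
    · exact ⟨D, D', not_chI hD, not_chI hD', h3, h4, h5⟩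
  · exact chI_sigma hs (fun n => (t n).1) (fun n => (t n).2) ht
  · obtain ⟨a, ha⟩ := hs (𝓕, fun _ => C)
    have h1 := run_done s a
    rw [ha] at h1
    rcases h1.kill h𝓕 with h2 | ⟨D, hD, hDC, hk⟩
    · exact absurd ⟨a, h2⟩ hC
    · refine ⟨D, hDC, not_chI hD, hk.imp ?_ id⟩
      rintro ⟨g, hg⟩
      exact ⟨g, fun B hB hBg => ⟨a, hg B hB hBg⟩⟩
  · obtain ⟨B, hB, hB'⟩ := chI_sigma hs A hA hanti
    exact ⟨B, hB, fun n => (isIdeal_chI s).fin _ (hB' n)⟩

/-! ### Coding tasks by reals -/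

theorem exists_code : ∃ ι : Task → (ℕ → Bool), Function.Injective ι := by
  classical
  obtain ⟨e, he⟩ := exists_surjective_nat ((ℕ × ℕ × Finset ℕ) ⊕ (ℕ × ℕ))
  refine ⟨fun t m => decide (Sum.elim (fun x : ℕ × ℕ × Finset ℕ => x.2.2 ∈ t.1 x.1 x.2.1)
    (fun x : ℕ × ℕ => x.2 ∈ t.2 x.1) (e m)), fun t t' htt' => ?_⟩
  have h1 : ∀ m, (Sum.elim (fun x : ℕ × ℕ × Finset ℕ => x.2.2 ∈ t.1 x.1 x.2.1)
      (fun x : ℕ × ℕ => x.2 ∈ t.2 x.1) (e m)) ↔
      (Sum.elim (fun x : ℕ × ℕ × Finset ℕ => x.2.2 ∈ t'.1 x.1 x.2.1)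
      (fun x : ℕ × ℕ => x.2 ∈ t'.2 x.1) (e m)) := fun m =>
    decide_eq_decide.1 (congrFun htt' m)
  refine Prod.ext ?_ ?_
  · funext n j
    ext x
    obtain ⟨m, hm⟩ := he (Sum.inl (n, j, x))
    have := h1 m
    rwa [hm] at this
  · funext n
    ext x
    obtain ⟨m, hm⟩ := he (Sum.inr (n, x))
    have := h1 m
    rwa [hm] at this

/-- A coding of the tasks. -/
noncomputable def code : Task → (ℕ → Bool) := exists_code.choose

theorem code_injective : Function.Injective code := exists_code.choose_spec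

open Cardinal in
theorem exists_surjective (hCH : (𝔠 : Cardinal.{0}) = ℵ₁) :
    ∃ s : Om → Task, Function.Surjective s := by
  have h1 : #Task ≤ #Om := by
    refine (Cardinal.mk_le_of_injective code_injective).trans ?_
    have h2 : #(ℕ → Bool) = 𝔠 := by simp
    rw [h2, hCH, Cardinal.mk_ord_toType]
  obtain ⟨f⟩ := h1
  exact ⟨Function.invFun f, Function.invFun_surjective f.injective⟩

/-! ### The second ideal -/

open Classical in
/-- The almost disjoint family used for the approximation `σ`, indexed by the tasks. -/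
noncomputable def AA (σ : St) (t : Task) : Set ℕ :=
  if h : Valid σ then (exists_ad h.good h.count h.pos ⟨_, h.univ_mem⟩).choose (code t) else ∅

theorem AA_spec {σ : St} (h : Valid σ) :
    (∀ t t', t ≠ t' → (AA σ t ∩ AA σ t').Finite) ∧ (∀ t, ∀ C ∈ σ.2, C ∩ AA σ t ∉ J σ.1) ∧
      ∀ t, ∀ E, cf E ∈ σ.1 → (AA σ t \ E).Finite := by
  have h1 := (exists_ad h.good h.count h.pos ⟨_, h.univ_mem⟩).choose_spec
  have h2 : ∀ t, AA σ t = (exists_ad h.good h.count h.pos ⟨_, h.univ_mem⟩).choose (code t) :=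
    fun t => by rw [AA, dif_pos h]
  simp only [h2]
  exact ⟨fun t t' htt' => h1.1 _ _ fun h3 => htt' (code_injective h3), fun t => h1.2.1 _,
    fun t => h1.2.2 _⟩

/-- Add the set of the almost disjoint family to the dual filter. -/
noncomputable def addA (σ : St) (t : Task) : St :=
  (insert (cf (AA σ t)) σ.1, σ.2 ∪ (fun C => C ∩ AA σ t) '' σ.2)

theorem addA_valid {σ : St} (h : Valid σ) (t : Task) : Valid (addA σ t) := by
  have h1 : ∀ C ∈ σ.2, C ∩ AA σ t ∉ J (addA σ t).1 := by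
    intro C hC hCJ
    refine (AA_spec h).2.1 t C hC (mem_J_of_disjoint (K₀ := cf (AA σ t)) (A' := (AA σ t)ᶜ)
      (fun F hF x hx => hF x (Finset.mem_coe.1 hx)) ?_ hCJ)
    exact disjoint_compl_right.mono_left inter_subset_right
  refine ⟨⟨h.good.count.insert _, ?_, h.good.base.trans (subset_insert _ _)⟩,
    h.count.union (h.count.image _), ?_, Or.inl h.univ_mem⟩
  · rintro K (rfl | hK)
    · exact hered_cf _
    · exact h.good.hered K hK
  · rintro C (hC | ⟨C, hC, rfl⟩)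
    · exact fun hCJ => h1 C hC (J_mono hCJ inter_subset_left)
    · exact h1 C hC

open Classical in
/-- The step for the second ideal. -/
noncomputable def stepT (σ : St) (t : Task) : St :=
  if Valid σ then step (addA σ t) (t.1, fun i => t.2 i ∩ AA σ t) else σ

theorem stepT_spec {σ : St} (h : Valid σ) (t : Task) :
    Valid (stepT σ t) ∧ addA σ t ≤ stepT σ t ∧ Done (t.1, fun i => t.2 i ∩ AA σ t) (stepT σ t) := by
  rw [stepT, if_pos h]
  exact step_spec (addA_valid h t) _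

theorem isStep_stepT : IsStep stepT :=
  ⟨fun _ t h => (stepT_spec h t).1, fun _ t h =>
    (show _ ≤ addA _ t from ⟨subset_insert _ _, subset_union_left⟩).trans (stepT_spec h t).2.1⟩

/-- The set belonging to the node given by `s` and `a`. -/
noncomputable def nd (s : Om → Task) (a : Om) : Set ℕ := AA (prev stepT s a) (s a)

theorem nd_spec (s : Om → Task) (a : Om) :
    cf (nd s a) ∈ (run stepT s a).1 ∧ (nd s a)ᶜ ∈ J (run stepT s a).1 ∧
      (∀ C ∈ (prev stepT s a).2, C ∩ nd s a ∈ (run stepT s a).2) ∧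
      Done ((s a).1, fun i => (s a).2 i ∩ nd s a) (run stepT s a) := by
  have h1 := stepT_spec (prev_valid isStep_stepT s a) (s a)
  rw [run_eq]
  have h2 : cf (nd s a) ∈ (stepT (prev stepT s a) (s a)).1 := h1.2.1.1 (mem_insert _ _)
  exact ⟨h2, J_compl h2, fun C hC => h1.2.1.2 (Or.inr ⟨C, hC, rfl⟩), h1.2.2⟩

theorem nd_almost (s : Om → Task) {a b : Om} (h : b ≤ a) : (nd s a \ nd s b).Finite := by
  rcases h.eq_or_lt with rfl | h
  · simp
  · refine (AA_spec (prev_valid isStep_stepT s a)).2.2 (s a) (nd s b) ?_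
    exact (run_le_prev stepT s h).1 (nd_spec s b).1

theorem nd_disjoint {s s' : Om → Task} {a a' b : Om} (hb : b ≤ a) (hb' : b ≤ a')
    (hne : s b ≠ s' b) : (nd s a ∩ nd s' a').Finite := by
  -- the first place where they differ
  obtain ⟨c, hc, hmin⟩ := WellFounded.has_min (wellFounded_lt (α := Om)) {c | s c ≠ s' c} ⟨b, hne⟩
  have hcb : c ≤ b := not_lt.1 (hmin b hne)
  have h1 : ∀ d < c, s d = s' d := fun d hd => by
    by_contra h2
    exact hmin d h2 hd
  have h2 : prev stepT s c = prev stepT s' c := prev_congr h1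
  have h3 : (nd s c ∩ nd s' c).Finite := by
    rw [nd, nd, ← h2]
    exact (AA_spec (prev_valid isStep_stepT s c)).1 _ _ hc
  refine ((h3.union (nd_almost s (hcb.trans hb))).union (nd_almost s' (hcb.trans hb'))).subset ?_
  rintro x ⟨hx, hx'⟩
  by_cases h4 : x ∈ nd s c
  · by_cases h5 : x ∈ nd s' c
    · exact Or.inl (Or.inl ⟨h4, h5⟩)
    · exact Or.inr ⟨hx', h5⟩
  · exact Or.inl (Or.inr ⟨hx, h4⟩)

/-- The ideal. -/
def tI : Set (Set ℕ) :=
  {B | ∀ (s : Om → Task) (a : Om), ∀ C ∈ (run stepT s a).2, C \ B ∉ J (run stepT s a).1}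

theorem not_tI {B : Set ℕ} : B ∉ tI ↔ ∃ (s : Om → Task) (a : Om), ∃ C ∈ (run stepT s a).2,
    C \ B ∈ J (run stepT s a).1 := by
  simp only [tI, mem_ofPred_eq]
  push Not
  rfl

theorem not_tI_of_mem {s : Om → Task} {a : Om} {C : Set ℕ} (hC : C ∈ (run stepT s a).2) :
    C ∉ tI := not_tI.2 ⟨s, a, C, hC, by rw [sdiff_self]; exact J_empty⟩

/-- Null sets of nodes. -/
theorem tI_of_J {s : Om → Task} {a : Om} {B : Set ℕ} (hB : B ⊆ nd s a)
    (hBJ : B ∈ J (run stepT s a).1) : B ∈ tI := by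
  intro s' a' C hC hCB
  have hpos := (run_valid isStep_stepT s' a').pos C hC
  by_cases h : ∃ b, b ≤ a ∧ b ≤ a' ∧ s b ≠ s' b
  · obtain ⟨b, h1, h2, h3⟩ := h
    have h4 := J_finite (run_valid isStep_stepT s' a').good.base (nd_disjoint h1 h2 h3)
    refine hpos (J_mono (J_union (J_union hCB h4) (nd_spec s' a').2.1) ?_)
    intro x hx
    by_cases h5 : x ∈ B
    · by_cases h6 : x ∈ nd s' a'
      · exact Or.inl (Or.inr ⟨hB h5, h6⟩)
      · exact Or.inr h6
    · exact Or.inl (Or.inl ⟨hx, h5⟩)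
  · push Not at h
    rcases le_or_gt a a' with h1 | h1
    · have h2 : run stepT s a = run stepT s' a := run_congr fun b hb => h b hb (hb.trans h1)
      rw [h2] at hBJ
      exact hpos (J_of_diff hCB (J_subset (run_mono isStep_stepT s' h1).1 hBJ))
    · have h2 : run stepT s' a' = run stepT s a' :=
        run_congr fun b hb => (h b (hb.trans h1.le) hb).symm
      have h3 := run_mono isStep_stepT s h1.le
      rw [h2] at hC hCB
      exact (run_valid isStep_stepT s a).pos C (h3.2 hC) (J_of_diff (J_subset h3.1 hCB) hBJ)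

/-- Going to an extension of the node, with a given task. -/
theorem exists_ext (s : Om → Task) (a : Om) (t : Task) : ∃ (s' : Om → Task) (b : Om), a < b ∧
    (∀ c ≤ a, s' c = s c) ∧ run stepT s a ≤ run stepT s' b ∧
    (∀ C ∈ (run stepT s a).2, C ∩ nd s' b ∈ (run stepT s' b).2) ∧
    Done (t.1, fun i => t.2 i ∩ nd s' b) (run stepT s' b) := by
  classical
  obtain ⟨b, hb⟩ := exists_gt a
  have h1 : ∀ c ≤ a, Function.update s b t c = s c := fun c hc =>
    Function.update_of_ne (hc.trans_lt hb).ne _ _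
  have h2 : run stepT s a ≤ prev stepT (Function.update s b t) b := by
    rw [← run_congr h1]
    exact run_le_prev stepT _ hb
  have h3 := nd_spec (Function.update s b t) b
  rw [Function.update_self] at h3
  refine ⟨Function.update s b t, b, hb, h1, ?_, fun C hC => h3.2.2.1 C (h2.2 hC), h3.2.2.2⟩
  rw [run_eq stepT (Function.update s b t) b]
  exact h2.trans (isStep_stepT.le _ _ (prev_valid isStep_stepT _ b))

/-- A set positive at a node remains positive. -/
theorem inter_pos {s s' : Om → Task} {a b : Om} {B C : Set ℕ} (hle : run stepT s a ≤ run stepT s' b)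
    (hC : C ∩ nd s' b ∈ (run stepT s' b).2) (hCB : C \ B ∈ J (run stepT s a).1) :
    B ∩ nd s' b ∉ J (run stepT s' b).1 := by
  intro hJ
  refine (run_valid isStep_stepT s' b).pos _ hC (J_mono (J_union (J_subset hle.1 hCB) hJ) ?_)
  rintro x ⟨hx, hx'⟩
  by_cases h6 : x ∈ B
  · exact Or.inr ⟨h6, hx'⟩
  · exact Or.inl ⟨hx, h6⟩

theorem isIdeal_tI : IsIdeal tI := by
  refine ⟨fun A hA s a C hC hCA => ?_, fun A B hA hB => ?_, fun A B hAB hB => ?_, ?_⟩
  · have h1 := run_valid isStep_stepT s a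
    exact h1.pos C hC (J_of_diff hCA (J_finite h1.good.base hA))
  · by_contra hcon
    obtain ⟨s, a, C, hC, hCJ⟩ := not_tI.1 hcon
    obtain ⟨s', b, hab, h2, h3, h4, h5⟩ := exists_ext s a (fun _ _ => ∅, fun _ => A)
    rcases h5.dec with h6 | h6
    · refine hB s' b _ (h4 C hC) (J_mono (J_union (J_subset h3.1 hCJ) h6) ?_)
      rintro x ⟨⟨hx, hx'⟩, hxB⟩
      by_cases h7 : x ∈ A
      · exact Or.inr ⟨h7, hx'⟩
      · exact Or.inl ⟨hx, fun h => h.elim h7 hxB⟩
    · refine hA s' b _ h6 (J_mono J_empty ?_)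
      rintro x ⟨⟨hx, -⟩, hx'⟩
      exact absurd hx hx'
  · intro s a C hC hCA
    exact hB s a C hC (J_mono hCA fun x hx => ⟨hx.1, fun h => hx.2 (hAB h)⟩)
  · exact not_tI_of_mem (run_valid isStep_stepT (fun _ => (fun _ _ => ∅, fun _ => ∅))
      (Classical.arbitrary Om)).univ_mem

/-- Subsets of nodes with a positive trace. -/
theorem strat_tI : ∃ (D : Type) (le : D → D → Prop) (e : D → Set ℕ), (∀ d, e d ∉ tI) ∧
    (∀ B, B ∉ tI → ∃ d, e d ⊆ B) ∧ (∀ d B, B ∉ tI → B ⊆ e d → ∃ d', le d' d ∧ e d' ⊆ B) ∧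
    ∀ s : ℕ → D, (∀ i, le (s (i + 1)) (s i)) → ∃ A, A ∉ tI ∧ ∀ i, (A \ e (s i)).Finite := by
  classical
  refine ⟨{d : (Om → Task) × Om × Set ℕ // d.2.2 ∈ (run stepT d.1 d.2.1).2 ∧
      d.2.2 ⊆ nd d.1 d.2.1}, fun d' d => d.1.2.1 < d'.1.2.1 ∧ (∀ c ≤ d.1.2.1, d'.1.1 c = d.1.1 c) ∧
      d'.1.2.2 ⊆ d.1.2.2, fun d => d.1.2.2, fun d => not_tI_of_mem d.2.1, fun B hB => ?_,
      fun d B hB hBd => ?_, fun t ht => ?_⟩
  · obtain ⟨s, a, C, hC, hCJ⟩ := not_tI.1 hB
    obtain ⟨s', b, hab, h2, h3, h4, h5⟩ := exists_ext s a (fun _ _ => ∅, fun _ => B)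
    exact ⟨⟨(s', b, B ∩ nd s' b), h5.dec.resolve_left (inter_pos h3 (h4 C hC) hCJ),
      inter_subset_right⟩, inter_subset_left⟩
  · obtain ⟨⟨s, a, E⟩, hE, hEn⟩ := d
    obtain ⟨s', a', C, hC, hCJ⟩ := not_tI.1 hB
    -- the nodes are compatible
    have h1 : ∀ b, b ≤ a → b ≤ a' → s b = s' b := by
      intro b hb hb'
      by_contra hne
      have h2 := J_finite (run_valid isStep_stepT s' a').good.base (nd_disjoint hb hb' hne)
      refine (run_valid isStep_stepT s' a').pos C hC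
        (J_mono (J_union (J_union hCJ h2) (nd_spec s' a').2.1) ?_)
      intro x hx
      by_cases h5 : x ∈ B
      · by_cases h6 : x ∈ nd s' a'
        · exact Or.inl (Or.inr ⟨hEn (hBd h5), h6⟩)
        · exact Or.inr h6
      · exact Or.inl (Or.inl ⟨hx, h5⟩)
    -- a common extension
    obtain ⟨s₁, a₁, h2, h3, h4, h5⟩ : ∃ (s₁ : Om → Task) (a₁ : Om), a ≤ a₁ ∧
        (∀ c ≤ a, s₁ c = s c) ∧ C ∈ (run stepT s₁ a₁).2 ∧ C \ B ∈ J (run stepT s₁ a₁).1 := by
      rcases le_total a a' with h2 | h2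
      · exact ⟨s', a', h2, fun c hc => (h1 c hc (hc.trans h2)).symm, hC, hCJ⟩
      · have h3 : run stepT s' a' = run stepT s a' :=
          run_congr fun b hb => (h1 b (hb.trans h2) hb).symm
        rw [h3] at hC hCJ
        have h4 := run_mono isStep_stepT s h2
        exact ⟨s, a, le_rfl, fun _ _ => rfl, h4.2 hC, J_subset h4.1 hCJ⟩
    obtain ⟨s₂, b, hab, h6, h7, h8, h9⟩ := exists_ext s₁ a₁ (fun _ _ => ∅, fun _ => B)
    exact ⟨⟨(s₂, b, B ∩ nd s₂ b), h9.dec.resolve_left (inter_pos h7 (h8 C h4) h5),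
      inter_subset_right⟩, ⟨h2.trans_lt hab, fun c hc => (h6 c (hc.trans h2)).trans (h3 c hc),
        inter_subset_left.trans hBd⟩, inter_subset_left⟩
  · -- glue the nodes
    let sq : ℕ → Om → Task := fun i => (t i).1.1
    let al : ℕ → Om := fun i => (t i).1.2.1
    let Cs : ℕ → Set ℕ := fun i => (t i).1.2.2
    have hal : ∀ i j, i ≤ j → al i ≤ al j := by
      intro i j h
      induction j, h using Nat.le_induction with
      | base => exact le_rfl
      | succ j _ ih => exact ih.trans (ht j).1.le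
    have hsq : ∀ i j, i ≤ j → ∀ c ≤ al i, sq j c = sq i c := by
      intro i j h
      induction j, h using Nat.le_induction with
      | base => exact fun _ _ => rfl
      | succ j hj ih => exact fun c hc => ((ht j).2.1 c (hc.trans (hal i j hj))).trans (ih c hc)
    obtain ⟨b, hb⟩ := exists_bound al
    let s₀ : Om → Task := fun c => if h : ∃ i, c ≤ al i then sq (Nat.find h) c else
      (fun _ _ => ∅, Cs)
    have hs₀ : ∀ i, ∀ c ≤ al i, s₀ c = sq i c := by
      intro i c hc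
      have h : ∃ i, c ≤ al i := ⟨i, hc⟩
      show (if h : ∃ i, c ≤ al i then sq (Nat.find h) c else (fun _ _ => ∅, Cs)) = _
      rw [dif_pos h]
      exact (hsq _ _ (Nat.find_min' h hc) c (Nat.find_spec h)).symm
    have hs₀b : s₀ b = (fun _ _ => ∅, Cs) := by
      show (if h : ∃ i, b ≤ al i then sq (Nat.find h) b else (fun _ _ => ∅, Cs)) = _
      rw [dif_neg]
      rintro ⟨i, hi⟩
      exact absurd (hb i) (not_lt.2 hi)
    have h1 : ∀ i, Cs i ∈ (prev stepT s₀ b).2 := by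
      intro i
      have h2 : run stepT (sq i) (al i) ≤ prev stepT s₀ b := by
        rw [← run_congr (hs₀ i)]
        exact run_le_prev stepT _ (hb i)
      exact h2.2 (t i).2.1
    have h2 := nd_spec s₀ b
    rw [hs₀b] at h2
    have h3 : ∀ i, Cs (i + 1) ⊆ Cs i := fun i => (ht i).2.2
    rcases h2.2.2.2.seq (fun i => inter_subset_inter_left _ (h3 i)) with ⟨i, hi⟩ | ⟨B, hB, hB'⟩
    · exact absurd hi ((run_valid isStep_stepT s₀ b).pos _ (h2.2.2.1 _ (h1 i)))
    · exact ⟨B, not_tI_of_mem hB, fun i => (hB' i).subset fun x hx =>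
        ⟨hx.1, fun h => hx.2 h.1⟩⟩

theorem nice_tI : Nice tI := by
  refine ⟨isIdeal_tI, fun A hA => ?_, strat_tI, fun 𝓕 h𝓕 A hA => ?_⟩
  · obtain ⟨s, a, C, hC, hCJ⟩ := not_tI.1 hA
    obtain ⟨s', b, hab, h2, h3, h4, h5⟩ := exists_ext s a (fun _ _ => ∅, fun _ => A)
    obtain ⟨D, hD, D', hD', h6, h7, h8⟩ := h5.split.resolve_left (inter_pos h3 (h4 C hC) hCJ)
    exact ⟨D, D', not_tI_of_mem hD, not_tI_of_mem hD', h6.trans inter_subset_left,
      h7.trans inter_subset_left, h8⟩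
  · obtain ⟨s, a, C, hC, hCJ⟩ := not_tI.1 hA
    obtain ⟨s', b, hab, h2, h3, h4, h5⟩ := exists_ext s a (𝓕, fun _ => A)
    obtain ⟨D, hD, h6, h7⟩ := (h5.kill h𝓕).resolve_left (inter_pos h3 (h4 C hC) hCJ)
    refine ⟨D, h6.trans inter_subset_left, not_tI_of_mem hD, h7.imp ?_ id⟩
    rintro ⟨g, hg⟩
    exact ⟨g, fun B hB hBg => tI_of_J (hB.trans (h6.trans inter_subset_right)) (hg B hB hBg)⟩

end Pool.Agent.K7.H48.IC
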