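import Pool.Agent.K7.H48.IdealKill
import Pool.Agent.Helper292.ForceCH

/-!
# Approximations to ideals, and recursions of length `ω₁`
-/

set_option autoImplicit false

namespace Pool.Agent.K7.H48.IC

open Set Filter
open Pool.Agent.Helper292.ForceCH (Om countable_Iio exists_bound)

/-- Approximations: generators of the ideal and sets promised to be positive. -/
abbrev St := Set (Set (Finset ℕ)) × Set (Set ℕ)

/-- The admissible approximations. -/
structure Valid (σ : St) : Prop where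
  good : Good σ.1
  count : σ.2.Countable
  pos : ∀ C ∈ σ.2, C ∉ J σ.1
  univ_mem : univ ∈ σ.2

/-- A code, and a sequence of sets. -/
abbrev Task := (ℕ → ℕ → Set (Finset ℕ)) × (ℕ → Set ℕ)

/-- The task is done. -/
structure Done (t : Task) (σ : St) : Prop where
  dec : t.2 0 ∈ J σ.1 ∨ t.2 0 ∈ σ.2
  split : t.2 0 ∈ J σ.1 ∨ ∃ D ∈ σ.2, ∃ D' ∈ σ.2, D ⊆ t.2 0 ∧ D' ⊆ t.2 0 ∧ Disjoint D D'
  seq : (∀ i, t.2 (i + 1) ⊆ t.2 i) → (∃ i, t.2 i ∈ J σ.1) ∨ ∃ B ∈ σ.2, ∀ i, (B \ t.2 i).Finite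
  kill : (∀ n j, t.1 n j ⊆ t.1 n (j + 1)) → t.2 0 ∈ J σ.1 ∨
    ∃ D ∈ σ.2, D ⊆ t.2 0 ∧ Killed t.1 (J σ.1) D

theorem Valid.insert {σ : St} (h : Valid σ) {C : Set ℕ} (hC : C ∉ J σ.1) :
    Valid (σ.1, insert C σ.2) := by
  refine ⟨h.good, h.count.insert C, ?_, Or.inr h.univ_mem⟩
  rintro D (rfl | hD)
  · exact hC
  · exact h.pos D hD

theorem exists_step {σ : St} (h : Valid σ) (t : Task) : ∃ σ', Valid σ' ∧ σ ≤ σ' ∧ Done t σ' := by
  -- kill
  obtain ⟨σ₁, hv₁, hle₁, hk₁⟩ : ∃ σ₁, Valid σ₁ ∧ σ ≤ σ₁ ∧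
      ((∀ n j, t.1 n j ⊆ t.1 n (j + 1)) → t.2 0 ∈ J σ₁.1 ∨
        ∃ D ∈ σ₁.2, D ⊆ t.2 0 ∧ Killed t.1 (J σ₁.1) D) := by
    by_cases h1 : t.2 0 ∈ J σ.1
    · exact ⟨σ, h, le_rfl, fun _ => Or.inl h1⟩
    by_cases h2 : ∀ n j, t.1 n j ⊆ t.1 n (j + 1)
    · obtain ⟨𝕂', h3, h4, h5, D, h6, h7, h8⟩ := exists_kill h.good h1 h.count h.pos h2
      exact ⟨(𝕂', insert D σ.2), ⟨h4, h.count.insert D, by
        rintro C (rfl | hC)
        · exact h7
        · exact h5 C hC, Or.inr h.univ_mem⟩, ⟨h3, subset_insert _ _⟩,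
        fun _ => Or.inr ⟨D, mem_insert _ _, h6, h8⟩⟩
    · exact ⟨σ, h, le_rfl, fun h3 => absurd h3 h2⟩
  -- decide
  obtain ⟨𝒜₂, hv₂, hle₂, hk₂⟩ : ∃ 𝒜₂, Valid (σ₁.1, 𝒜₂) ∧ σ₁.2 ⊆ 𝒜₂ ∧
      (t.2 0 ∈ J σ₁.1 ∨ t.2 0 ∈ 𝒜₂) := by
    by_cases h1 : t.2 0 ∈ J σ₁.1
    · exact ⟨σ₁.2, hv₁, subset_rfl, Or.inl h1⟩
    · exact ⟨_, hv₁.insert h1, subset_insert _ _, Or.inr (mem_insert _ _)⟩
  -- split
  obtain ⟨𝒜₃, hv₃, hle₃, hk₃⟩ : ∃ 𝒜₃, Valid (σ₁.1, 𝒜₃) ∧ 𝒜₂ ⊆ 𝒜₃ ∧
      (t.2 0 ∈ J σ₁.1 ∨ ∃ D ∈ 𝒜₃, ∃ D' ∈ 𝒜₃, D ⊆ t.2 0 ∧ D' ⊆ t.2 0 ∧ Disjoint D D') := by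
    by_cases h1 : t.2 0 ∈ J σ₁.1
    · exact ⟨𝒜₂, hv₂, subset_rfl, Or.inl h1⟩
    · obtain ⟨A', h2, h3, h4⟩ := exists_thin hv₁.good h1 (countable_singleton (t.2 0))
        (fun C hC => by rw [hC]; exact h1)
      have h5 := h4 _ rfl
      refine ⟨_, (hv₂.insert (C := A') h3).insert (C := t.2 0 \ A') h5,
        (subset_insert _ _).trans (subset_insert _ _), Or.inr ⟨A', Or.inr (mem_insert _ _),
          t.2 0 \ A', mem_insert _ _, h2, sdiff_subset, disjoint_sdiff_right⟩⟩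
  -- sequence
  obtain ⟨𝒜₄, hv₄, hle₄, hk₄⟩ : ∃ 𝒜₄, Valid (σ₁.1, 𝒜₄) ∧ 𝒜₃ ⊆ 𝒜₄ ∧
      ((∀ i, t.2 (i + 1) ⊆ t.2 i) → (∃ i, t.2 i ∈ J σ₁.1) ∨
        ∃ B ∈ 𝒜₄, ∀ i, (B \ t.2 i).Finite) := by
    by_cases h1 : ∃ i, t.2 i ∈ J σ₁.1
    · exact ⟨𝒜₃, hv₃, subset_rfl, fun _ => Or.inl h1⟩
    by_cases h2 : ∀ i, t.2 (i + 1) ⊆ t.2 i
    · push Not at h1
      obtain ⟨B, h3, h4⟩ := exists_pseudo hv₁.good t.2 h2 h1
      exact ⟨_, hv₃.insert h3, subset_insert _ _, fun _ => Or.inr ⟨B, mem_insert _ _, h4⟩⟩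
    · exact ⟨𝒜₃, hv₃, subset_rfl, fun h3 => absurd h3 h2⟩
  refine ⟨(σ₁.1, 𝒜₄), hv₄, ⟨hle₁.1, hle₁.2.trans (hle₂.trans (hle₃.trans hle₄))⟩, ?_, ?_, hk₄, ?_⟩
  · exact hk₂.imp id fun h => hle₄ (hle₃ h)
  · rcases hk₃ with h | ⟨D, h1, D', h2, h3⟩
    · exact Or.inl h
    · exact Or.inr ⟨D, hle₄ h1, D', hle₄ h2, h3⟩
  · intro hm
    rcases hk₁ hm with h | ⟨D, h1, h2⟩
    · exact Or.inl h
    · exact Or.inr ⟨D, hle₄ (hle₃ (hle₂ h1)), h2⟩

/-! ### Recursions -/

/-- A step function. -/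
structure IsStep (st : St → Task → St) : Prop where
  valid : ∀ σ t, Valid σ → Valid (st σ t)
  le : ∀ σ t, Valid σ → σ ≤ st σ t

/-- The result of the recursion along the sequence `s` of tasks. -/
noncomputable def run (st : St → Task → St) (s : Om → Task) (a : Om) : St :=
  st (base ∪ ⋃ b : {b : Om // b < a}, (run st s b.1).1,
    {univ} ∪ ⋃ b : {b : Om // b < a}, (run st s b.1).2) (s a)
termination_by a
decreasing_by all_goals exact b.2

/-- The approximation before the stage `a`. -/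
noncomputable def prev (st : St → Task → St) (s : Om → Task) (a : Om) : St :=
  (base ∪ ⋃ b : {b : Om // b < a}, (run st s b.1).1,
    {univ} ∪ ⋃ b : {b : Om // b < a}, (run st s b.1).2)

theorem run_eq (st : St → Task → St) (s : Om → Task) (a : Om) :
    run st s a = st (prev st s a) (s a) := by
  rw [run, prev]

theorem run_congr {st : St → Task → St} {s s' : Om → Task} {a : Om} (h : ∀ b ≤ a, s b = s' b) :
    run st s a = run st s' a := by
  induction a using WellFoundedLT.induction with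
  | _ a ih =>
    have h1 : prev st s a = prev st s' a := by
      rw [prev, prev]
      have h2 : ∀ b : {b : Om // b < a}, run st s b.1 = run st s' b.1 := fun b =>
        ih b.1 b.2 fun c hc => h c (hc.trans b.2.le)
      simp only [h2]
    rw [run_eq, run_eq, h1, h a le_rfl]

theorem prev_congr {st : St → Task → St} {s s' : Om → Task} {a : Om} (h : ∀ b < a, s b = s' b) :
    prev st s a = prev st s' a := by
  rw [prev, prev]
  have h2 : ∀ b : {b : Om // b < a}, run st s b.1 = run st s' b.1 := fun b =>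
    run_congr fun c hc => h c (hc.trans_lt b.2)
  simp only [h2]

theorem run_le_prev (st : St → Task → St) (s : Om → Task) {a b : Om} (h : b < a) :
    run st s b ≤ prev st s a :=
  ⟨fun _ hK => Or.inr (mem_iUnion.2 ⟨⟨b, h⟩, hK⟩), fun _ hK => Or.inr (mem_iUnion.2 ⟨⟨b, h⟩, hK⟩)⟩

theorem prev_valid_aux {st : St → Task → St} {s : Om → Task} {a : Om}
    (hv : ∀ b < a, Valid (run st s b)) (hm : ∀ b < a, ∀ c < b, run st s c ≤ run st s b) :
    Valid (prev st s a) := by
  have hcount : Countable {b : Om // b < a} := countable_Iio a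
  have hmono : ∀ b < a, ∀ c ≤ b, run st s c ≤ run st s b := by
    intro b hb c hc
    rcases hc.eq_or_lt with rfl | hc
    · exact le_rfl
    · exact hm b hb c hc
  refine ⟨⟨?_, ?_, subset_union_left⟩, ?_, ?_, Or.inl rfl⟩
  · exact good_base.count.union (countable_iUnion fun b => (hv b.1 b.2).good.count)
  · rintro K (hK | hK)
    · exact good_base.hered K hK
    · obtain ⟨b, hb⟩ := mem_iUnion.1 hK
      exact (hv b.1 b.2).good.hered K hb
  · exact (countable_singleton _).union (countable_iUnion fun b => (hv b.1 b.2).count)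
  · -- the finitely many generators occur in one approximation
    have key : ∀ l : List (Set (Finset ℕ)), (∀ K ∈ l, K ∈ (prev st s a).1) →
        (∀ K ∈ l, K ∈ base) ∨ ∃ b < a, ∀ K ∈ l, K ∈ (run st s b).1 := by
      intro l
      induction l with
      | nil => exact fun _ => Or.inl (by simp)
      | cons K l ih =>
        intro hl
        have hb0 : ∀ b < a, ∀ K ∈ base, K ∈ (run st s b).1 := fun b hb K hK =>
          (hv b hb).good.base hK
        rcases hl K List.mem_cons_self with hK | hK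
        · rcases ih fun K' hK' => hl K' (List.mem_cons_of_mem _ hK') with h | ⟨b, hb, h⟩
          · left
            intro K' hK'
            rcases List.mem_cons.1 hK' with rfl | hK'
            · exact hK
            · exact h K' hK'
          · right
            refine ⟨b, hb, fun K' hK' => ?_⟩
            rcases List.mem_cons.1 hK' with rfl | hK'
            · exact hb0 b hb _ hK
            · exact h K' hK'
        · obtain ⟨⟨b, hb⟩, hbK⟩ := mem_iUnion.1 hK
          right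
          rcases ih fun K' hK' => hl K' (List.mem_cons_of_mem _ hK') with h | ⟨c, hc, h⟩
          · refine ⟨b, hb, fun K' hK' => ?_⟩
            rcases List.mem_cons.1 hK' with rfl | hK'
            · exact hbK
            · exact hb0 b hb _ (h K' hK')
          · refine ⟨max b c, max_lt hb hc, fun K' hK' => ?_⟩
            rcases List.mem_cons.1 hK' with rfl | hK'
            · exact (hmono _ (max_lt hb hc) b (le_max_left _ _)).1 hbK
            · exact (hmono _ (max_lt hb hc) c (le_max_right _ _)).1 (h K' hK')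
    rintro C (hC | hC) hCJ
    · obtain ⟨l, hl, hF⟩ := hCJ
      have hC' : C = univ := hC
      subst hC'
      rcases key l hl with h | ⟨b, hb, h⟩
      · exact univ_not_base ⟨l, h, hF⟩
      · exact (hv b hb).pos _ (hv b hb).univ_mem ⟨l, h, hF⟩
    · obtain ⟨⟨c, hc⟩, hcC⟩ := mem_iUnion.1 hC
      obtain ⟨l, hl, hF⟩ := hCJ
      rcases key l hl with h | ⟨b, hb, h⟩
      · exact (hv c hc).pos _ hcC ⟨l, fun K hK => (hv c hc).good.base (h K hK), hF⟩
      · have h1 := hmono _ (max_lt hb hc) b (le_max_left _ _)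
        have h2 := hmono _ (max_lt hb hc) c (le_max_right _ _)
        exact (hv _ (max_lt hb hc)).pos _ (h2.2 hcC) ⟨l, fun K hK => h1.1 (h K hK), hF⟩

theorem run_valid_aux {st : St → Task → St} (hst : IsStep st) (s : Om → Task) (a : Om) :
    Valid (run st s a) ∧ ∀ b < a, run st s b ≤ run st s a := by
  induction a using WellFoundedLT.induction with
  | _ a ih =>
    have h1 : Valid (prev st s a) := prev_valid_aux (fun b hb => (ih b hb).1)
      (fun b hb => (ih b hb).2)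
    rw [run_eq]
    exact ⟨hst.valid _ _ h1, fun b hb => (run_le_prev st s hb).trans (hst.le _ _ h1)⟩

theorem run_valid {st : St → Task → St} (hst : IsStep st) (s : Om → Task) (a : Om) :
    Valid (run st s a) := (run_valid_aux hst s a).1

theorem run_mono {st : St → Task → St} (hst : IsStep st) (s : Om → Task) {a b : Om} (h : b ≤ a) :
    run st s b ≤ run st s a := by
  rcases h.eq_or_lt with rfl | h
  · exact le_rfl
  · exact (run_valid_aux hst s a).2 b h

theorem prev_valid {st : St → Task → St} (hst : IsStep st) (s : Om → Task) (a : Om) :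
    Valid (prev st s a) :=
  prev_valid_aux (fun b _ => run_valid hst s b) fun _ _ _ h => run_mono hst s h.le

/-! ### The simple step -/

open Classical in
/-- Do the task. -/
noncomputable def step (σ : St) (t : Task) : St :=
  if h : Valid σ then (exists_step h t).choose else σ

theorem step_spec {σ : St} (h : Valid σ) (t : Task) :
    Valid (step σ t) ∧ σ ≤ step σ t ∧ Done t (step σ t) := by
  rw [step, dif_pos h]
  exact (exists_step h t).choose_spec

theorem isStep_step : IsStep step :=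
  ⟨fun _ t h => (step_spec h t).1, fun _ t h => (step_spec h t).2.1⟩

end Pool.Agent.K7.H48.IC
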