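import Pool.Agent.Helper669.Forcing

/-!
# Laver-like Namba forcing, `ω₁`-trees and names of branches

Sentences of the forcing language are the sets of the conditions which force them, see
`Pool.Agent.Helper669.Forcing`. A name for a subset of a ground model set `T` is a map `b` from
`T` to the sets of conditions; `meets (b x)` is the sentence saying that `x` is in the set named
by `b`.
-/

set_option autoImplicit false

namespace Pool.Agent.K7.H48.Namba

open Cardinal Ordinal Pool.Agent.Helper669.Forcing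

universe u

/-! ### Definitions -/

/-- The conditions of the Laver-like Namba forcing on the set `K` (of cardinality `ℵ₂`): nonempty
trees of finite sequences of elements of `K`, closed under initial segments, with a stem such that
all nodes are comparable with the stem, and all nodes extending the stem have `ℵ₂` many immediate
successors. -/
structure Nm (K : Type u) where
  tree : Set (List K)
  closed : ∀ t ∈ tree, ∀ r, r <+: t → r ∈ tree
  stem : List K
  stem_mem : stem ∈ tree
  comparable : ∀ t ∈ tree, t <+: stem ∨ stem <+: t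
  large : ∀ t ∈ tree, stem <+: t → #{a : K | t ++ [a] ∈ tree} = ℵ_ 2

/-- `q ≤ p` iff the tree `q` is contained in the tree `p`. -/
instance (K : Type u) : Preorder (Nm K) where
  le q p := q.tree ⊆ p.tree
  le_refl _ := subset_rfl
  le_trans _ _ _ h h' := h.trans h'

/-- `T` is an `ω₁`-tree, `ht x` is the height of the element `x`: below `y` there is exactly one
element of each height less than the height of `y`, all heights are less than `ω₁`, all
levels `α < ω₁` are nonempty, and all levels are countable. -/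
structure IsOmegaOneTree (T : Type u) [PartialOrder T] (ht : T → Ordinal.{u}) : Prop where
  ht_lt : ∀ x, ht x < ω₁
  strict : ∀ x y, x < y → ht x < ht y
  pred : ∀ y, ∀ α < ht y, ∃ x, x < y ∧ ht x = α
  pred_unique : ∀ y x x', x < y → x' < y → ht x = ht x' → x = x'
  level_nonempty : ∀ α < ω₁, ∃ x, ht x = α
  level_countable : ∀ α, {x | ht x = α}.Countable

section

variable {P : Type u} [Preorder P]

/-- The set named by `b` is a cofinal branch of `T`: it is linearly ordered, closed downwards,
and it meets every level. -/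
def fBranch {T : Type u} [PartialOrder T] (ht : T → Ordinal.{u}) (b : T → Set P) : Set P :=
  fand
    (fall fun x => fall fun y => fimp (fand (meets (b x)) (meets (b y))) (fground (x ≤ y ∨ y ≤ x)))
    (fand (fall fun x => fall fun y => fall fun _ : x ≤ y => fimp (meets (b y)) (meets (b x)))
      (fall fun α : Ordinal.{u} => fall fun _ : α < ω₁ =>
        fex fun x : T => fand (fground (ht x = α)) (meets (b x))))

/-- The set named by `b` is equal to the ground model set `B`. -/
def fEqGround {T : Type u} (b : T → Set P) (B : Set T) : Set P :=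
  fall fun x => fand (fimp (meets (b x)) (fground (x ∈ B))) (fimp (fground (x ∈ B)) (meets (b x)))

end

/-! ### Regular sentences -/

section

variable {P : Type u} [Preorder P]

/-- A sentence which is forced by `p` if it is forced by densely many conditions below `p`. -/
def Reg (φ : Set P) : Prop := ∀ p, (∀ q ≤ p, ∃ r ≤ q, r ∈ φ) → p ∈ φ

theorem reg_meets (N : Set P) : Reg (meets N) := by
  intro p h q hq
  obtain ⟨r, hr, hr'⟩ := h q hq
  obtain ⟨t, ht, s, hs, hts⟩ := hr' r le_rfl
  exact ⟨t, ht.trans hr, s, hs, hts⟩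

end

/-! ### Small sets -/

/-- A set with at most `ℵ₁` many elements. -/
def Small {K : Type u} (S : Set K) : Prop := #S ≤ ℵ_ 1

theorem Small.mono {K : Type u} {S S' : Set K} (h : Small S') (hS : S ⊆ S') : Small S :=
  (Cardinal.mk_le_mk_of_subset hS).trans h

theorem small_iUnion {K ι : Type u} (hι : #ι ≤ ℵ_ 1) {S : ι → Set K} (h : ∀ i, Small (S i)) :
    Small (⋃ i, S i) := by
  refine (Cardinal.mk_iUnion_le S).trans ?_
  have h0 : ℵ₀ ≤ ℵ_ (1 : Ordinal.{u}) := Cardinal.aleph0_le_aleph 1
  calc #ι * ⨆ i, #(S i) ≤ ℵ_ 1 * ℵ_ 1 := mul_le_mul' hι (ciSup_le' h)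
    _ = ℵ_ 1 := Cardinal.mul_eq_self h0

theorem small_union {K : Type u} {S S' : Set K} (h : Small S) (h' : Small S') :
    Small (S ∪ S') := by
  have h0 : ℵ₀ ≤ ℵ_ (1 : Ordinal.{u}) := Cardinal.aleph0_le_aleph 1
  exact (Cardinal.mk_union_le S S').trans (Cardinal.add_le_of_le h0 h h')

theorem aleph_two_eq : (ℵ_ 2 : Cardinal.{u}) = Order.succ (ℵ_ 1) := by
  rw [Cardinal.succ_aleph, one_add_one_eq_two]

theorem not_small_iff {K : Type u} {S : Set K} : ¬ Small S ↔ ℵ_ 2 ≤ #S := by
  rw [Small, not_le, aleph_two_eq, Order.succ_le_iff]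

/-- The pigeonhole principle. -/
theorem pigeonhole {K ι : Type u} (hι : #ι ≤ ℵ_ 1) {S : Set K} (hS : ¬ Small S)
    (R : K → ι → Prop) (hR : ∀ a ∈ S, ∃ i, R a i) : ∃ i, ¬ Small {a | a ∈ S ∧ R a i} := by
  by_contra hcon
  push Not at hcon
  refine hS ((small_iUnion hι hcon).mono fun a ha => ?_)
  obtain ⟨i, hi⟩ := hR a ha
  exact Set.mem_iUnion.2 ⟨i, ha, hi⟩

/-! ### Basic facts about the conditions -/

variable {K : Type u}

theorem le_def {q p : Nm K} : q ≤ p ↔ q.tree ⊆ p.tree := Iff.rfl

theorem Nm.not_small (p : Nm K) {t : List K} (ht : t ∈ p.tree) (hst : p.stem <+: t) :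
    ¬ Small {a : K | t ++ [a] ∈ p.tree} := not_small_iff.2 (p.large t ht hst).ge

theorem exists_two {S : Set K} (h : ¬ Small S) : ∃ a ∈ S, ∃ b ∈ S, a ≠ b := by
  by_contra hcon
  push Not at hcon
  refine h ?_
  have : S.Subsingleton := fun a ha b hb => hcon a ha b hb
  refine (Cardinal.mk_le_one_iff_set_subsingleton.2 this).trans ?_
  exact (Cardinal.one_lt_aleph0.le).trans (Cardinal.aleph0_le_aleph 1)

theorem prefix_of_le {l r : List K} (h : l <+: r ∨ r <+: l) (hl : l.length ≤ r.length) :
    l <+: r := by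
  rcases h with h | h
  · exact h
  · rw [h.eq_of_length (le_antisymm h.length_le hl)]

/-- The stem grows. -/
theorem stem_prefix {q p : Nm K} (h : q ≤ p) : p.stem <+: q.stem := by
  rcases p.comparable _ (h q.stem_mem) with h1 | h1
  · by_contra hne
    obtain ⟨a, ha, b, hb, hab⟩ := exists_two (q.not_small q.stem_mem List.prefix_rfl)
    have hlt : q.stem.length < p.stem.length := by
      refine lt_of_le_of_ne h1.length_le fun he => hne ?_
      rw [h1.eq_of_length he]
    have h2 : ∀ c, q.stem ++ [c] ∈ q.tree → q.stem ++ [c] <+: p.stem := fun c hc =>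
      prefix_of_le (p.comparable _ (h hc)) (by
        rw [List.length_append, List.length_singleton]; exact hlt)
    have h3 := List.prefix_of_prefix_length_le (h2 a ha) (h2 b hb) (by simp)
    have h4 := h3.eq_of_length (by simp)
    have h5 := List.append_cancel_left h4
    exact hab (List.singleton_inj.1 h5)
  · exact h1

/-- The part of the condition `p` through the node `t`. -/
def restrict (p : Nm K) (t : List K) (ht : t ∈ p.tree) (hst : p.stem <+: t) : Nm K where
  tree := {r | r ∈ p.tree ∧ (r <+: t ∨ t <+: r)}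
  closed := by
    rintro r ⟨hr, hr'⟩ s hs
    refine ⟨p.closed r hr s hs, ?_⟩
    rcases hr' with hr' | hr'
    · exact Or.inl (hs.trans hr')
    · exact List.prefix_or_prefix_of_prefix hs hr'
  stem := t
  stem_mem := ⟨ht, Or.inl List.prefix_rfl⟩
  comparable := fun r hr => hr.2
  large := by
    rintro r ⟨hr, -⟩ hr'
    have : {a : K | r ++ [a] ∈ {r | r ∈ p.tree ∧ (r <+: t ∨ t <+: r)}} =
        {a : K | r ++ [a] ∈ p.tree} := by
      ext a
      exact ⟨fun h => h.1, fun h => ⟨h, Or.inr (hr'.trans (List.prefix_append _ _))⟩⟩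
    rw [this]
    exact p.large r hr (hst.trans hr')

theorem restrict_le (p : Nm K) (t : List K) (ht : t ∈ p.tree) (hst : p.stem <+: t) :
    restrict p t ht hst ≤ p := fun _ hr => hr.1

/-- The set of all `a` such that some condition below `r` with the property `Φ` has the stem of
`r` followed by `a` as its stem. -/
def Next (Φ : Nm K → Prop) (r : Nm K) : Set K := {a | ∃ r' ≤ r, r'.stem = r.stem ++ [a] ∧ Φ r'}

/-! ### Fusion -/

section fusion

variable {Φ : Nm K → Prop}

/-- The conditions used for the fusion. -/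
inductive Run (r₀ : Nm K) (N : Nm K → K → Nm K) (D : Nm K → Set K) : Nm K → Prop
  | base : Run r₀ N D r₀
  | step (r : Nm K) (a : K) (hr : Run r₀ N D r) (ha : a ∈ D r) : Run r₀ N D (N r a)

variable {r₀ : Nm K} {N : Nm K → K → Nm K} {D : Nm K → Set K}

theorem Run.good (h : ∀ r, Φ r → ∀ a ∈ D r, N r a ≤ r ∧ (N r a).stem = r.stem ++ [a] ∧ Φ (N r a))
    (h₀ : Φ r₀) {r : Nm K} (hr : Run r₀ N D r) :
    Φ r ∧ r ≤ r₀ ∧ (r = r₀ ∨ r₀.stem.length < r.stem.length) := by
  induction hr with
  | base => exact ⟨h₀, le_rfl, Or.inl rfl⟩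
  | step r a hr ha ih =>
    obtain ⟨h1, h2, h3⟩ := h r ih.1 a ha
    refine ⟨h3, h1.trans ih.2.1, Or.inr ?_⟩
    rw [h2, List.length_append, List.length_singleton]
    rcases ih.2.2 with rfl | h4
    · exact Nat.lt_succ_self _
    · omega

theorem Run.unique
    (h : ∀ r, Φ r → ∀ a ∈ D r, N r a ≤ r ∧ (N r a).stem = r.stem ++ [a] ∧ Φ (N r a))
    (h₀ : Φ r₀) {r : Nm K} (hr : Run r₀ N D r) :
    ∀ {r' : Nm K}, Run r₀ N D r' → r.stem = r'.stem → r = r' := by
  induction hr with
  | base =>
    intro r' hr' he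
    rcases (hr'.good h h₀).2.2 with h1 | h1
    · exact h1.symm
    · rw [he] at h1
      exact absurd h1 (lt_irrefl _)
  | step r a hr ha ih =>
    intro r' hr' he
    have hg := hr.good h h₀
    have h1 := h r hg.1 a ha
    cases hr' with
    | base =>
      have h2 := ((Run.step r a hr ha).good h h₀).2.2
      rcases h2 with h2 | h2
      · exact h2
      · rw [he] at h2
        exact absurd h2 (lt_irrefl _)
    | step s b hs hb =>
      have h2 := h s (hs.good h h₀).1 b hb
      rw [h1.2.1, h2.2.1] at he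
      obtain ⟨h3, h4⟩ := List.append_inj' he rfl
      have h5 : a = b := List.singleton_inj.1 h4
      rw [ih hs h3, h5]

theorem Run.le_of_prefix
    (h : ∀ r, Φ r → ∀ a ∈ D r, N r a ≤ r ∧ (N r a).stem = r.stem ++ [a] ∧ Φ (N r a))
    (h₀ : Φ r₀) {r : Nm K} (hr : Run r₀ N D r) :
    ∀ {r' : Nm K}, Run r₀ N D r' → r'.stem <+: r.stem → r ≤ r' := by
  induction hr with
  | base =>
    intro r' hr' he
    rcases (hr'.good h h₀).2.2 with h1 | h1
    · exact h1.ge
    · exact absurd he.length_le (not_le.2 h1)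
  | step r a hr ha ih =>
    intro r' hr' he
    have hg := hr.good h h₀
    have h1 := h r hg.1 a ha
    rw [h1.2.1] at he
    rcases List.prefix_concat_iff.1 he with h2 | h2
    · exact ((Run.step r a hr ha).unique h h₀ hr' (by rw [h1.2.1, h2])).le
    · exact h1.1.trans (ih hr' h2)

theorem Run.exists_of_prefix
    (h : ∀ r, Φ r → ∀ a ∈ D r, N r a ≤ r ∧ (N r a).stem = r.stem ++ [a] ∧ Φ (N r a))
    (h₀ : Φ r₀) {r : Nm K} (hr : Run r₀ N D r) :
    ∀ t, r₀.stem <+: t → t <+: r.stem → ∃ r', Run r₀ N D r' ∧ r'.stem = t := by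
  induction hr with
  | base =>
    intro t h1 h2
    exact ⟨r₀, Run.base, h1.eq_of_length (le_antisymm h1.length_le h2.length_le)⟩
  | step r a hr ha ih =>
    intro t h1 h2
    have h3 := h r (hr.good h h₀).1 a ha
    rw [h3.2.1] at h2
    rcases List.prefix_concat_iff.1 h2 with h4 | h4
    · exact ⟨_, Run.step r a hr ha, h3.2.1.trans h4.symm⟩
    · exact ih t h1 h4

/-- The fusion lemma. -/
theorem fusion (hK : #K = ℵ_ 2) (h : ∀ r, Φ r → ¬ Small (Next Φ r)) (r₀ : Nm K) (h₀ : Φ r₀) :
    ∃ q ≤ r₀, q.stem = r₀.stem ∧ ∀ q' ≤ q, ∃ r', r'.stem = q'.stem ∧ Φ r' ∧ q' ≤ r' := by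
  classical
  have h1 : ∀ (r : Nm K) (a : K), ∃ r' : Nm K, Φ r → a ∈ Next Φ r →
      r' ≤ r ∧ r'.stem = r.stem ++ [a] ∧ Φ r' := by
    intro r a
    by_cases ha : a ∈ Next Φ r
    · obtain ⟨r', h1, h2, h3⟩ := ha
      exact ⟨r', fun _ _ => ⟨h1, h2, h3⟩⟩
    · exact ⟨r, fun _ h => absurd h ha⟩
  choose N hN using h1
  have hN' : ∀ r, Φ r → ∀ a ∈ Next Φ r, N r a ≤ r ∧ (N r a).stem = r.stem ++ [a] ∧ Φ (N r a) :=
    fun r hr a ha => hN r a hr ha
  let q : Nm K :=
    { tree := {t | ∃ r, Run r₀ N (Next Φ) r ∧ t <+: r.stem}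
      closed := by
        rintro t ⟨r, hr, ht⟩ s hs
        exact ⟨r, hr, hs.trans ht⟩
      stem := r₀.stem
      stem_mem := ⟨r₀, Run.base, List.prefix_rfl⟩
      comparable := by
        rintro t ⟨r, hr, ht⟩
        exact List.prefix_or_prefix_of_prefix ht (stem_prefix (hr.good hN' h₀).2.1)
      large := by
        rintro t ⟨r, hr, ht⟩ hst
        obtain ⟨r', hr', rfl⟩ := hr.exists_of_prefix hN' h₀ t hst ht
        refine le_antisymm ((Cardinal.mk_set_le _).trans hK.le) (not_small_iff.1 fun hs => ?_)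
        refine h r' (hr'.good hN' h₀).1 (hs.mono fun a ha => ?_)
        have h2 := hN' r' (hr'.good hN' h₀).1 a ha
        exact ⟨N r' a, Run.step r' a hr' ha, by rw [h2.2.1]⟩ }
  refine ⟨q, ?_, rfl, ?_⟩
  · rintro t ⟨r, hr, ht⟩
    exact r₀.closed _ ((hr.good hN' h₀).2.1 r.stem_mem) _ ht
  · intro q' hq'
    obtain ⟨r, hr, ht⟩ := hq' q'.stem_mem
    obtain ⟨r', hr', he⟩ := hr.exists_of_prefix hN' h₀ q'.stem
      (show q.stem <+: q'.stem from stem_prefix hq') ht
    refine ⟨r', he, (hr'.good hN' h₀).1, fun w hw => ?_⟩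
    obtain ⟨r₂, hr₂, hw₂⟩ := hq' hw
    rcases q'.comparable w hw with h2 | h2
    · exact r'.closed _ r'.stem_mem _ (he ▸ h2)
    · have h3 : r'.stem <+: r₂.stem := he ▸ (h2.trans hw₂)
      exact r'.closed _ ((hr₂.le_of_prefix hN' h₀ hr' h3) r₂.stem_mem) _ hw₂

end fusion

end Pool.Agent.K7.H48.Namba
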