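import Pool.Agent.K7.H48.NambaDefs

/-!
# New branches of `ω₁`-trees and the Laver-like Namba forcing
-/

set_option autoImplicit false

namespace Pool.Agent.K7.H48.Namba

open Cardinal Ordinal Pool.Agent.Helper669.Forcing

universe u

variable {K : Type u}

/-- In all but a small set of directions, `Ψ` fails for the restrictions. -/
theorem not_small_of_next {Φ : Nm K → Prop} {r : Nm K} (hs : Small (Next Φ r)) :
    ¬ Small {a | ∃ (ha : r.stem ++ [a] ∈ r.tree),
      ¬ Φ (restrict r (r.stem ++ [a]) ha (List.prefix_append _ _))} := by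
  intro h
  refine r.not_small r.stem_mem List.prefix_rfl ((small_union hs h).mono fun a ha => ?_)
  by_cases h1 : Φ (restrict r (r.stem ++ [a]) ha (List.prefix_append _ _))
  · exact Or.inl ⟨_, restrict_le _ _ _ _, rfl, h1⟩
  · exact Or.inr ⟨ha, h1⟩

/-- Amalgamation. -/
theorem amalgam (hK : #K = ℵ_ 2) {φ : Set (Nm K)} (hd : Down φ) (hreg : Reg φ) {r : Nm K}
    (h : ¬ Small {a | ∃ q ≤ r, q.stem = r.stem ++ [a] ∧ q ∈ φ}) :
    ∃ q ≤ r, q.stem = r.stem ∧ q ∈ φ := by
  obtain ⟨q, hq, hqs, hq'⟩ := fusion (Φ := fun r' => r' = r ∨ r' ∈ φ) hK (by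
    rintro r' (rfl | hr')
    · intro hs
      refine h (hs.mono fun a ha => ?_)
      obtain ⟨q, h1, h2, h3⟩ := ha
      exact ⟨q, h1, h2, Or.inr h3⟩
    · intro hs
      refine r'.not_small r'.stem_mem List.prefix_rfl (hs.mono fun a ha => ?_)
      exact ⟨restrict r' _ ha (List.prefix_append _ _), restrict_le _ _ _ _, rfl,
        Or.inr (hd _ hr' _ (restrict_le _ _ _ _))⟩) r (Or.inl rfl)
  refine ⟨q, hq, hqs, hreg q fun q' hq'q => ?_⟩
  obtain ⟨a, ha, -, -, -⟩ := exists_two (q'.not_small q'.stem_mem List.prefix_rfl)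
  let q'' := restrict q' _ ha (List.prefix_append _ _)
  have hle : q'' ≤ q' := restrict_le _ _ _ _
  obtain ⟨r', h1, h2, h3⟩ := hq' q'' (hle.trans hq'q)
  refine ⟨q'', hle, ?_⟩
  rcases h2 with rfl | h2
  · exfalso
    have h4 : q''.stem = q'.stem ++ [a] := rfl
    have h5 := (stem_prefix hq'q).length_le
    rw [hqs, h1, h4, List.length_append, List.length_singleton] at h5
    omega
  · exact hd _ h2 _ h3

/-- Pure decision. -/
theorem pure_decision (hK : #K = ℵ_ 2) {ι : Type u} (hι : #ι ≤ ℵ_ 1) {φ : ι → Set (Nm K)}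
    (hd : ∀ i, Down (φ i)) (hreg : ∀ i, Reg (φ i)) {r : Nm K} (hr : r ∈ fex φ) :
    ∃ q ≤ r, q.stem = r.stem ∧ ∃ i, q ∈ φ i := by
  by_contra hcon
  push Not at hcon
  obtain ⟨q, hq, hqs, hq'⟩ := fusion
    (Φ := fun r' => ∀ q ≤ r', q.stem = r'.stem → ∀ i, q ∉ φ i) hK (by
      intro r' hr' hs
      obtain ⟨i, hi⟩ := pigeonhole hι (not_small_of_next hs) (fun a i =>
        ∃ q ≤ r', q.stem = r'.stem ++ [a] ∧ q ∈ φ i) (by
          rintro a ⟨ha, ha'⟩
          push Not at ha'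
          obtain ⟨q, h1, h2, i, h3⟩ := ha'
          exact ⟨i, q, h1.trans (restrict_le _ _ _ _), h2, h3⟩)
      obtain ⟨q, h1, h2, h3⟩ := amalgam hK (hd i) (hreg i) (r := r') fun hsm =>
        hi (hsm.mono fun a ha => ha.2)
      exact hr' q h1 h2 i h3) r hcon
  obtain ⟨q', hq'q, i, hi⟩ := mem_fex.1 hr q hq
  obtain ⟨r', h1, h2, h3⟩ := hq' q' hq'q
  exact h2 q' h3 h1.symm i hi

/-! ### Names of branches -/

variable {T : Type u} [PartialOrder T] {ht : T → Ordinal.{u}} {b : T → Set (Nm K)}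

theorem IsOmegaOneTree.le_of_le (hT : IsOmegaOneTree T ht) {x y z : T} (hx : x ≤ z) (hy : y ≤ z)
    (hxy : ht x ≤ ht y) : x ≤ y := by
  rcases hx.eq_or_lt with rfl | hx'
  · rcases hy.eq_or_lt with rfl | hy'
    · exact le_rfl
    · exact absurd hxy (not_le.2 (hT.strict _ _ hy'))
  · rcases hxy.eq_or_lt with he | hlt
    · rcases hy.eq_or_lt with rfl | hy'
      · exact hx
      · exact (hT.pred_unique z x y hx' hy' he).le
    · obtain ⟨x', hx'y, hx'e⟩ := hT.pred y (ht x) hlt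
      rw [← hT.pred_unique z x' x (hx'y.trans_le hy) hx' hx'e]
      exact hx'y.le

theorem IsOmegaOneTree.le_iff_of_comparable (hT : IsOmegaOneTree T ht) {x y : T}
    (h : x ≤ y ∨ y ≤ x) (hxy : ht x ≤ ht y) : x ≤ y := by
  rcases h with h | h
  · exact h
  · rcases h.eq_or_lt with rfl | h
    · exact le_rfl
    · exact absurd hxy (not_le.2 (hT.strict _ _ h))

theorem IsOmegaOneTree.eq_of_comparable (hT : IsOmegaOneTree T ht) {x y : T}
    (h : x ≤ y ∨ y ≤ x) (hxy : ht x = ht y) : x = y :=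
  le_antisymm (hT.le_iff_of_comparable h hxy.le) (hT.le_iff_of_comparable h.symm hxy.ge)

theorem IsOmegaOneTree.mk_le (hT : IsOmegaOneTree T ht) : #T ≤ ℵ_ 1 := by
  have h1 : (Set.univ : Set T) = ⋃ α : (ω₁ : Ordinal.{u}).ToType, {x | ht x = (α : Ordinal.{u})} := by
    ext x
    simp only [Set.mem_univ, Set.mem_iUnion, true_iff]
    exact ⟨Ordinal.ToType.mk ⟨ht x, hT.ht_lt x⟩, by simp⟩
  have h2 : Small (Set.univ : Set T) := by
    rw [h1]
    refine small_iUnion ?_ fun α => ?_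
    · rw [Cardinal.mk_toType, Ordinal.card_omega]
    · exact (Cardinal.le_aleph0_iff_set_countable.2 (hT.level_countable _)).trans
        (Cardinal.aleph0_le_aleph 1)
  rwa [Small, Cardinal.mk_univ] at h2

theorem branch_comparable {p : Nm K} (h : p ∈ fBranch ht b) {x y : T} {q : Nm K} (hq : q ≤ p)
    (hx : q ∈ meets (b x)) (hy : q ∈ meets (b y)) : x ≤ y ∨ y ≤ x := by
  obtain ⟨r, _, hr⟩ := mem_fimp.1 (h.1 x y) q hq ⟨hx, hy⟩
  exact hr

theorem branch_down {p : Nm K} (h : p ∈ fBranch ht b) {x y : T} (hxy : x ≤ y) {q : Nm K}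
    (hq : q ≤ p) (hy : q ∈ meets (b y)) : q ∈ meets (b x) :=
  reg_meets _ q fun q' hq' =>
    mem_fimp.1 (h.2.1 x y hxy) q' (hq'.trans hq) (down_meets _ _ hy _ hq')

/-- There is a pure extension deciding the element of the branch of height `α`. -/
theorem branch_decide (hK : #K = ℵ_ 2) (hT : IsOmegaOneTree T ht) {p : Nm K}
    (h : p ∈ fBranch ht b) {r : Nm K} (hr : r ≤ p) {α : Ordinal.{u}} (hα : α < ω₁) :
    ∃ q ≤ r, q.stem = r.stem ∧ ∃ x, ht x = α ∧ q ∈ meets (b x) := by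
  have hreg : ∀ x, Reg (fand (fground (ht x = α)) (meets (b x))) := by
    intro x p' hp'
    refine ⟨?_, reg_meets _ p' fun q hq => ?_⟩
    · obtain ⟨r, _, hr⟩ := hp' p' le_rfl
      exact hr.1
    · obtain ⟨r, hr, hr'⟩ := hp' q hq
      exact ⟨r, hr, hr'.2⟩
  obtain ⟨q, h1, h2, x, h3, h4⟩ := pure_decision hK hT.mk_le
    (φ := fun x => fand (fground (ht x = α)) (meets (b x)))
    (fun x => down_fand (down_fground _) (down_meets _)) hreg (down_fex _ _ (h.2.2 α hα) _ hr)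
  exact ⟨q, h1, h2, x, h3, h4⟩

/-- The set of all elements of `T` which some pure extension forces into the branch. -/
def Poss (b : T → Set (Nm K)) (r : Nm K) : Set T :=
  {x | ∃ q ≤ r, q.stem = r.stem ∧ q ∈ meets (b x)}

/-- If `Poss b r` is a chain then some pure extension of `r` forces that the branch is equal to
it. -/
theorem eqGround_of_chain (hK : #K = ℵ_ 2) (hT : IsOmegaOneTree T ht) {p : Nm K}
    (h : p ∈ fBranch ht b) {r : Nm K} (hr : r ≤ p)
    (hch : ∀ x ∈ Poss b r, ∀ y ∈ Poss b r, x ≤ y ∨ y ≤ x) :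
    ∃ q ≤ r, q ∈ fEqGround b (Poss b r) := by
  obtain ⟨q, hq, hqs, hq'⟩ := fusion (Φ := fun r' => Poss b r' ⊆ Poss b r) hK (by
    intro r' hr' hs
    obtain ⟨x, hx⟩ := pigeonhole hT.mk_le (not_small_of_next hs) (fun a x =>
      x ∉ Poss b r ∧ ∃ q ≤ r', q.stem = r'.stem ++ [a] ∧ q ∈ meets (b x)) (by
        rintro a ⟨ha, ha'⟩
        obtain ⟨x, ⟨q, h1, h2, h3⟩, hx'⟩ := Set.not_subset.1 ha'
        exact ⟨x, hx', q, h1.trans (restrict_le _ _ _ _), h2, h3⟩)
    have hxB : x ∉ Poss b r := by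
      by_contra hxB
      refine hx ?_
      have : {a | a ∈ {a | ∃ (ha : r'.stem ++ [a] ∈ r'.tree), ¬ Poss b (restrict r'
          (r'.stem ++ [a]) ha (List.prefix_append _ _)) ⊆ Poss b r} ∧ x ∉ Poss b r ∧
          ∃ q ≤ r', q.stem = r'.stem ++ [a] ∧ q ∈ meets (b x)} = ∅ := by
        ext a
        simp only [Set.mem_empty_iff_false, iff_false]
        rintro ⟨-, hx', -⟩
        exact hx' hxB
      rw [this, Small, Cardinal.mk_eq_zero]
      exact zero_le
    obtain ⟨q, h1, h2, h3⟩ := amalgam hK (down_meets _) (reg_meets (b x)) (r := r') fun hsm =>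
      hx (hsm.mono fun a ha => ha.2.2)
    exact hxB (hr' ⟨q, h1, h2, h3⟩)) r subset_rfl
  have hsub : ∀ q' ≤ q, ∀ x, q' ∈ meets (b x) → x ∈ Poss b r := by
    intro q' hq'q x hx
    obtain ⟨r', h1, h2, h3⟩ := hq' q' hq'q
    exact h2 ⟨q', h3, h1.symm, hx⟩
  refine ⟨q, hq, fun x => ⟨mem_fimp.2 fun q' hq'q hx => ⟨q', le_rfl, hsub q' hq'q x hx⟩,
    mem_fimp.2 fun q' hq'q hx => ?_⟩⟩
  obtain ⟨q'', hq'', y, hy1, hy2⟩ := mem_fex.1 (h.2.2 (ht x) (hT.ht_lt x)) q'
    (hq'q.trans (hq.trans hr))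
  have hy : y ∈ Poss b r := hsub q'' (hq''.trans hq'q) y hy2
  have hxy : x = y := hT.eq_of_comparable (hch x hx y hy) (Eq.symm hy1)
  exact ⟨q'', hq'', hxy ▸ hy2⟩

/-- If no condition below `p` forces that the branch is in the ground model then every condition
has pure extensions with contradictory decisions on almost all levels. -/
theorem exists_split (hK : #K = ℵ_ 2) (hT : IsOmegaOneTree T ht) {p : Nm K}
    (h : p ∈ fBranch ht b) (hnew : ∀ q ≤ p, ∀ B : Set T, q ∉ fEqGround b B) {r : Nm K}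
    (hr : r ≤ p) : ∃ β < ω₁, ∀ β', β ≤ β' → β' < ω₁ → ∃ (q : Bool → Nm K)
      (x : Bool → T), (∀ i, q i ≤ r ∧ (q i).stem = r.stem ∧ ht (x i) = β' ∧ q i ∈ meets (b (x i))) ∧
      x true ≠ x false := by
  have h1 : ∃ x ∈ Poss b r, ∃ y ∈ Poss b r, ¬ (x ≤ y ∨ y ≤ x) := by
    by_contra hcon
    push Not at hcon
    obtain ⟨q, hq, hq'⟩ := eqGround_of_chain hK hT h hr hcon
    exact hnew q (hq.trans hr) _ hq'
  obtain ⟨x, ⟨q, hq, hqs, hqx⟩, y, ⟨q', hq', hqs', hqy⟩, hxy⟩ := h1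
  refine ⟨max (ht x) (ht y), max_lt (hT.ht_lt x) (hT.ht_lt y), fun β' hβ hβ' => ?_⟩
  obtain ⟨q₁, h1, h2, x₁, h3, h4⟩ := branch_decide hK hT h (hq.trans hr) hβ'
  obtain ⟨q₂, h5, h6, x₂, h7, h8⟩ := branch_decide hK hT h (hq'.trans hr) hβ'
  refine ⟨fun i => cond i q₁ q₂, fun i => cond i x₁ x₂, ?_, ?_⟩
  · rintro (_ | _)
    · exact ⟨h5.trans hq', h6.trans hqs', h7, h8⟩
    · exact ⟨h1.trans hq, h2.trans hqs, h3, h4⟩
  · intro he
    have he' : x₁ = x₂ := he
    have h9 : x ≤ x₁ := hT.le_iff_of_comparable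
      (branch_comparable h (h1.trans (hq.trans hr)) (down_meets _ _ hqx _ h1) h4)
      (h3 ▸ (le_max_left _ _).trans hβ)
    have h10 : y ≤ x₁ := he' ▸ hT.le_iff_of_comparable
      (branch_comparable h (h5.trans (hq'.trans hr)) (down_meets _ _ hqy _ h5) h8)
      (h7 ▸ (le_max_right _ _).trans hβ)
    rcases le_total (ht x) (ht y) with hle | hle
    · exact hxy (Or.inl (hT.le_of_le h9 h10 hle))
    · exact hxy (Or.inr (hT.le_of_le h10 h9 hle))

/-! ### The game for a fixed sequence -/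

/-- `Lose b c ρ r`: the set named by `b` will not be forced to contain all `c n`, with rank `ρ`. -/
inductive Lose (b : T → Set (Nm K)) (c : ℕ → T) : Ordinal.{u} → Nm K → Prop
  | stop (ρ : Ordinal.{u}) (r : Nm K) (h : r ∉ meets (b (c r.stem.length))) : Lose b c ρ r
  | step (ρ : Ordinal.{u}) (r : Nm K) (A : Set K) (hA : Small A)
      (ρ' : Nm K → Ordinal.{u})
      (hρ : ∀ a ∉ A, ∀ r' ≤ r, r'.stem = r.stem ++ [a] → ρ' r' < ρ)
      (h : ∀ a ∉ A, ∀ r' ≤ r, r'.stem = r.stem ++ [a] → Lose b c (ρ' r') r') : Lose b c ρ r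

/-- For unbounded sequences everything is lost. -/
theorem exists_lose (hK : #K = ℵ_ 2) (hT : IsOmegaOneTree T ht) {p : Nm K}
    (h : p ∈ fBranch ht b) {c : ℕ → T} (hc : Monotone c) (hunb : ¬ ∃ y, ∀ n, c n ≤ y) {r : Nm K}
    (hr : r ≤ p) : ∃ ρ, Lose b c ρ r := by
  by_contra hcon
  obtain ⟨q, hq, hqs, hq'⟩ := fusion (Φ := fun r' => ¬ ∃ ρ, Lose b c ρ r') hK (by
    intro r' hr' hs
    have h1 : ∀ a ∉ Next (fun r' => ¬ ∃ ρ, Lose b c ρ r') r', ∀ r'' ≤ r',
        r''.stem = r'.stem ++ [a] → ∃ ρ, Lose b c ρ r'' := by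
      intro a ha r'' h1 h2
      by_contra h3
      exact ha ⟨r'', h1, h2, h3⟩
    have h2 : ∀ r'' : Nm K, ∃ ρ, (∃ ρ, Lose b c ρ r'') → Lose b c ρ r'' := by
      intro r''
      by_cases h3 : ∃ ρ, Lose b c ρ r''
      · obtain ⟨ρ, hρ⟩ := h3
        exact ⟨ρ, fun _ => hρ⟩
      · exact ⟨0, fun h4 => absurd h4 h3⟩
    choose ρ' hρ' using h2
    refine hr' ⟨Order.succ (⨆ r'', ρ' r''), Lose.step _ _ _ hs ρ' (fun a _ r'' _ _ => ?_)
      fun a ha r'' h3 h4 => hρ' r'' (h1 a ha r'' h3 h4)⟩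
    exact Order.lt_succ_of_le (le_ciSup Ordinal.bddAbove_of_small r'')) r hcon
  have hall : ∀ n, q ∈ meets (b (c n)) := by
    intro n
    refine reg_meets _ q fun q' hq'q => ?_
    -- extend until the stem is long enough
    have h1 : ∀ m, ∃ q'' ≤ q', m ≤ q''.stem.length := by
      intro m
      induction m with
      | zero => exact ⟨q', le_rfl, Nat.zero_le _⟩
      | succ m ih =>
        obtain ⟨q'', h1, h2⟩ := ih
        obtain ⟨a, ha, -, -, -⟩ := exists_two (q''.not_small q''.stem_mem List.prefix_rfl)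
        refine ⟨restrict q'' _ ha (List.prefix_append _ _), (restrict_le _ _ _ _).trans h1, ?_⟩
        show m + 1 ≤ (q''.stem ++ [a]).length
        rw [List.length_append, List.length_singleton]
        omega
    obtain ⟨q'', h2, h3⟩ := h1 n
    obtain ⟨r', h4, h5, h6⟩ := hq' q'' (h2.trans hq'q)
    refine ⟨q'', h2, branch_down h (hc h3) (h2.trans (hq'q.trans (hq.trans hr))) ?_⟩
    by_contra h7
    refine h5 ⟨0, Lose.stop _ _ fun h8 => h7 ?_⟩
    rw [h4] at h8
    exact down_meets _ _ h8 _ h6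
  have hδ : (⨆ n, ht (c n)) < ω₁ := Ordinal.iSup_lt_omega_one fun n => hT.ht_lt _
  obtain ⟨q', hq'q, y, hy1, hy2⟩ := mem_fex.1 (h.2.2 _ hδ) q (hq.trans hr)
  refine hunb ⟨y, fun n => hT.le_iff_of_comparable (branch_comparable h (hq'q.trans (hq.trans hr))
    (down_meets _ _ (hall n) _ hq'q) hy2) ?_⟩
  rw [show ht y = ⨆ n, ht (c n) from hy1]
  exact le_ciSup Ordinal.bddAbove_of_small n

/-! ### The tree of plays -/

/-- The least rank. -/
noncomputable def rk (b : T → Set (Nm K)) (c : ℕ → T) (r : Nm K) : Ordinal.{u} :=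
  sInf {ρ | Lose b c ρ r}

omit [PartialOrder T] in
theorem lose_rk {c : ℕ → T} {r : Nm K} (h : ∃ ρ, Lose b c ρ r) : Lose b c (rk b c r) r :=
  csInf_mem (s := {ρ | Lose b c ρ r}) h

omit [PartialOrder T] in
theorem exists_avoid (hC : #(ℕ → T) ≤ ℵ_ 1) (r : Nm K) :
    ∃ a, r.stem ++ [a] ∈ r.tree ∧ ∀ c : ℕ → T, (∃ ρ, Lose b c ρ r) →
      r ∈ meets (b (c r.stem.length)) → ∀ r' ≤ r, r'.stem = r.stem ++ [a] →
        rk b c r' < rk b c r ∧ ∃ ρ, Lose b c ρ r' := by
  have h1 : ∀ c : ℕ → T, ∃ A : Set K, Small A ∧ ((∃ ρ, Lose b c ρ r) →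
      r ∈ meets (b (c r.stem.length)) → ∀ a ∉ A, ∀ r' ≤ r, r'.stem = r.stem ++ [a] →
        rk b c r' < rk b c r ∧ ∃ ρ, Lose b c ρ r') := by
    intro c
    by_cases hc : (∃ ρ, Lose b c ρ r) ∧ r ∈ meets (b (c r.stem.length))
    · have h2 := lose_rk hc.1
      cases h2 with
      | stop _ _ h => exact absurd hc.2 h
      | step _ _ A hA ρ' hρ h =>
        refine ⟨A, hA, fun _ _ a ha r' hr' hr's => ?_⟩
        have h3 := h a ha r' hr' hr's
        exact ⟨(csInf_le' (s := {ρ | Lose b c ρ r'}) h3).trans_lt (hρ a ha r' hr' hr's), _, h3⟩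
    · refine ⟨∅, ?_, fun h3 h4 => absurd ⟨h3, h4⟩ hc⟩
      rw [Small, Cardinal.mk_eq_zero]
      exact zero_le
  choose A hA hA' using h1
  have h2 : ∃ a ∈ {a | r.stem ++ [a] ∈ r.tree}, a ∉ ⋃ c, A c := by
    by_contra hcon
    push Not at hcon
    exact r.not_small r.stem_mem List.prefix_rfl ((small_iUnion hC hA).mono hcon)
  obtain ⟨a, ha, ha'⟩ := h2
  refine ⟨a, ha, fun c h3 h4 => hA' c h3 h4 a fun h5 => ha' (Set.mem_iUnion.2 ⟨c, h5⟩)⟩

/-- The first `n` values of `f`, the last one first. -/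
def lst (f : ℕ → Bool) : ℕ → List Bool
  | 0 => []
  | n + 1 => f n :: lst f n

theorem lst_congr {f g : ℕ → Bool} {n : ℕ} (h : ∀ i < n, f i = g i) : lst f n = lst g n := by
  induction n with
  | zero => rfl
  | succ n ih =>
    rw [lst, lst, h n (Nat.lt_succ_self n), ih fun i hi => h i (hi.trans (Nat.lt_succ_self n))]

/-- The levels and the conditions of the tree of plays. -/
noncomputable def plays (p : Nm K) (β : Nm K → Ordinal.{u}) (nx : Nm K → Nm K)
    (Q : Nm K → Ordinal.{u} → Bool → Nm K) : ℕ → Ordinal.{u} × (List Bool → Nm K)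
  | 0 => (β p, fun _ => p)
  | n + 1 =>
    (max (plays p β nx Q n).1 (⨆ l : List Bool,
      β (nx (Q ((plays p β nx Q n).2 l.tail) (plays p β nx Q n).1 (l.headD false)))),
      fun l => nx (Q ((plays p β nx Q n).2 l.tail) (plays p β nx Q n).1 (l.headD false)))

theorem uncountable_seq : ¬ Countable (ℕ → Bool) := by
  have h2 : #(ℕ → Bool) = Cardinal.continuum := by simp
  intro h
  have h1 := Cardinal.mk_le_aleph0_iff.2 h
  rw [h2] at h1
  exact absurd h1 (not_le.2 Cardinal.aleph0_lt_continuum)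

theorem old_branch (hK : #K = ℵ_ 2) (hC : #(ℕ → T) ≤ ℵ_ 1) (hT : IsOmegaOneTree T ht) {p : Nm K}
    (h : p ∈ fBranch ht b) : ∃ q ≤ p, ∃ B : Set T, q ∈ fEqGround b B := by
  by_contra hnew
  push Not at hnew
  have h1 : ∀ r ≤ p, ∃ β < ω₁, ∀ β', β ≤ β' → β' < ω₁ → ∃ (q : Bool → Nm K)
      (x : Bool → T), (∀ i, q i ≤ r ∧ (q i).stem = r.stem ∧ ht (x i) = β' ∧ q i ∈ meets (b (x i))) ∧
      x true ≠ x false := fun r hr => exists_split hK hT h hnew hr
  have : Nonempty T := ⟨(hT.level_nonempty 0 (Ordinal.omega_pos 1)).choose⟩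
  choose! β hβ hβ' using h1
  choose! Q X hQ hX using hβ'
  choose a ha ha' using exists_avoid (b := b) hC
  let nx : Nm K → Nm K := fun r => restrict r (r.stem ++ [a r]) (ha r) (List.prefix_append _ _)
  have hnx1 : ∀ r, nx r ≤ r := fun r => restrict_le _ _ _ _
  have hnx2 : ∀ r, (nx r).stem = r.stem ++ [a r] := fun r => rfl
  let S := plays p β nx Q
  have hS2 : ∀ n l, (S (n + 1)).2 l = nx (Q ((S n).2 l.tail) (S n).1 (l.headD false)) :=
    fun n l => rfl
  have hS1 : ∀ n, (S (n + 1)).1 = max (S n).1 (⨆ l : List Bool, β ((S (n + 1)).2 l)) :=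
    fun n => rfl
  have hinv : ∀ n, (S n).1 < ω₁ ∧ (∀ l, (S n).2 l ≤ p ∧ β ((S n).2 l) ≤ (S n).1 ∧
      ((S n).2 l).stem.length = p.stem.length + n) := by
    intro n
    induction n with
    | zero => exact ⟨hβ p le_rfl, fun l => ⟨le_rfl, le_rfl, rfl⟩⟩
    | succ n ih =>
      have h2 : ∀ l, (S (n + 1)).2 l ≤ p := by
        intro l
        rw [hS2]
        exact (hnx1 _).trans ((hQ _ (ih.2 _).1 _ (ih.2 _).2.1 ih.1 _).1.trans (ih.2 _).1)
      refine ⟨?_, fun l => ⟨h2 l, ?_, ?_⟩⟩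
      · rw [hS1]
        exact max_lt ih.1 (Ordinal.iSup_lt_omega_one fun l => hβ _ (h2 l))
      · rw [hS1]
        exact (le_ciSup (f := fun l => β ((S (n + 1)).2 l)) Ordinal.bddAbove_of_small l).trans
          (le_max_right _ _)
      · rw [hS2, hnx2, List.length_append, List.length_singleton,
          (hQ _ (ih.2 _).1 _ (ih.2 _).2.1 ih.1 _).2.1, (ih.2 _).2.2]
        omega
  let g : (ℕ → Bool) → ℕ → Nm K := fun f n => (S n).2 (lst f n)
  let q : (ℕ → Bool) → ℕ → Nm K := fun f n => Q (g f n) (S n).1 (f n)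
  let x : (ℕ → Bool) → ℕ → T := fun f n => X (g f n) (S n).1 (f n)
  have hg : ∀ f n, g f (n + 1) = nx (q f n) := fun f n => hS2 n _
  have hq : ∀ f n, q f n ≤ g f n ∧ (q f n).stem = (g f n).stem ∧ ht (x f n) = (S n).1 ∧
      q f n ∈ meets (b (x f n)) := fun f n =>
    hQ _ ((hinv n).2 _).1 _ ((hinv n).2 _).2.1 (hinv n).1 _
  have hqp : ∀ f n, q f n ≤ p := fun f n => (hq f n).1.trans ((hinv n).2 _).1
  have hqq : ∀ f n, q f (n + 1) ≤ q f n := fun f n =>
    (hq f (n + 1)).1.trans ((hg f n).le.trans (hnx1 _))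
  have hqs : ∀ f n, (q f (n + 1)).stem = (q f n).stem ++ [a (q f n)] := by
    intro f n
    rw [(hq f (n + 1)).2.1, hg, hnx2]
  have hql : ∀ f n, (q f n).stem.length = p.stem.length + n := by
    intro f n
    rw [(hq f n).2.1]
    exact ((hinv n).2 _).2.2
  have hmono : ∀ f, Monotone (x f) := by
    intro f
    refine monotone_nat_of_le_succ fun n => hT.le_iff_of_comparable (branch_comparable h
      (hqp f (n + 1)) (down_meets _ _ (hq f n).2.2.2 _ (hqq f n)) (hq f (n + 1)).2.2.2) ?_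
    rw [(hq f n).2.2.1, (hq f (n + 1)).2.2.1, hS1]
    exact le_max_left _ _
  -- all the sequences are bounded
  have hbdd : ∀ f, ∃ y, ∀ n, x f n ≤ y := by
    intro f
    by_contra hunb
    let c : ℕ → T := fun k => x f (k - p.stem.length)
    have hc : Monotone c := fun i j hij => hmono f (Nat.sub_le_sub_right hij _)
    have hc' : ∀ n, c (q f n).stem.length = x f n := by
      intro n
      show x f ((q f n).stem.length - p.stem.length) = x f n
      rw [hql, Nat.add_sub_cancel_left]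
    have hcunb : ¬ ∃ y, ∀ n, c n ≤ y := by
      rintro ⟨y, hy⟩
      refine hunb ⟨y, fun n => ?_⟩
      rw [← hc' n]
      exact hy _
    have hl : ∀ n, ∃ ρ, Lose b c ρ (q f n) := fun n => exists_lose hK hT h hc hcunb (hqp f n)
    have hrk : ∀ n, rk b c (q f (n + 1)) < rk b c (q f n) := by
      intro n
      refine (ha' (q f n) c (hl n) ?_ _ (hqq f n) (hqs f n)).1
      rw [hc' n]
      exact (hq f n).2.2.2
    obtain ⟨_, ⟨n, rfl⟩, hmin⟩ := WellFounded.has_min (wellFounded_lt (α := Ordinal.{u}))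
      (Set.range fun n => rk b c (q f n)) ⟨_, 0, rfl⟩
    exact hmin _ ⟨n + 1, rfl⟩ (hrk n)
  -- they are bounded by an element of a fixed level
  have hδ : (⨆ n, (S n).1) < ω₁ := Ordinal.iSup_lt_omega_one fun n => (hinv n).1
  have hz : ∀ f, ∃ z, ht z = (⨆ n, (S n).1) ∧ ∀ n, x f n ≤ z := by
    intro f
    obtain ⟨y, hy⟩ := hbdd f
    have h2 : (⨆ n, (S n).1) ≤ ht y := by
      refine ciSup_le' fun n => ?_
      rw [← (hq f n).2.2.1]
      rcases (hy n).eq_or_lt with he | hlt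
      · rw [he]
      · exact (hT.strict _ _ hlt).le
    have h3 : ∃ z ≤ y, ht z = ⨆ n, (S n).1 := by
      rcases h2.eq_or_lt with he | hlt
      · exact ⟨y, le_rfl, he.symm⟩
      · obtain ⟨z, hz, hz'⟩ := hT.pred y _ hlt
        exact ⟨z, hz.le, hz'⟩
    obtain ⟨z, hzy, hz⟩ := h3
    refine ⟨z, hz, fun n => hT.le_of_le (hy n) hzy ?_⟩
    rw [hz, (hq f n).2.2.1]
    exact le_ciSup (f := fun n => (S n).1) Ordinal.bddAbove_of_small n
  choose z hz1 hz2 using hz
  have hinj : Function.Injective z := by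
    intro f f' hff'
    by_contra hne
    have h2 : ∃ n, f n ≠ f' n := by
      by_contra h3
      push Not at h3
      exact hne (funext h3)
    classical
    have h4 := Nat.find_spec h2
    have h5 : ∀ i < Nat.find h2, f i = f' i := fun i hi => not_not.1 (Nat.find_min h2 hi)
    have h6 : g f (Nat.find h2) = g f' (Nat.find h2) := by
      show (S _).2 (lst f _) = (S _).2 (lst f' _)
      rw [lst_congr h5]
    have h7 : x f (Nat.find h2) = x f' (Nat.find h2) := by
      have h8 := hz2 f (Nat.find h2)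
      have h9 := hz2 f' (Nat.find h2)
      rw [hff'] at h8
      have h10 : ht (x f (Nat.find h2)) = ht (x f' (Nat.find h2)) := by
        rw [(hq f _).2.2.1, (hq f' _).2.2.1]
      exact le_antisymm (hT.le_of_le h8 h9 h10.le) (hT.le_of_le h9 h8 h10.ge)
    have h8 : X (g f' (Nat.find h2)) (S (Nat.find h2)).1 (f (Nat.find h2)) =
        X (g f' (Nat.find h2)) (S (Nat.find h2)).1 (f' (Nat.find h2)) := by
      have h9 : X (g f (Nat.find h2)) (S (Nat.find h2)).1 (f (Nat.find h2)) =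
        X (g f' (Nat.find h2)) (S (Nat.find h2)).1 (f' (Nat.find h2)) := h7
      rwa [h6] at h9
    have h9 := hX (g f' (Nat.find h2)) ((hinv _).2 _).1 (S (Nat.find h2)).1 ((hinv _).2 _).2.1
      (hinv _).1
    revert h8
    rcases hb1 : f (Nat.find h2) with _ | _ <;> rcases hb2 : f' (Nat.find h2) with _ | _
    · exact absurd (hb1.trans hb2.symm) h4
    · exact fun h8 => h9 h8.symm
    · exact h9
    · exact absurd (hb1.trans hb2.symm) h4
  refine uncountable_seq ?_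
  have hcount : Countable {x | ht x = ⨆ n, (S n).1} := (hT.level_countable _).to_subtype
  exact Function.Injective.countable (f := fun f => (⟨z f, hz1 f⟩ : {x | ht x = ⨆ n, (S n).1}))
    fun f f' hff' => hinj (congrArg Subtype.val hff')

end Pool.Agent.K7.H48.Namba
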